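import Pool.Agent.Lib.MP_e62806_an.Defs

/-!
Generalities on Bernoulli measures: coordinatewise maps, cylinder approximation, ergodicity.
-/

open MeasureTheory Filter Topology
open scoped ENNReal symmDiff

noncomputable section

namespace Pool.Agent.Lib.MP_e62806_an

/-- The Bernoulli measure. -/
abbrev bern (ι : Type) {W : Type} [MeasurableSpace W] (ρ : Measure W) : Measure (ι → W) :=
  Measure.infinitePi fun _ : ι => ρ

section MP

variable {ι A B C : Type} [MeasurableSpace A] [MeasurableSpace B] [MeasurableSpace C]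

lemma mp_zip (α : Measure A) (β : Measure B) [IsProbabilityMeasure α] [IsProbabilityMeasure β] :
    MeasurePreserving (fun (p : (ι → A) × (ι → B)) (i : ι) => (p.1 i, p.2 i))
      ((bern ι α).prod (bern ι β)) (bern ι (α.prod β)) := by
  have hm : Measurable (fun (p : (ι → A) × (ι → B)) (i : ι) => (p.1 i, p.2 i)) := by fun_prop
  refine ⟨hm, ?_⟩
  refine ((Measure.isProjectiveLimit_infinitePi (fun _ : ι => α.prod β)).unique ?_).symm
  intro I
  rw [Measure.map_map (Finset.measurable_restrict I) hm]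
  have r1 : MeasurePreserving (I.restrict : (ι → A) → (I → A)) (bern ι α)
      (Measure.pi fun _ : I => α) :=
    ⟨Finset.measurable_restrict I, Measure.infinitePi_map_restrict _⟩
  have r2 : MeasurePreserving (I.restrict : (ι → B) → (I → B)) (bern ι β)
      (Measure.pi fun _ : I => β) :=
    ⟨Finset.measurable_restrict I, Measure.infinitePi_map_restrict _⟩
  have r3 := (((measurePreserving_arrowProdEquivProdArrow A B I (fun _ => α)
    (fun _ => β)).symm _).comp (r1.prod r2)).map_eq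
  exact r3

lemma mp_unzip (α : Measure A) (β : Measure B) [IsProbabilityMeasure α] [IsProbabilityMeasure β] :
    MeasurePreserving (fun (x : ι → A × B) => ((fun i => (x i).1), (fun i => (x i).2)))
      (bern ι (α.prod β)) ((bern ι α).prod (bern ι β)) := by
  have h : MeasurePreserving (MeasurableEquiv.arrowProdEquivProdArrow A B ι).symm
      ((bern ι α).prod (bern ι β)) (bern ι (α.prod β)) := mp_zip α β
  exact h.symm _

lemma mp_coord (α : Measure A) (β : Measure B) [IsProbabilityMeasure α]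
    {f : ι → A → B} (hf : ∀ i, MeasurePreserving (f i) α β) :
    MeasurePreserving (fun (x : ι → A) (i : ι) => f i (x i)) (bern ι α) (bern ι β) := by
  have hm : ∀ i, Measurable (f i) := fun i => (hf i).measurable
  refine ⟨by fun_prop, ?_⟩
  rw [Measure.infinitePi_map_pi _ hm]
  congr 1
  funext i
  exact (hf i).map_eq

lemma mp_coord₂ (α : Measure A) (β : Measure B) (γ : Measure C) [IsProbabilityMeasure α]
    [IsProbabilityMeasure β] {f : ι → A × B → C} (hf : ∀ i, MeasurePreserving (f i) (α.prod β) γ) :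
    MeasurePreserving (fun (p : (ι → A) × (ι → B)) (i : ι) => f i (p.1 i, p.2 i))
      ((bern ι α).prod (bern ι β)) (bern ι γ) :=
  (mp_coord (α.prod β) γ hf).comp (mp_zip α β)

lemma mp_reindex (α : Measure A) [IsProbabilityMeasure α] {e : ι → ι} (he : Function.Injective e) :
    MeasurePreserving (fun (x : ι → A) (i : ι) => x (e i)) (bern ι α) (bern ι α) :=
  ⟨by fun_prop, Measure.map_infinitePi_infinitePi_of_inj he⟩

lemma mp_shift {G : Type} [Group G] (α : Measure A) [IsProbabilityMeasure α] (g : G) :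
    MeasurePreserving (shift g : (G → A) → (G → A)) (bern G α) (bern G α) :=
  mp_reindex α (e := fun h => g⁻¹ * h) (mul_right_injective _)

/-- Selecting coordinates from two independent configurations. -/
def sel [DecidableEq ι] (D : Finset ι) (p : (ι → A) × (ι → A)) : ι → A :=
  fun i => if i ∈ D then p.1 i else p.2 i

lemma mp_sel [DecidableEq ι] (α : Measure A) [IsProbabilityMeasure α] (D : Finset ι) :
    MeasurePreserving (sel D) ((bern ι α).prod (bern ι α)) (bern ι α) := by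
  have := mp_coord₂ (ι := ι) α α α (f := fun i p => if i ∈ D then p.1 else p.2) (fun i => by
    by_cases h : i ∈ D
    · simp only [h, if_true]; exact measurePreserving_fst
    · simp only [h, if_false]; exact measurePreserving_snd)
  exact this

end MP

/-- Bounded measurable complex functions. -/
structure BM {Ω : Type} [MeasurableSpace Ω] (ξ : Ω → ℂ) : Prop where
  meas : Measurable ξ
  bdd : ∃ C : ℝ, ∀ ω, ‖ξ ω‖ ≤ C

section BM

variable {Ω Ω' : Type} [MeasurableSpace Ω] [MeasurableSpace Ω']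

lemma BM.add {ξ η : Ω → ℂ} (hξ : BM ξ) (hη : BM η) : BM (fun ω => ξ ω + η ω) := by
  obtain ⟨C, hC⟩ := hξ.bdd
  obtain ⟨D, hD⟩ := hη.bdd
  exact ⟨hξ.meas.add hη.meas, C + D, fun ω => (norm_add_le _ _).trans (add_le_add (hC ω) (hD ω))⟩

lemma BM.sub {ξ η : Ω → ℂ} (hξ : BM ξ) (hη : BM η) : BM (fun ω => ξ ω - η ω) := by
  obtain ⟨C, hC⟩ := hξ.bdd
  obtain ⟨D, hD⟩ := hη.bdd
  exact ⟨hξ.meas.sub hη.meas, C + D, fun ω => (norm_sub_le _ _).trans (add_le_add (hC ω) (hD ω))⟩

lemma BM.mul {ξ η : Ω → ℂ} (hξ : BM ξ) (hη : BM η) : BM (fun ω => ξ ω * η ω) := by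
  obtain ⟨C, hC⟩ := hξ.bdd
  obtain ⟨D, hD⟩ := hη.bdd
  refine ⟨hξ.meas.mul hη.meas, C * D, fun ω => ?_⟩
  rw [norm_mul]
  exact mul_le_mul (hC ω) (hD ω) (norm_nonneg _) ((norm_nonneg _).trans (hC ω))

lemma BM.const (c : ℂ) : BM (fun _ : Ω => c) := ⟨measurable_const, ‖c‖, fun _ => le_rfl⟩

lemma BM.conj {ξ : Ω → ℂ} (hξ : BM ξ) : BM (fun ω => (starRingEnd ℂ) (ξ ω)) := by
  obtain ⟨C, hC⟩ := hξ.bdd
  exact ⟨Complex.continuous_conj.measurable.comp hξ.meas, C, fun ω => by simpa using hC ω⟩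

lemma BM.comp {ξ : Ω → ℂ} (hξ : BM ξ) {T : Ω' → Ω} (hT : Measurable T) : BM (fun ω => ξ (T ω)) := by
  obtain ⟨C, hC⟩ := hξ.bdd
  exact ⟨hξ.meas.comp hT, C, fun ω => hC _⟩

lemma BM.integrable {ξ : Ω → ℂ} (hξ : BM ξ) (μ : Measure Ω) [IsFiniteMeasure μ] :
    Integrable ξ μ := by
  obtain ⟨C, hC⟩ := hξ.bdd
  exact Integrable.of_bound hξ.meas.aestronglyMeasurable C (ae_of_all _ hC)

lemma BM.memLp {ξ : Ω → ℂ} (hξ : BM ξ) (μ : Measure Ω) [IsFiniteMeasure μ] (p : ℝ≥0∞) :
    MemLp ξ p μ := by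
  obtain ⟨C, hC⟩ := hξ.bdd
  exact MemLp.of_bound hξ.meas.aestronglyMeasurable C (ae_of_all _ hC)

lemma BM.integrable_sq {ξ : Ω → ℂ} (hξ : BM ξ) (μ : Measure Ω) [IsFiniteMeasure μ] :
    Integrable (fun ω => ‖ξ ω‖ ^ 2) μ := by
  obtain ⟨C, hC⟩ := hξ.bdd
  refine Integrable.of_bound (hξ.meas.norm.pow_const 2).aestronglyMeasurable (C ^ 2)
    (ae_of_all _ fun ω => ?_)
  rw [Real.norm_of_nonneg (by positivity)]
  exact pow_le_pow_left₀ (norm_nonneg _) (hC ω) 2

/-- Squared `L²` distance. -/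
def dsq (μ : Measure Ω) (ξ η : Ω → ℂ) : ℝ := ∫ ω, ‖ξ ω - η ω‖ ^ 2 ∂μ

lemma dsq_nonneg (μ : Measure Ω) (ξ η : Ω → ℂ) : 0 ≤ dsq μ ξ η :=
  integral_nonneg fun ω => by positivity

lemma dsq_comm (μ : Measure Ω) (ξ η : Ω → ℂ) : dsq μ ξ η = dsq μ η ξ := by
  unfold dsq
  congr 1
  funext ω
  rw [norm_sub_rev]

lemma dsq_triangle (μ : Measure Ω) [IsFiniteMeasure μ] {ξ η ζ : Ω → ℂ} (hξ : BM ξ) (hη : BM η)
    (hζ : BM ζ) : dsq μ ξ ζ ≤ 2 * dsq μ ξ η + 2 * dsq μ η ζ := by
  unfold dsq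
  rw [← integral_const_mul, ← integral_const_mul, ← integral_add
    (((hξ.sub hη).integrable_sq μ).const_mul 2) (((hη.sub hζ).integrable_sq μ).const_mul 2)]
  refine integral_mono ((hξ.sub hζ).integrable_sq μ)
    ((((hξ.sub hη).integrable_sq μ).const_mul 2).add (((hη.sub hζ).integrable_sq μ).const_mul 2))
    fun ω => ?_
  have h1 : ‖ξ ω - ζ ω‖ ≤ ‖ξ ω - η ω‖ + ‖η ω - ζ ω‖ := norm_sub_le_norm_sub_add_norm_sub _ _ _
  have h2 : ‖ξ ω - ζ ω‖ ^ 2 ≤ (‖ξ ω - η ω‖ + ‖η ω - ζ ω‖) ^ 2 :=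
    pow_le_pow_left₀ (norm_nonneg _) h1 2
  nlinarith [sq_nonneg (‖ξ ω - η ω‖ - ‖η ω - ζ ω‖)]

lemma dsq_comp {μ : Measure Ω} {μ' : Measure Ω'} {T : Ω' → Ω} (hT : MeasurePreserving T μ' μ)
    {ξ η : Ω → ℂ} (hξ : Measurable ξ) (hη : Measurable η) :
    dsq μ' (fun ω => ξ (T ω)) (fun ω => η (T ω)) = dsq μ ξ η := by
  unfold dsq
  have hm : Measurable (fun ω => ‖ξ ω - η ω‖ ^ 2) := (hξ.sub hη).norm.pow_const 2
  rw [← hT.map_eq, integral_map hT.measurable.aemeasurable hm.aestronglyMeasurable]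

lemma integral_comp_mp {μ : Measure Ω} {μ' : Measure Ω'} {T : Ω' → Ω}
    (hT : MeasurePreserving T μ' μ) {ξ : Ω → ℂ} (hξ : Measurable ξ) :
    ∫ ω, ξ (T ω) ∂μ' = ∫ ω, ξ ω ∂μ := by
  rw [← hT.map_eq, integral_map hT.measurable.aemeasurable hξ.aestronglyMeasurable]

end BM

section Cyl

variable {ι W : Type} [MeasurableSpace W] (ρ : Measure W) [IsProbabilityMeasure ρ]

lemma exists_cyl_set {s : Set (ι → W)} (hs : MeasurableSet s) {ε : ℝ≥0∞} (hε : 0 < ε) :
    ∃ (A : Finset ι) (t : Set (ι → W)), MeasurableSet t ∧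
      (∀ x y : ι → W, (∀ i ∈ A, x i = y i) → x ∈ t → y ∈ t) ∧ bern ι ρ (t ∆ s) < ε := by
  obtain ⟨t, ht, h⟩ := exists_measure_symmDiff_lt_of_generateFrom_isSetRing (μ := bern ι ρ)
    (isSetRing_measurableCylinders (α := fun _ : ι => W))
    ⟨{Set.univ}, Set.countable_singleton _, by
      simpa using univ_mem_measurableCylinders (fun _ : ι => W), by simp⟩
    generateFrom_measurableCylinders.symm hs hε
  obtain ⟨A, S, hS, rfl⟩ := (mem_measurableCylinders _).1 ht
  refine ⟨A, _, hS.cylinder, fun x y hxy hx => ?_, h⟩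
  rw [mem_cylinder] at hx ⊢
  have : A.restrict y = A.restrict x := by
    funext i; exact (hxy i i.2).symm
  rwa [this]

lemma exists_cyl_approx {ξ : (ι → W) → ℂ} (hξ : BM ξ) {ε : ℝ} (hε : 0 < ε) :
    ∃ (A : Finset ι) (η : (ι → W) → ℂ), BM η ∧ DependsOn η (A : Set ι) ∧
      dsq (bern ι ρ) ξ η ≤ ε := by
  classical
  refine Exists.elim (MemLp.induction_dense (μ := bern ι ρ) (p := 2) (by simp)
    (fun η : (ι → W) → ℂ => BM η ∧ ∃ A : Finset ι, DependsOn η (A : Set ι)) ?_ ?_ ?_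
    (hξ.memLp _ 2) (ε := ENNReal.ofReal (Real.sqrt ε)) (by simpa using hε)) ?_
  rotate_right
  · rintro η ⟨h1, hη, A, hA⟩
    refine ⟨A, η, hη, hA, ?_⟩
    have hm : MemLp (ξ - η) 2 (bern ι ρ) := (hξ.sub hη).memLp _ 2
    rw [hm.eLpNorm_eq_integral_rpow_norm (by simp) (by simp),
      ENNReal.ofReal_le_ofReal_iff (Real.sqrt_nonneg _)] at h1
    have h2 : (∫ ω, ‖(ξ - η) ω‖ ^ (2 : ℝ≥0∞).toReal ∂bern ι ρ) = dsq (bern ι ρ) ξ η := by
      unfold dsq
      congr 1
      funext ω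
      simp
    rw [h2] at h1
    have h3 : (dsq (bern ι ρ) ξ η) ^ ((2 : ℝ≥0∞).toReal)⁻¹ = Real.sqrt (dsq (bern ι ρ) ξ η) := by
      rw [Real.sqrt_eq_rpow]; norm_num
    rw [h3] at h1
    exact (Real.sqrt_le_sqrt_iff hε.le).1 h1
  · intro c s hs _ δ hδ
    obtain ⟨θ, hθ, h⟩ := exists_eLpNorm_indicator_le (μ := bern ι ρ) (p := 2) (by simp) c hδ
    obtain ⟨A, t, ht, hA, h'⟩ := exists_cyl_set ρ hs (ε := θ) (by simpa using hθ)
    refine ⟨t.indicator fun _ => c, ?_, ⟨measurable_const.indicator ht, ‖c‖, fun ω => ?_⟩, A, ?_⟩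
    · rw [eLpNorm_indicator_sub_indicator]
      exact h _ h'.le
    · exact norm_indicator_le_norm_self _ _
    · intro x y hxy
      by_cases hx : x ∈ t
      · rw [Set.indicator_of_mem hx, Set.indicator_of_mem (hA x y hxy hx)]
      · have hy : y ∉ t := fun hy => hx (hA y x (fun i hi => (hxy i hi).symm) hy)
        rw [Set.indicator_of_notMem hx, Set.indicator_of_notMem hy]
  · rintro f g ⟨hf, A, hA⟩ ⟨hg, B, hB⟩
    refine ⟨hf.add hg, A ∪ B, fun x y hxy => ?_⟩
    simp only [Pi.add_apply]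
    rw [hA fun i hi => hxy i (by simp [Finset.mem_coe.1 hi]),
      hB fun i hi => hxy i (by simp [Finset.mem_coe.1 hi])]
  · exact fun f hf => hf.1.meas.aestronglyMeasurable

lemma exists_pow_disjoint {G : Type} [Group G] {t : G} (ht : ∀ n : ℕ, t ^ n = 1 → n = 0)
    (A : Finset G) : ∃ n : ℕ, ∀ a ∈ A, t ^ n * a ∉ A := by
  classical
  have hinj : Function.Injective (fun n : ℕ => t ^ n) := by
    rw [injective_pow_iff_not_isOfFinOrder, isOfFinOrder_iff_pow_eq_one]
    rintro ⟨n, hn, h⟩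
    exact hn.ne' (ht n h)
  obtain ⟨n, hn⟩ := Infinite.exists_notMem_finset
    (((A ×ˢ A).image fun p : G × G => p.2 * p.1⁻¹).preimage _ hinj.injOn)
  refine ⟨n, fun a ha hb => hn ?_⟩
  rw [Finset.mem_preimage, Finset.mem_image]
  exact ⟨(a, t ^ n * a), Finset.mem_product.2 ⟨ha, hb⟩, by simp⟩

lemma shift_iterate {G X : Type} [Group G] (t : G) (n : ℕ) (x : G → X) :
    (shift t⁻¹)^[n] x = fun h => x (t ^ n * h) := by
  induction n with
  | zero => simp
  | succ n ih =>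
    rw [Function.iterate_succ_apply', ih]
    funext h
    simp [shift, pow_succ, mul_assoc]

theorem ergodic_shift {G : Type} [Group G] {t : G} (ht : ∀ n : ℕ, t ^ n = 1 → n = 0) :
    Ergodic (shift t⁻¹ : (G → W) → (G → W)) (bern G ρ) := by
  classical
  refine ⟨mp_shift ρ _, ⟨fun s hs hinv => ?_⟩⟩
  set μ := bern G ρ with hμ
  have key : ∀ ε : ℝ, 0 < ε → μ.real s - μ.real s * μ.real s ≤ 4 * ε := by
    intro ε hε
    obtain ⟨A, c, hc, hA, h⟩ := exists_cyl_set ρ hs (ε := ENNReal.ofReal ε) (by simpa using hε)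
    have h' : μ.real (c ∆ s) ≤ ε := ENNReal.toReal_le_of_le_ofReal hε.le h.le
    obtain ⟨n, hn⟩ := exists_pow_disjoint ht A
    set T : (G → W) → (G → W) := (shift t⁻¹)^[n] with hT
    have hTmp : MeasurePreserving T μ μ := (mp_shift ρ _).iterate n
    have hTs : T ⁻¹' s = s := by
      rw [hT]; exact Function.IsFixedPt.preimage_iterate hinv n
    have h1 : μ.real (c ∩ T ⁻¹' c) = μ.real c * μ.real c := by
      have e : sel A ⁻¹' (c ∩ T ⁻¹' c) = c ×ˢ (T ⁻¹' c) := by
        ext p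
        have a1 : ∀ i ∈ A, sel A p i = p.1 i := fun i hi => by simp [sel, hi]
        have a2 : ∀ i ∈ A, T (sel A p) i = T p.2 i := fun i hi => by
          simp only [hT, shift_iterate, sel, hn i hi, if_false]
        simp only [Set.mem_preimage, Set.mem_inter_iff, Set.mem_prod]
        exact ⟨fun ⟨u, v⟩ => ⟨hA _ _ a1 u, hA _ _ a2 v⟩,
          fun ⟨u, v⟩ => ⟨hA _ _ (fun i hi => (a1 i hi).symm) u,
            hA _ _ (fun i hi => (a2 i hi).symm) v⟩⟩
      rw [← (mp_sel ρ A).measureReal_preimage (hc.inter (hTmp.measurable hc)).nullMeasurableSet, e,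
        measureReal_prod_prod, hTmp.measureReal_preimage hc.nullMeasurableSet]
    have h2 : s ⊆ (c ∩ T ⁻¹' c) ∪ (c ∆ s) ∪ T ⁻¹' (c ∆ s) := by
      intro x hx
      have hx' : T x ∈ s := by rw [← hTs] at hx; exact hx
      by_cases a1 : x ∈ c
      · by_cases a2 : T x ∈ c
        · exact Or.inl (Or.inl ⟨a1, a2⟩)
        · exact Or.inr (Or.inr ⟨hx', a2⟩)
      · exact Or.inl (Or.inr (Or.inr ⟨hx, a1⟩))
    have h3 : μ.real s ≤ μ.real c * μ.real c + ε + ε := by
      refine (measureReal_mono h2).trans ((measureReal_union_le _ _).trans ?_)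
      rw [hTmp.measureReal_preimage (hc.symmDiff hs).nullMeasurableSet]
      have := measureReal_union_le (μ := μ) (c ∩ T ⁻¹' c) (c ∆ s)
      linarith
    have h4 : μ.real c ≤ μ.real s + ε := by
      have : c ⊆ s ∪ (c ∆ s) := by
        intro x hx
        by_cases a1 : x ∈ s
        · exact Or.inl a1
        · exact Or.inr (Or.inl ⟨hx, a1⟩)
      have := (measureReal_mono (μ := μ) this).trans (measureReal_union_le _ _)
      linarith
    have h5 : μ.real c ≤ 1 := measureReal_le_one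
    have h6 : μ.real s ≤ 1 := measureReal_le_one
    have h7 : 0 ≤ μ.real c := measureReal_nonneg
    have h8 : 0 ≤ μ.real s := measureReal_nonneg
    rcases le_total (μ.real c) (μ.real s) with h9 | h9
    · nlinarith
    · nlinarith
  have h0 : μ.real s - μ.real s * μ.real s ≤ 0 := by
    refine le_of_forall_pos_le_add fun ε hε => ?_
    have := key (ε / 4) (by positivity)
    linarith
  have h6 : μ.real s ≤ 1 := measureReal_le_one
  have h8 : 0 ≤ μ.real s := measureReal_nonneg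
  rw [eventuallyConst_set']
  rcases h8.eq_or_lt with h | h
  · left
    rw [ae_eq_empty, ← measureReal_eq_zero_iff]
    exact h.symm
  · right
    have h9 : μ.real s = 1 := by nlinarith
    rw [ae_eq_univ, ← measureReal_eq_zero_iff, measureReal_compl hs, h9]
    simp

end Cyl

end Pool.Agent.Lib.MP_e62806_an
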