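import Pool.Agent.Lib.MP_e62806_an.Conv

/-!
A circle-valued cocycle over an ergodic transformation that stays uniformly close to `1` in `L²`
is a coboundary; a cocycle that becomes cohomologous to a cocycle of an independent system is
cohomologous to a constant.
-/

open MeasureTheory Filter Topology
open scoped ENNReal

noncomputable section

namespace Pool.Agent.Lib.MP_e62806_an

/-- The argument as a point of `ℝ/ℤ`. -/
def argT (z : ℂ) : UnitAddCircle := ((Complex.arg z / (2 * Real.pi) : ℝ) : UnitAddCircle)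

lemma measurable_argT : Measurable argT :=
  (AddCircle.continuous_mk' 1).measurable.comp (Complex.measurable_arg.div_const _)

lemma norm_mul_ex_argT (z : ℂ) : (‖z‖ : ℂ) * ex (argT z) = z := by
  rw [ex, argT, AddCircle.toCircle_apply_mk, Circle.coe_exp]
  have : 2 * Real.pi / 1 * (Complex.arg z / (2 * Real.pi)) = Complex.arg z := by
    have := Real.pi_ne_zero
    field_simp
  rw [this]
  exact Complex.norm_mul_exp_arg_mul_I z

section

variable {Ω : Type} [MeasurableSpace Ω] {μ : Measure Ω} [IsProbabilityMeasure μ]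

omit [IsProbabilityMeasure μ] in
lemma memLp_twist {a : Ω → UnitAddCircle} (ha : Measurable a) {T : Ω → Ω}
    (hT : MeasurePreserving T μ μ) (f : Lp ℂ 2 μ) :
    MemLp (fun ω => ex (a ω) * f (T ω)) 2 μ := by
  refine ((Lp.memLp f).comp_measurePreserving hT).congr_norm ?_ (ae_of_all _ fun ω => by simp)
  exact ((BM.ex ha).meas.mul
    ((Lp.stronglyMeasurable f).measurable.comp hT.measurable)).aestronglyMeasurable

/-- The twisted Koopman operator on `L²`, as a linear map. -/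
def twistL {a : Ω → UnitAddCircle} (ha : Measurable a) {T : Ω → Ω}
    (hT : MeasurePreserving T μ μ) : Lp ℂ 2 μ →ₗ[ℂ] Lp ℂ 2 μ where
  toFun f := (memLp_twist ha hT f).toLp _
  map_add' f g := by
    rw [← MemLp.toLp_add]
    refine MemLp.toLp_congr _ _ ?_
    filter_upwards [hT.quasiMeasurePreserving.ae (Lp.coeFn_add f g)] with ω hω
    simp only [Pi.add_apply] at hω ⊢
    rw [hω, mul_add]
  map_smul' c f := by
    rw [RingHom.id_apply, ← MemLp.toLp_const_smul]
    refine MemLp.toLp_congr _ _ ?_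
    filter_upwards [hT.quasiMeasurePreserving.ae (Lp.coeFn_smul c f)] with ω hω
    simp only [Pi.smul_apply, smul_eq_mul] at hω ⊢
    rw [hω, mul_left_comm]

omit [IsProbabilityMeasure μ] in
lemma twistL_ae {a : Ω → UnitAddCircle} (ha : Measurable a) {T : Ω → Ω}
    (hT : MeasurePreserving T μ μ) (f : Lp ℂ 2 μ) :
    twistL ha hT f =ᵐ[μ] fun ω => ex (a ω) * f (T ω) := MemLp.coeFn_toLp (memLp_twist ha hT f)

omit [IsProbabilityMeasure μ] in
lemma norm_twistL {a : Ω → UnitAddCircle} (ha : Measurable a) {T : Ω → Ω}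
    (hT : MeasurePreserving T μ μ) (f : Lp ℂ 2 μ) : ‖twistL ha hT f‖ = ‖f‖ := by
  rw [Lp.norm_def, Lp.norm_def, eLpNorm_congr_ae (twistL_ae ha hT f),
    ← eLpNorm_comp_measurePreserving (Lp.aestronglyMeasurable f) hT]
  congr 1
  exact eLpNorm_congr_norm_ae (ae_of_all _ fun ω => by simp)

lemma norm_toLp_sub_sq {ξ η : Ω → ℂ} (hξ : BM ξ) (hη : BM η) :
    ‖(hξ.memLp μ 2).toLp ξ - (hη.memLp μ 2).toLp η‖ ^ 2 = dsq μ ξ η := by
  rw [← MemLp.toLp_sub, @norm_sq_eq_re_inner ℂ, L2.inner_def]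
  unfold dsq
  rw [← Complex.ofReal_re (∫ ω, ‖ξ ω - η ω‖ ^ 2 ∂μ), ← integral_complex_ofReal]
  refine congrArg Complex.re (integral_congr_ae ?_)
  filter_upwards [MemLp.coeFn_toLp ((hξ.memLp μ 2).sub (hη.memLp μ 2))] with ω hω
  rw [hω, inner_self_eq_norm_sq_to_K]
  simp

theorem coboundary_of_close {T : Ω → Ω} (hT : Ergodic T μ) {a : Ω → UnitAddCircle}
    (ha : Measurable a) (A : ℕ → Ω → UnitAddCircle) (hA : ∀ n, Measurable (A n))
    (hA0 : ∀ᵐ ω ∂μ, A 0 ω = 0) (hAs : ∀ n, ∀ᵐ ω ∂μ, A (n + 1) ω = a ω + A n (T ω))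
    (hclose : ∀ n, dsq μ (fun ω => ex (A n ω)) (fun _ => 1) ≤ 1 / 4) :
    ∃ B : Ω → UnitAddCircle, Measurable B ∧ ∀ᵐ ω ∂μ, a ω = B ω - B (T ω) := by
  have hTm := hT.toMeasurePreserving
  let U : Lp ℂ 2 μ →L[ℂ] Lp ℂ 2 μ :=
    (twistL ha hTm).mkContinuous 1 fun f => by rw [norm_twistL, one_mul]
  have hU : ‖U‖ ≤ 1 := LinearMap.mkContinuous_norm_le _ zero_le_one _
  let one : Lp ℂ 2 μ := ((BM.const (1 : ℂ)).memLp μ 2).toLp _
  have hiter : ∀ n, U^[n] one = ((BM.ex (hA n)).memLp μ 2).toLp _ := by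
    intro n
    induction n with
    | zero =>
      refine MemLp.toLp_congr ((BM.const (1 : ℂ)).memLp μ 2) _ ?_
      filter_upwards [hA0] with ω hω
      simp [hω]
    | succ n ih =>
      rw [Function.iterate_succ_apply', ih]
      refine MemLp.toLp_congr (memLp_twist ha hTm _) _ ?_
      filter_upwards [hAs n, hTm.quasiMeasurePreserving.ae
        (MemLp.coeFn_toLp ((BM.ex (hA n)).memLp μ 2))] with ω h1 h2
      rw [h1, h2, ex_add]
  have hdist : ∀ n, ‖U^[n] one - one‖ ≤ 1 / 2 := by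
    intro n
    have h1 := norm_toLp_sub_sq (μ := μ) (BM.ex (hA n)) (BM.const 1)
    rw [← hiter n] at h1
    have h2 := hclose n
    rw [← h1] at h2
    nlinarith [norm_nonneg (U^[n] one - one)]
  have hlim := U.tendsto_birkhoffAverage_orthogonalProjection hU one
  set ξ := (U.eqLocus (1 : Lp ℂ 2 μ →L[ℂ] Lp ℂ 2 μ)).orthogonalProjectionOnto one with hξ
  have hfix : twistL ha hTm ξ.1 = ξ.1 := ξ.2
  have hξ1 : ‖ξ.1 - one‖ ≤ 1 / 2 := by
    refine le_of_tendsto ((hlim.sub_const one).norm) ?_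
    filter_upwards [eventually_gt_atTop 0] with n hn
    have hn' : (n : ℂ) ≠ 0 := by exact_mod_cast hn.ne'
    have e : birkhoffAverage ℂ U id n one - one =
        (n : ℂ)⁻¹ • ∑ k ∈ Finset.range n, (U^[k] one - one) := by
      rw [Finset.sum_sub_distrib, smul_sub, Finset.sum_const, Finset.card_range,
        ← Nat.cast_smul_eq_nsmul ℂ, smul_smul, inv_mul_cancel₀ hn', one_smul]
      rfl
    rw [e, norm_smul, norm_inv, Complex.norm_natCast]
    have h1 : ‖∑ k ∈ Finset.range n, (U^[k] one - one)‖ ≤ n * (1 / 2) := by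
      refine (norm_sum_le _ _).trans ((Finset.sum_le_sum fun k _ => hdist k).trans ?_)
      simp
    have hn2 : (0 : ℝ) < n := by exact_mod_cast hn
    rw [inv_mul_le_iff₀ hn2]
    exact h1
  have hone : ‖one‖ = 1 := by
    have h1 := norm_toLp_sub_sq (μ := μ) (BM.const 1) (BM.const 0)
    have h2 : ((BM.const (0 : ℂ)).memLp μ 2).toLp (fun _ : Ω => (0 : ℂ)) = 0 := MemLp.toLp_zero _
    rw [h2, sub_zero] at h1
    have h3 : dsq μ (fun _ : Ω => (1 : ℂ)) (fun _ => 0) = 1 := by simp [dsq]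
    rw [h3] at h1
    exact (pow_eq_one_iff_of_nonneg (norm_nonneg _) two_ne_zero).1 h1
  have hne : ξ.1 ≠ 0 := by
    intro h0
    rw [h0, zero_sub, norm_neg, hone] at hξ1
    norm_num at hξ1
  have hm : Measurable (ξ.1 : Ω → ℂ) := (Lp.stronglyMeasurable ξ.1).measurable
  have hfix' : ∀ᵐ ω ∂μ, ξ.1 ω = ex (a ω) * ξ.1 (T ω) := by
    have := twistL_ae ha hTm ξ.1
    rw [hfix] at this
    exact this
  obtain ⟨c, hc⟩ := hT.ae_eq_const_of_ae_eq_comp_ae (g := fun ω => ‖ξ.1 ω‖)
    hm.norm.aestronglyMeasurable (by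
      filter_upwards [hfix'] with ω hω
      simp only [Function.comp_apply]
      rw [hω]; simp)
  have hc0 : c ≠ 0 := by
    rintro rfl
    apply hne
    rw [Lp.eq_zero_iff_ae_eq_zero]
    filter_upwards [hc] with ω hω
    simpa using hω
  refine ⟨fun ω => argT (ξ.1 ω), measurable_argT.comp hm, ?_⟩
  filter_upwards [hfix', hc, hTm.quasiMeasurePreserving.ae hc] with ω h1 h2 h3
  rw [eq_sub_iff_add_eq]
  apply ex_injective
  have h4 := norm_mul_ex_argT (ξ.1 ω)
  have h5 := norm_mul_ex_argT (ξ.1 (T ω))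
  simp only [Function.const_apply] at h2 h3
  rw [h2] at h4
  rw [h3] at h5
  have hc1 : (c : ℂ) ≠ 0 := by exact_mod_cast hc0
  apply mul_left_cancel₀ hc1
  rw [h4, h1, ex_add, mul_left_comm, h5]

end

theorem const_of_product {X Y : Type} [MeasurableSpace X] [MeasurableSpace Y]
    {μ : Measure X} {ν : Measure Y} [IsProbabilityMeasure μ] [IsProbabilityMeasure ν]
    {S : X → X} {T : Y → Y} (hS : MeasurePreserving S μ μ) (hT : MeasurePreserving T ν ν)
    (herg : Ergodic (Prod.map (Prod.map S T) (Prod.map S T)) ((μ.prod ν).prod (μ.prod ν)))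
    {c : X → UnitAddCircle} {d : Y → UnitAddCircle}
    {B : X × Y → UnitAddCircle} (hB : Measurable B)
    (h : ∀ᵐ p ∂(μ.prod ν), c p.1 - d p.2 = B p - B (Prod.map S T p)) :
    ∃ (κ : UnitAddCircle) (b : X → UnitAddCircle), Measurable b ∧
      ∀ᵐ x ∂μ, c x = κ + b (S x) - b x := by
  have hex : MeasurePreserving
      (fun q : (X × Y) × (X × Y) => ((q.1.1, q.2.2), (q.2.1, q.1.2)))
      ((μ.prod ν).prod (μ.prod ν)) ((μ.prod ν).prod (μ.prod ν)) := by
    have s1 := measurePreserving_prodAssoc μ ν (μ.prod ν)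
    have s2 := (MeasurePreserving.id μ).prod (Measure.measurePreserving_swap (μ := ν) (ν := μ.prod ν))
    have s3 := (MeasurePreserving.id μ).prod
      ((Measure.measurePreserving_swap (μ := μ) (ν := ν)).prod (MeasurePreserving.id ν))
    have s4 := (MeasurePreserving.id μ).prod (measurePreserving_prodAssoc ν μ ν)
    have s5 := (measurePreserving_prodAssoc μ ν (μ.prod ν)).symm
    exact s5.comp (s4.comp (s3.comp (s2.comp s1)))
  let F : (X × Y) × (X × Y) → UnitAddCircle := fun q =>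
    B q.1 + B q.2 - B (q.1.1, q.2.2) - B (q.2.1, q.1.2)
  have hF : Measurable F := by
    simp only [F]
    fun_prop
  have f1 : MeasurePreserving (Prod.fst : (X × Y) × (X × Y) → X × Y) _ (μ.prod ν) :=
    measurePreserving_fst (ν := μ.prod ν)
  have f2 : MeasurePreserving (Prod.snd : (X × Y) × (X × Y) → X × Y) _ (μ.prod ν) :=
    measurePreserving_snd (μ := μ.prod ν)
  obtain ⟨κ, hκ⟩ := herg.ae_eq_const_of_ae_eq_comp_ae (g := F) hF.aestronglyMeasurable (by
    filter_upwards [f1.quasiMeasurePreserving.ae h, f2.quasiMeasurePreserving.ae h,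
      (f1.comp hex).quasiMeasurePreserving.ae h, (f2.comp hex).quasiMeasurePreserving.ae h]
      with q h1 h2 h3 h4
    simp only [Function.comp_apply, Prod.map] at h1 h2 h3 h4
    simp only [Function.comp_apply, F, Prod.map]
    rw [← sub_eq_zero]
    have e1 := eq_sub_iff_add_eq.1 h1
    have e2 := eq_sub_iff_add_eq.1 h2
    have e3 := eq_sub_iff_add_eq.1 h3
    have e4 := eq_sub_iff_add_eq.1 h4
    rw [← e1, ← e2, ← e3, ← e4]
    abel)
  have hκ' : ∀ᵐ q ∂((μ.prod ν).prod (μ.prod ν)), F q.swap = κ :=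
    Measure.measurePreserving_swap.quasiMeasurePreserving.ae hκ
  obtain ⟨p₀, hp₀⟩ := (Measure.ae_ae_of_ae_prod hκ').exists
  have hST : MeasurePreserving (Prod.map S T) (μ.prod ν) (μ.prod ν) := hS.prod hT
  have h5 : ∀ᵐ p ∂(μ.prod ν), c p.1 + B (S p.1, p₀.2) - B (p.1, p₀.2) =
      d p.2 + B (p₀.1, p.2) - B (p₀.1, T p.2) := by
    filter_upwards [h, hp₀, hST.quasiMeasurePreserving.ae hp₀] with p h1 h2 h3
    simp only [F, Prod.swap, Prod.map] at h1 h2 h3
    have e1 : B p = κ - B p₀ + B (p.1, p₀.2) + B (p₀.1, p.2) := by rw [← h2]; abel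
    have e2 : B (S p.1, T p.2) = κ - B p₀ + B (S p.1, p₀.2) + B (p₀.1, T p.2) := by
      rw [← h3]; abel
    rw [e1, e2, sub_eq_iff_eq_add] at h1
    rw [h1]
    abel
  have h6 : ∀ᵐ q ∂(ν.prod μ), c q.swap.1 + B (S q.swap.1, p₀.2) - B (q.swap.1, p₀.2) =
      d q.swap.2 + B (p₀.1, q.swap.2) - B (p₀.1, T q.swap.2) :=
    Measure.measurePreserving_swap.quasiMeasurePreserving.ae h5
  obtain ⟨y₀, hy₀⟩ := (Measure.ae_ae_of_ae_prod h6).exists
  refine ⟨d y₀ + B (p₀.1, y₀) - B (p₀.1, T y₀), fun x => -B (x, p₀.2), by fun_prop, ?_⟩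
  filter_upwards [hy₀] with x hx
  simp only [Prod.swap] at hx
  rw [← hx]
  abel

end Pool.Agent.Lib.MP_e62806_an
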