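import Pool.Agent.Lib.MP_e62806_an.Bern

/-!
Convolution of real functions on a group with elements of the integral group ring, and the
exponential of the additive circle.
-/

open MeasureTheory Filter Topology

noncomputable section

namespace Pool.Agent.Lib.MP_e62806_an

section Conv

variable {G : Type} [Group G]

/-- Left convolution `r * u`. -/
def lconv (r : MonoidAlgebra ℤ G) (u : G → ℝ) (h : G) : ℝ :=
  r.coeff.sum fun k n => (n : ℝ) * u (k⁻¹ * h)

/-- Right convolution `B * r`. -/
def rconv (B : G → ℝ) (r : MonoidAlgebra ℤ G) (h : G) : ℝ :=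
  r.coeff.sum fun k n => B (h * k⁻¹) * (n : ℝ)

@[simp] lemma lconv_zero (u : G → ℝ) (h : G) : lconv 0 u h = 0 := by simp [lconv]

lemma lconv_add (r s : MonoidAlgebra ℤ G) (u : G → ℝ) (h : G) :
    lconv (r + s) u h = lconv r u h + lconv s u h := by
  unfold lconv
  rw [MonoidAlgebra.coeff_add, Finsupp.sum_add_index'] <;> simp [add_mul]

lemma lconv_sub (r s : MonoidAlgebra ℤ G) (u : G → ℝ) (h : G) :
    lconv (r - s) u h = lconv r u h - lconv s u h := by
  have := lconv_add (r - s) s u h
  rw [sub_add_cancel] at this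
  linarith

@[simp] lemma lconv_single (k : G) (n : ℤ) (u : G → ℝ) (h : G) :
    lconv (MonoidAlgebra.single k n) u h = n * u (k⁻¹ * h) := by
  unfold lconv
  rw [MonoidAlgebra.coeff_single, Finsupp.sum_single_index]
  simp

lemma lconv_single_mul (k : G) (n : ℤ) (r : MonoidAlgebra ℤ G) (u : G → ℝ) (h : G) :
    lconv (MonoidAlgebra.single k n * r) u h = n * lconv r u (k⁻¹ * h) := by
  induction r using MonoidAlgebra.induction_linear with
  | zero => simp
  | add a b ha hb => rw [mul_add, lconv_add, lconv_add, ha, hb, mul_add]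
  | single j m => simp [MonoidAlgebra.single_mul_single, mul_assoc]

lemma lconv_mul (r f : MonoidAlgebra ℤ G) (u : G → ℝ) (h : G) :
    lconv (r * f) u h = lconv r (lconv f u) h := by
  induction r using MonoidAlgebra.induction_linear with
  | zero => simp
  | add a b ha hb => rw [add_mul, lconv_add, lconv_add, ha, hb]
  | single j m => rw [lconv_single_mul, lconv_single]

lemma lconv_one (r : MonoidAlgebra ℤ G) (h : G) :
    lconv r (fun k => (((1 : MonoidAlgebra ℤ G).coeff k : ℤ) : ℝ)) h = (r.coeff h : ℤ) := by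
  classical
  induction r using MonoidAlgebra.induction_linear with
  | zero => simp
  | add a b ha hb => rw [lconv_add, ha, hb]; simp
  | single j m =>
    rw [lconv_single, MonoidAlgebra.one_def, MonoidAlgebra.coeff_single,
      MonoidAlgebra.coeff_single, Finsupp.single_apply, Finsupp.single_apply]
    by_cases hj : j = h
    · simp [hj]
    · have : ¬ (1 = j⁻¹ * h) := fun e => hj (by rw [eq_inv_mul_iff_mul_eq, mul_one] at e; exact e)
      simp [hj, this]

lemma rconv_add (A B : G → ℝ) (f : MonoidAlgebra ℤ G) (h : G) :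
    rconv (fun k => A k + B k) f h = rconv A f h + rconv B f h := by
  unfold rconv
  rw [← Finsupp.sum_add]
  congr 1
  funext k n
  ring

lemma rconv_sub (A B : G → ℝ) (f : MonoidAlgebra ℤ G) (h : G) :
    rconv (fun k => A k - B k) f h = rconv A f h - rconv B f h := by
  unfold rconv
  rw [← Finsupp.sum_sub]
  congr 1
  funext k n
  ring

lemma rconv_translate (B : G → ℝ) (g : G) (f : MonoidAlgebra ℤ G) (h : G) :
    rconv (fun k => B (g * k)) f h = rconv B f (g * h) := by
  unfold rconv
  simp only [mul_assoc]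

lemma rconv_lconv (r f : MonoidAlgebra ℤ G) (u : G → ℝ) (h : G) :
    rconv (lconv r u) f h = lconv r (rconv u f) h := by
  induction r using MonoidAlgebra.induction_linear with
  | zero => simp [rconv]
  | add a b ha hb =>
    have : lconv (a + b) u = fun k => lconv a u k + lconv b u k := funext fun k => lconv_add a b u k
    rw [this, rconv_add, lconv_add, ha, hb]
  | single j m =>
    have : lconv (MonoidAlgebra.single j m) u = fun k => m * u (j⁻¹ * k) :=
      funext fun k => lconv_single j m u k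
    rw [this, lconv_single]
    unfold rconv
    rw [Finsupp.mul_sum]
    simp only [mul_assoc]

lemma rconv_coeff (z f : MonoidAlgebra ℤ G) (h : G) :
    rconv (fun k => ((z.coeff k : ℤ) : ℝ)) f h = (((z * f).coeff h : ℤ) : ℝ) := by
  rw [MonoidAlgebra.coeff_mul_apply_right]
  unfold rconv
  simp [Finsupp.sum]

lemma summable_lconv (r : MonoidAlgebra ℤ G) {u : G → ℝ} (hu : Summable u) :
    Summable (lconv r u) := by
  unfold lconv Finsupp.sum
  refine summable_sum fun k _ => Summable.mul_left _ ?_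
  exact (Equiv.mulLeft k⁻¹).summable_iff.2 hu

lemma tendsto_rconv {B : G → ℝ} (hB : Tendsto B cofinite (𝓝 0)) (f : MonoidAlgebra ℤ G) :
    Tendsto (rconv B f) cofinite (𝓝 0) := by
  unfold rconv Finsupp.sum
  have := tendsto_finsetSum f.coeff.support (f := fun k h => B (h * k⁻¹) * (f.coeff k : ℝ))
    (x := cofinite) (a := fun _ => (0 : ℝ)) (fun k _ => by
      have h1 : Tendsto (fun h : G => B (h * k⁻¹)) cofinite (𝓝 0) :=
        hB.comp (mul_left_injective k⁻¹).tendsto_cofinite
      simpa using h1.mul_const (f.coeff k : ℝ))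
  simpa using this

omit [Group G] in
lemma exists_of_int_tendsto {B : G → ℝ} (hB : Tendsto B cofinite (𝓝 0))
    (hi : ∀ h, ((B h : ℝ) : UnitAddCircle) = 0) :
    ∃ z : MonoidAlgebra ℤ G, ∀ h, ((z.coeff h : ℤ) : ℝ) = B h := by
  have hi' : ∀ h, ∃ n : ℤ, (n : ℝ) = B h := fun h => by
    obtain ⟨n, hn⟩ := (AddCircle.coe_eq_zero_iff 1).1 (hi h)
    exact ⟨n, by simpa using hn⟩
  choose n hn using hi'
  have hfin : (Function.support n).Finite := by
    have h1 : ∀ᶠ h in cofinite, |B h| < 1 := by
      have := hB.abs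
      simp only [abs_zero] at this
      exact this.eventually (gt_mem_nhds one_pos)
    refine (Filter.eventually_cofinite.1 h1).subset fun h hh hlt => hh ?_
    rw [← hn h, ← Int.cast_abs] at hlt
    have : |n h| < 1 := by exact_mod_cast hlt
    exact Int.abs_lt_one_iff.1 this
  exact ⟨MonoidAlgebra.ofCoeff (Finsupp.ofSupportFinite n hfin), fun h => hn h⟩

lemma real_inverse {f : MonoidAlgebra ℤ G} (hf : InvertibleL1 f) :
    ∃ u : G → ℝ, Summable u ∧
      (lconv f u = fun k => (((1 : MonoidAlgebra ℤ G).coeff k : ℤ) : ℝ)) ∧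
      (rconv u f = fun k => (((1 : MonoidAlgebra ℤ G).coeff k : ℤ) : ℝ)) := by
  obtain ⟨u, hu, h1, h2⟩ := hf
  refine ⟨fun g => (u g).re, Summable.of_norm_bounded hu fun g => Complex.abs_re_le_norm _, ?_, ?_⟩
  · funext h
    have := h1 h
    rw [tsum_eq_sum (s := f.coeff.support) (fun k hk => by
      rw [Finsupp.notMem_support_iff.1 hk]; simp)] at this
    have := congrArg Complex.re this
    rw [Complex.re_sum] at this
    simpa [lconv, Finsupp.sum] using this
  · funext h
    have := h2 h
    rw [← ((Equiv.inv G).trans (Equiv.mulLeft h)).tsum_eq,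
      tsum_eq_sum (s := f.coeff.support) (fun k hk => by
        simp [Finsupp.notMem_support_iff.1 hk])] at this
    have := congrArg Complex.re this
    rw [Complex.re_sum] at this
    simpa [rconv, Finsupp.sum] using this

end Conv

/-- The exponential `ℝ/ℤ → ℂ`. -/
def ex (x : UnitAddCircle) : ℂ := (AddCircle.toCircle x : ℂ)

lemma continuous_ex : Continuous ex :=
  continuous_subtype_val.comp AddCircle.continuous_toCircle

lemma ex_add (x y : UnitAddCircle) : ex (x + y) = ex x * ex y := by
  simp [ex, AddCircle.toCircle_add]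

@[simp] lemma ex_zero : ex 0 = 1 := by simp [ex]

@[simp] lemma norm_ex (x : UnitAddCircle) : ‖ex x‖ = 1 := by simp [ex]

lemma ex_ne_zero (x : UnitAddCircle) : ex x ≠ 0 := by
  rw [← norm_ne_zero_iff, norm_ex]; exact one_ne_zero

lemma ex_injective : Function.Injective ex := fun _ _ h =>
  AddCircle.injective_toCircle one_ne_zero (Subtype.val_injective h)

lemma ex_neg (x : UnitAddCircle) : ex (-x) = (starRingEnd ℂ) (ex x) := by
  have h1 : ex (-x) * ex x = 1 := by rw [← ex_add]; simp
  have h2 : (starRingEnd ℂ) (ex x) * ex x = 1 := by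
    rw [Complex.conj_mul', norm_ex]; simp
  exact mul_right_cancel₀ (ex_ne_zero x) (h1.trans h2.symm)

lemma norm_ex_sub_ex (x y : UnitAddCircle) : ‖ex x - ex y‖ = ‖ex (x - y) - 1‖ := by
  have : ex x - ex y = (ex (x - y) - 1) * ex y := by
    rw [sub_mul, ← ex_add, sub_add_cancel, one_mul]
  rw [this, norm_mul, norm_ex, mul_one]

lemma norm_ex_neg_sub_one (x : UnitAddCircle) : ‖ex (-x) - 1‖ = ‖ex x - 1‖ := by
  have := norm_ex_sub_ex 0 x
  rw [zero_sub, ex_zero] at this
  rw [← this, norm_sub_rev]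

lemma norm_ex_add_sub_one (x y : UnitAddCircle) : ‖ex (x + y) - 1‖ ≤ ‖ex x - 1‖ + ‖ex y - 1‖ := by
  have h := norm_sub_le_norm_sub_add_norm_sub (ex (x + y)) (ex y) 1
  rw [norm_ex_sub_ex (x + y) y, add_sub_cancel_right] at h
  exact h

lemma BM.ex {Ω : Type} [MeasurableSpace Ω] {b : Ω → UnitAddCircle} (hb : Measurable b) :
    BM (fun ω => ex (b ω)) :=
  ⟨continuous_ex.measurable.comp hb, 1, fun _ => (norm_ex _).le⟩

lemma tendsto_of_tendsto_ex {ι : Type} {l : Filter ι} {b : ι → UnitAddCircle}
    (h : Tendsto (fun i => ex (b i)) l (𝓝 1)) : Tendsto b l (𝓝 0) := by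
  have hi : Topology.IsInducing ex :=
    (continuous_ex.isClosedEmbedding ex_injective).isInducing
  rw [hi.tendsto_nhds_iff, ex_zero]
  exact h

lemma ae_const_of_dsq {Ω : Type} [MeasurableSpace Ω] (μ : Measure Ω) [IsProbabilityMeasure μ]
    {b : Ω → UnitAddCircle} (hb : Measurable b)
    (h : ∀ ε : ℝ, 0 < ε → ∃ z : ℂ, dsq μ (fun ω => ex (b ω)) (fun _ => z) ≤ ε) :
    ∃ β : UnitAddCircle, ∀ᵐ ω ∂μ, b ω = β := by
  have hF := BM.ex hb
  set m : ℂ := ∫ ω, ex (b ω) ∂μ with hm
  have h1 : ∀ ε : ℝ, 0 < ε → dsq μ (fun ω => ex (b ω)) (fun _ => m) ≤ ε := by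
    intro ε hε
    obtain ⟨z, hz⟩ := h (ε / 4) (by positivity)
    have h2 := dsq_triangle μ hF (BM.const z) (BM.const m)
    have h3 : dsq μ (fun _ => z) (fun _ => m) ≤ dsq μ (fun ω => ex (b ω)) (fun _ => z) := by
      have e1 : dsq μ (fun _ => z) (fun _ => m) = ‖∫ ω, (ex (b ω) - z) ∂μ‖ ^ 2 := by
        rw [integral_sub (hF.integrable μ) (integrable_const z)]
        simp [dsq, hm, norm_sub_rev]
      rw [e1]
      have hi : Integrable (fun ω => ‖ex (b ω) - z‖) μ := ((hF.sub (BM.const z)).integrable μ).norm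
      have e2 : ‖∫ ω, (ex (b ω) - z) ∂μ‖ ≤ ∫ ω, ‖ex (b ω) - z‖ ∂μ := norm_integral_le_integral_norm _
      refine (pow_le_pow_left₀ (norm_nonneg _) e2 2).trans ?_
      set a := ∫ ω, ‖ex (b ω) - z‖ ∂μ with ha
      have e3 : 0 ≤ ∫ ω, (‖ex (b ω) - z‖ ^ 2 - 2 * a * ‖ex (b ω) - z‖ + a ^ 2) ∂μ :=
        integral_nonneg fun ω => by
          have := sq_nonneg (‖ex (b ω) - z‖ - a)
          simp only [Pi.zero_apply]
          nlinarith
      have hi2 := (hF.sub (BM.const z)).integrable_sq μ
      have hi3 : Integrable (fun ω => ‖ex (b ω) - z‖ ^ 2 - 2 * a * ‖ex (b ω) - z‖) μ :=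
        hi2.sub (hi.const_mul _)
      rw [integral_add hi3 (integrable_const _),
        integral_sub hi2 (hi.const_mul _), integral_const_mul, ← ha] at e3
      simp only [integral_const, probReal_univ, smul_eq_mul, one_mul] at e3
      unfold dsq
      nlinarith
    linarith
  have h0 : dsq μ (fun ω => ex (b ω)) (fun _ => m) = 0 :=
    le_antisymm (le_of_forall_pos_le_add fun ε hε => by simpa using h1 ε hε) (dsq_nonneg _ _ _)
  unfold dsq at h0
  rw [integral_eq_zero_iff_of_nonneg (fun ω => by positivity)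
    ((hF.sub (BM.const m)).integrable_sq μ)] at h0
  have h4 : ∀ᵐ ω ∂μ, ex (b ω) = m := by
    filter_upwards [h0] with ω hω
    simpa [sub_eq_zero] using hω
  obtain ⟨ω₀, hω₀⟩ := h4.exists
  refine ⟨b ω₀, ?_⟩
  filter_upwards [h4] with ω hω
  exact ex_injective (hω.trans hω₀.symm)

end Pool.Agent.Lib.MP_e62806_an
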