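import Mathlib

/-!
Definitions: circle-valued cocycles of measure-preserving actions, cocycle superrigidity, the class
of groups with superrigid Bernoulli shifts, weak mixing, principal algebraic actions.
The circle is written additively as `ℝ/ℤ`.
-/

open MeasureTheory

noncomputable section

namespace Pool.Agent.Lib.MP_e62806_an

/-- A measurable 1-cocycle `c(g₁ g₂, x) = c(g₁, x) + c(g₂, g₁⁻¹ x)` with values in `ℝ/ℤ`. -/
def IsCocycle {G X : Type} [Group G] [MeasurableSpace X] (act : G → X → X) (μ : Measure X)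
    (c : G → X → UnitAddCircle) : Prop :=
  (∀ g : G, Measurable (c g)) ∧
    ∀ g₁ g₂ : G, ∀ᵐ x ∂μ, c (g₁ * g₂) x = c g₁ x + c g₂ (act g₁⁻¹ x)

/-- Every cocycle is cohomologous to a homomorphism `G → ℝ/ℤ`, that is, the natural map
`H¹(G, 𝕋) → H¹(G ↷ X; 𝕋)` is onto. -/
def Superrigid {G X : Type} [Group G] [MeasurableSpace X] (act : G → X → X) (μ : Measure X) :
    Prop :=
  ∀ c : G → X → UnitAddCircle, IsCocycle act μ c →
    ∃ (χ : G → UnitAddCircle) (b : X → UnitAddCircle),
      (∀ g₁ g₂ : G, χ (g₁ * g₂) = χ g₁ + χ g₂) ∧ Measurable b ∧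
        ∀ g : G, ∀ᵐ x ∂μ, c g x = χ g + b (act g⁻¹ x) - b x

/-- The left shift action of `G` on `X₀ ^ G`. -/
def shift {G X₀ : Type} [Group G] (g : G) (x : G → X₀) : G → X₀ := fun h => x (g⁻¹ * h)

/-- The class `𝒢`: all Bernoulli shifts of `G` are `𝕋`-cocycle superrigid. -/
def InClass (G : Type) [Group G] : Prop :=
  ∀ (X₀ : Type) [MeasurableSpace X₀] [StandardBorelSpace X₀] (μ₀ : Measure X₀)
    [IsProbabilityMeasure μ₀],
    Superrigid (shift : G → (G → X₀) → (G → X₀)) (Measure.infinitePi fun _ : G => μ₀)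

/-- Weak mixing: the diagonal action on `X × X` is ergodic. -/
def WeaklyMixing {G X : Type} [Group G] [MeasurableSpace X] (act : G → X → X) (μ : Measure X) :
    Prop :=
  ∀ A : Set (X × X), MeasurableSet A →
    (∀ g : G, (Prod.map (act g) (act g)) ⁻¹' A =ᵐ[μ.prod μ] A) →
      μ.prod μ A = 0 ∨ μ.prod μ Aᶜ = 0

/-- The left module `ℤG / ℤG f`. -/
abbrev QuotMod {G : Type} [Group G] (f : MonoidAlgebra ℤ G) : Type :=
  MonoidAlgebra ℤ G ⧸ Submodule.span (MonoidAlgebra ℤ G) ({f} : Set (MonoidAlgebra ℤ G))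

/-- The action of `g ∈ G` on `ℤG / ℤG f`. -/
def modAct {G : Type} [Group G] (f : MonoidAlgebra ℤ G) (g : G) (m : QuotMod f) : QuotMod f :=
  (MonoidAlgebra.single g (1 : ℤ) : MonoidAlgebra ℤ G) • m

/-- `H¹(G, ℤG / ℤG f) = 0`: every crossed homomorphism is principal. -/
def H1Vanishes {G : Type} [Group G] (f : MonoidAlgebra ℤ G) : Prop :=
  ∀ c : G → QuotMod f, (∀ g₁ g₂ : G, c (g₁ * g₂) = c g₁ + modAct f g₁ (c g₂)) →
    ∃ m : QuotMod f, ∀ g : G, c g = modAct f g m - m

/-- The Pontryagin dual `X_f` of the discrete group `ℤG / ℤG f`: all additive maps to `ℝ/ℤ`,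
with the topology and the measurable structure of pointwise convergence. -/
def PontDual {G : Type} [Group G] (f : MonoidAlgebra ℤ G) :
    AddSubgroup (QuotMod f → UnitAddCircle) where
  carrier := {x | ∀ a b : QuotMod f, x (a + b) = x a + x b}
  add_mem' := by
    intro x y hx hy a b
    simp only [Pi.add_apply, hx a b, hy a b]
    abel
  zero_mem' := by
    intro a b
    simp
  neg_mem' := by
    intro x hx a b
    simp only [Pi.neg_apply, hx a b]
    abel

/-- The principal algebraic action `(g x)(m) = x (g⁻¹ m)` of `G` on `X_f`. -/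
def dualAct {G : Type} [Group G] (f : MonoidAlgebra ℤ G) (g : G) (x : PontDual f) :
    PontDual f :=
  ⟨fun m => x.1 (modAct f g⁻¹ m), fun a b => by
    simp only [modAct, smul_add]
    exact x.2 _ _⟩

/-- `f` is invertible in the convolution algebra `ℓ¹(G)`: some absolutely summable `u` satisfies
`f * u = u * f = δ₁`. -/
def InvertibleL1 {G : Type} [Group G] (f : MonoidAlgebra ℤ G) : Prop :=
  ∃ u : G → ℂ, Summable (fun g : G => ‖u g‖) ∧
    (∀ h : G, ∑' k : G, ((f.coeff k : ℤ) : ℂ) * u (k⁻¹ * h) =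
      (((1 : MonoidAlgebra ℤ G).coeff h : ℤ) : ℂ)) ∧
    (∀ h : G, ∑' k : G, u k * ((f.coeff (k⁻¹ * h) : ℤ) : ℂ) =
      (((1 : MonoidAlgebra ℤ G).coeff h : ℤ) : ℂ))

end Pool.Agent.Lib.MP_e62806_an
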