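import Pool.Agent.Lib.MP_e62806_an.Defs

/-!
Further definitions: Haar probability measures on `X_f`, measure-preserving and essentially free
actions.
-/

open MeasureTheory

noncomputable section

namespace Pool.Agent.Lib.MP_e62806_an

/-- `ν` is a Haar probability measure on the compact abelian group `X_f`. -/
def IsHaarProb {G : Type} [Group G] (f : MonoidAlgebra ℤ G) (ν : Measure (PontDual f)) : Prop :=
  ν.IsAddHaarMeasure ∧ IsProbabilityMeasure ν

/-- Every group element acts by a measure-preserving map. -/
def Preserves {G X : Type} [MeasurableSpace X] (act : G → X → X) (μ : Measure X) : Prop :=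
  ∀ g : G, MeasurePreserving (act g) μ μ

/-- The action is essentially free: non-identity elements have null fixed-point sets. -/
def EssFree {G X : Type} [Group G] [MeasurableSpace X] (act : G → X → X) (μ : Measure X) : Prop :=
  ∀ g : G, g ≠ 1 → μ {x | act g x = x} = 0

/-- The element `2 (t - 1)` of `ℤG`. -/
def twoTsub {G : Type} [Group G] (t : G) : MonoidAlgebra ℤ G :=
  2 * (MonoidAlgebra.single t 1 - 1)

end Pool.Agent.Lib.MP_e62806_an
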