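import Pool.Agent.Lib.MP_e62806_an.Fourier

/-!
Principal algebraic actions: Haar measure, weak mixing, freeness and the embedding of
`H¹(G, ℤG/ℤGf)` into measurable cohomology.
-/

open MeasureTheory Filter Topology Set
open scoped ENNReal

noncomputable section

namespace Pool.Agent.Lib.MP_e62806_an

lemma exists_char {A : Type} [AddCommGroup A] {a : A} (ha : a ≠ 0) :
    ∃ c : A →+ UnitAddCircle, c a ≠ 0 := by
  obtain ⟨c, hc⟩ := CharacterModule.exists_character_apply_ne_zero_of_ne_zero ha
  let ψ : AddCircle (1 : ℚ) →+ UnitAddCircle :=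
    QuotientAddGroup.map _ _ (Rat.castHom ℝ).toAddMonoidHom (by
      rintro _ ⟨n, rfl⟩
      exact ⟨n, by simp⟩)
  have hψ : ∀ x, ψ x = 0 → x = 0 := by
    intro x hx
    induction x using QuotientAddGroup.induction_on with
    | H q =>
      have h1 : ((q : ℝ) : UnitAddCircle) = 0 := hx
      rw [AddCircle.coe_eq_zero_iff] at h1 ⊢
      obtain ⟨n, hn⟩ := h1
      refine ⟨n, ?_⟩
      rw [zsmul_one] at hn ⊢
      exact_mod_cast hn
  exact ⟨ψ.comp c, fun h => hc (hψ _ h)⟩

variable {G : Type} [Group G] (f : MonoidAlgebra ℤ G)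

lemma modAct_mul (g h : G) (m : QuotMod f) : modAct f (g * h) m = modAct f g (modAct f h m) := by
  simp only [modAct, smul_smul, MonoidAlgebra.single_mul_single, mul_one]

lemma modAct_one (m : QuotMod f) : modAct f 1 m = m := one_smul (MonoidAlgebra ℤ G) m

lemma modAct_add (g : G) (m n : QuotMod f) : modAct f g (m + n) = modAct f g m + modAct f g n :=
  smul_add _ _ _

lemma modAct_sub (g : G) (m n : QuotMod f) : modAct f g (m - n) = modAct f g m - modAct f g n :=
  smul_sub _ _ _

lemma dualAct_apply (g : G) (x : PontDual f) (m : QuotMod f) :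
    (dualAct f g x).1 m = x.1 (modAct f g⁻¹ m) := rfl

lemma isClosed_pontDual : IsClosed (PontDual f : Set (QuotMod f → UnitAddCircle)) := by
  change IsClosed {x : QuotMod f → UnitAddCircle | ∀ a b : QuotMod f, x (a + b) = x a + x b}
  simp only [ofPred_forall]
  exact isClosed_iInter fun a => isClosed_iInter fun b => isClosed_eq (by fun_prop) (by fun_prop)

instance : CompactSpace (PontDual f) :=
  isCompact_iff_compactSpace.1 (isClosed_pontDual f).isCompact

instance [Countable G] : Countable (MonoidAlgebra ℤ G) := MonoidAlgebra.coeff_injective.countable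

instance [Countable G] : Countable (QuotMod f) :=
  (Submodule.Quotient.mk_surjective _).countable

lemma continuous_dualAct (g : G) : Continuous (dualAct f g) :=
  continuous_induced_rng.2 (continuous_pi fun m =>
    (continuous_apply (modAct f g⁻¹ m)).comp continuous_subtype_val)

instance [Countable G] : SecondCountableTopology (PontDual f) :=
  TopologicalSpace.Subtype.secondCountableTopology (PontDual f : Set (QuotMod f → UnitAddCircle))

/-- The duality between `ℤG/ℤGf` and `X_f`. -/
def pairing : Pairing (QuotMod f) (PontDual f) where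
  p m x := x.1 m
  add_left i j y := y.2 i j
  add_right _ _ _ := rfl
  cont i := (continuous_apply i).comp continuous_subtype_val
  sepI i hi := by
    obtain ⟨c, hc⟩ := exists_char hi
    exact ⟨⟨c, c.map_add⟩, hc⟩
  sepY y z h := by
    by_contra! h'
    exact h (Subtype.ext (funext h'))

/-- The duality for the product. -/
def pairing₂ : Pairing (QuotMod f × QuotMod f) (PontDual f × PontDual f) where
  p m x := x.1.1 m.1 + x.2.1 m.2
  add_left i j y := by
    rw [Prod.fst_add, Prod.snd_add, y.1.2, y.2.2]
    abel
  add_right i y z := by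
    change y.1.1 i.1 + z.1.1 i.1 + (y.2.1 i.2 + z.2.1 i.2) = _
    abel
  cont i := ((pairing f).cont i.1 |>.comp continuous_fst).add
    ((pairing f).cont i.2 |>.comp continuous_snd)
  sepI i hi := by
    by_cases h : i.1 = 0
    · obtain ⟨y, hy⟩ := (pairing f).sepI i.2 fun h' => hi (Prod.ext h h')
      exact ⟨(0, y), by simpa [pairing] using hy⟩
    · obtain ⟨y, hy⟩ := (pairing f).sepI i.1 h
      exact ⟨(y, 0), by simpa [pairing] using hy⟩
  sepY y z h := by
    have h0 : ∀ x : PontDual f, x.1 0 = 0 := (pairing f).zero_left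
    by_cases h1 : y.1 = z.1
    · obtain ⟨i, hi⟩ := (pairing f).sepY y.2 z.2 fun h' => h (Prod.ext h1 h')
      exact ⟨(0, i), by simpa [h0, pairing] using hi⟩
    · obtain ⟨i, hi⟩ := (pairing f).sepY y.1 z.1 h1
      exact ⟨(i, 0), by simpa [h0, pairing] using hi⟩

variable [Countable G]

theorem exists_haar :
    ∃ ν : Measure (PontDual f), ν.IsAddHaarMeasure ∧ IsProbabilityMeasure ν :=
  ⟨Measure.addHaarMeasure ⊤, inferInstance, ⟨Measure.addHaarMeasure_self⟩⟩

variable (ν : Measure (PontDual f)) [ν.IsAddHaarMeasure] [IsProbabilityMeasure ν]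

omit [IsProbabilityMeasure ν] in
theorem mp_dualAct (g : G) : MeasurePreserving (dualAct f g) ν ν := by
  let T : PontDual f →+ PontDual f := AddMonoidHom.mk' (dualAct f g) fun _ _ => rfl
  refine AddMonoidHom.measurePreserving (f := T) (continuous_dualAct f g) (fun x => ?_) rfl
  refine ⟨dualAct f g⁻¹ x, Subtype.ext (funext fun m => ?_)⟩
  change x.1 (modAct f g⁻¹⁻¹ (modAct f g⁻¹ m)) = x.1 m
  rw [← modAct_mul, inv_inv, mul_inv_cancel, modAct_one]

lemma BM.indicator {Ω : Type} [MeasurableSpace Ω] {A : Set Ω} (hA : MeasurableSet A) :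
    BM (A.indicator fun _ => (1 : ℂ)) :=
  ⟨measurable_const.indicator hA, 1, fun ω => by by_cases h : ω ∈ A <;> simp [h]⟩

theorem weaklyMixing (horb : ∀ m : QuotMod f, m ≠ 0 → (range fun g => modAct f g m).Infinite) :
    WeaklyMixing (dualAct f) ν := by
  intro A hA hinv
  have : MeasurableAdd (PontDual f) := ContinuousAdd.measurableAdd
  have : (ν.prod ν).IsAddLeftInvariant := Measure.prod.instIsAddLeftInvariant
  let F : PontDual f × PontDual f → ℂ := fun w =>
    A.indicator (fun _ => (1 : ℂ)) w - ((ν.prod ν).real A : ℂ)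
  have hF : BM F := (BM.indicator hA).sub (BM.const _)
  have hcoef : ∀ (g : G) (i : QuotMod f × QuotMod f),
      (pairing₂ f).coef (ν.prod ν) F (modAct f g i.1, modAct f g i.2) =
        (pairing₂ f).coef (ν.prod ν) F i := by
    intro g i
    have hT := (mp_dualAct f ν g).prod (mp_dualAct f ν g)
    unfold Pairing.coef
    rw [← integral_comp_mp hT
      (ξ := fun y => ex (-(pairing₂ f).p (modAct f g i.1, modAct f g i.2) y) * F y)
      ((BM.ex ((pairing₂ f).cont _).measurable.neg).mul hF).meas]
    refine integral_congr_ae ?_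
    filter_upwards [(hinv g).mem_iff] with w hw
    have e1 : F (Prod.map (dualAct f g) (dualAct f g) w) = F w := by
      by_cases h : w ∈ A
      · simp only [F, indicator_of_mem h, indicator_of_mem (mem_preimage.1 (hw.2 h))]
      · simp only [F, indicator_of_notMem h,
          indicator_of_notMem (fun h' => h (hw.1 (mem_preimage.2 h')))]
    have e2 : ∀ m, modAct f g⁻¹ (modAct f g m) = m := fun m => by
      rw [← modAct_mul, inv_mul_cancel, modAct_one]
    rw [e1]
    simp only [pairing₂, Prod.map_fst, Prod.map_snd, dualAct_apply, e2]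
  have h0 := (pairing₂ f).ae_zero_of_coef (ν.prod ν) hF fun i => by
    by_cases hi : i = 0
    · subst hi
      simp only [Pairing.coef, Pairing.zero_left, neg_zero, ex_zero, one_mul, F]
      rw [integral_sub ((BM.indicator hA).integrable _) (integrable_const _),
        integral_indicator_const _ hA]
      simp
    · refine (pairing₂ f).coef_eq_zero (ν.prod ν) hF
        (S := range fun g => (modAct f g i.1, modAct f g i.2)) ?_ ?_
      · by_cases h : i.1 = 0
        · refine Infinite.of_image Prod.snd ?_
          rw [← range_comp]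
          exact horb i.2 fun h' => hi (Prod.ext h h')
        · refine Infinite.of_image Prod.fst ?_
          rw [← range_comp]
          exact horb i.1 h
      · rintro _ ⟨g, rfl⟩
        rw [hcoef]
  by_cases hz : (ν.prod ν) A = 0
  · exact Or.inl hz
  · refine Or.inr (measure_eq_zero_iff_ae_notMem.2 ?_)
    filter_upwards [h0] with w hw h
    simp only [F, indicator_of_notMem h, zero_sub, neg_eq_zero, Complex.ofReal_eq_zero] at hw
    exact hz ((measureReal_eq_zero_iff (measure_ne_top _ _)).1 hw)

theorem free_of_infinite {g : G} (hg : (range fun m => modAct f g⁻¹ m - m).Infinite) :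
    ν {x | dualAct f g x = x} = 0 := by
  have hH : MeasurableSet {x | dualAct f g x = x} :=
    (isClosed_eq (continuous_dualAct f g) continuous_id).measurableSet
  have hc : ∀ m, (pairing f).coef ν ({x | dualAct f g x = x}.indicator fun _ => (1 : ℂ))
      (modAct f g⁻¹ m - m) = ν.real {x | dualAct f g x = x} := by
    intro m
    have : (ν.real {x | dualAct f g x = x} : ℂ) =
        ∫ x, {x | dualAct f g x = x}.indicator (fun _ => (1 : ℂ)) x ∂ν := by
      rw [integral_indicator_const _ hH]
      simp
    rw [this, Pairing.coef]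
    congr 1
    funext x
    by_cases h : x ∈ {x | dualAct f g x = x}
    · have e : (pairing f).p (modAct f g⁻¹ m - m) x = 0 := by
        rw [sub_eq_add_neg, Pairing.add_left, Pairing.neg_left, add_neg_eq_zero]
        exact congrFun (congrArg Subtype.val h) m
      rw [e, neg_zero, ex_zero, one_mul]
    · rw [indicator_of_notMem h, mul_zero]
  have h1 := (pairing f).coef_eq_zero ν (BM.indicator hH) (i := modAct f g⁻¹ 0 - 0) hg (by
    rintro _ ⟨m, rfl⟩
    rw [hc, hc])
  rw [hc, Complex.ofReal_eq_zero] at h1
  exact (measureReal_eq_zero_iff (measure_ne_top _ _)).1 h1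

theorem h1Vanishes_of_superrigid
    (horb : ∀ m : QuotMod f, m ≠ 0 → (range fun g => modAct f g m).Infinite)
    (hS : Superrigid (dualAct f) ν) : H1Vanishes f := by
  intro c hc
  obtain ⟨χ, b, -, hb, h⟩ := hS (fun g x => x.1 (c g))
    ⟨fun g => ((pairing f).cont (c g)).measurable, fun g₁ g₂ => ae_of_all _ fun x => by
      simp only [dualAct_apply, inv_inv]
      rw [hc, x.2]⟩
  have hF : BM fun x => ex (b x) := BM.ex hb
  have hcoef : ∀ g m, ‖(pairing f).coef ν (fun x => ex (b x)) (modAct f g m - c g)‖ =
      ‖(pairing f).coef ν (fun x => ex (b x)) m‖ := by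
    intro g m
    have h1 : (pairing f).coef ν (fun x => ex (b x)) m =
        ex (-χ g) * (pairing f).coef ν (fun x => ex (b x)) (modAct f g m - c g) := by
      unfold Pairing.coef
      rw [← integral_comp_mp (mp_dualAct f ν g⁻¹) (ξ := fun y => ex (-(pairing f).p m y) * ex (b y))
        ((BM.ex ((pairing f).cont _).measurable.neg).mul hF).meas, ← integral_const_mul]
      refine integral_congr_ae ?_
      filter_upwards [h g] with x hx
      rw [← ex_add, ← ex_add, ← ex_add, sub_eq_add_neg, Pairing.add_left, Pairing.neg_left]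
      congr 1
      simp only [pairing, dualAct_apply, inv_inv, hx]
      abel
    rw [h1, norm_mul, norm_ex, one_mul]
  obtain ⟨m₀, hm₀⟩ : ∃ m, (pairing f).coef ν (fun x => ex (b x)) m ≠ 0 := by
    by_contra! h0
    obtain ⟨x, hx⟩ := ((pairing f).ae_zero_of_coef ν hF h0).exists
    exact ex_ne_zero _ hx
  have hfin := (pairing f).finite_coef ν hF (norm_pos_iff.2 hm₀)
  refine ⟨m₀, fun g => ?_⟩
  have h2 : modAct f g m₀ - c g - m₀ = 0 := by
    by_contra hne
    refine horb _ hne ((hfin.image2 (· - ·) hfin).subset ?_)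
    rintro _ ⟨k, rfl⟩
    refine ⟨modAct f k (modAct f g m₀ - c g) - c k, ?_, modAct f k m₀ - c k, ?_, ?_⟩
    · exact ((hcoef k _).trans (hcoef g m₀)).ge
    · exact (hcoef k m₀).ge
    · simp only [modAct_sub f k _ m₀]
      abel
  rw [sub_sub, sub_eq_zero] at h2
  rw [h2, add_sub_cancel_right]

end Pool.Agent.Lib.MP_e62806_an
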