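import Pool.Agent.Lib.MP_e62806_an.Resample
import Pool.Agent.Lib.MP_e62806_an.Cobound

/-!
Circle-valued cocycle superrigidity for Bernoulli shifts of groups containing a free group of
rank two and a central element of infinite order (a case of Popa's spectral gap theorem).
-/

open MeasureTheory Filter Topology
open scoped ENNReal

noncomputable section

namespace Pool.Agent.Lib.MP_e62806_an

lemma mp_ite {W : Type} [MeasurableSpace W] {ρ : Measure W} {s : W → W}
    (hs : MeasurePreserving s ρ ρ) {E : Set W} [DecidablePred (· ∈ E)] (hE : MeasurableSet E)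
    (hsE : s ⁻¹' E = E) : MeasurePreserving (fun w => if w ∈ E then s w else w) ρ ρ := by
  have hm : Measurable (fun w => if w ∈ E then s w else w) :=
    Measurable.ite hE hs.measurable measurable_id
  refine ⟨hm, ?_⟩
  ext A hA
  rw [Measure.map_apply hm hA, ← measure_inter_add_sdiff _ hE, ← measure_inter_add_sdiff A hE,
    ← hs.measure_preimage (hA.inter hE).nullMeasurableSet, Set.preimage_inter, hsE]
  congr 2
  · ext w
    by_cases h : w ∈ E <;> simp [h]
  · ext w
    by_cases h : w ∈ E <;> simp [h]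

section Swap

variable {ι X L : Type} [MeasurableSpace X] [MeasurableSpace L] [DecidableEq L]

/-- First copy. -/
def fstC (ω : ι → (X × L) × X) : ι → X := fun g => (ω g).1.1

/-- Swap the two copies at the sites whose label lies in `S`. -/
def swp (S : Finset L) (ω : ι → (X × L) × X) : ι → (X × L) × X :=
  fun g => if (ω g).1.2 ∈ S then (((ω g).2, (ω g).1.2), (ω g).1.1) else ω g

omit [MeasurableSpace X] [MeasurableSpace L] in
lemma swp_swp (S : Finset L) (ω : ι → (X × L) × X) : swp S (swp S ω) = ω := by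
  funext g
  by_cases h : (ω g).1.2 ∈ S <;> simp [swp, h]

variable (μ : Measure X) (lam : Measure L) [IsProbabilityMeasure μ] [IsProbabilityMeasure lam]

omit [DecidableEq L] in
lemma mp_fstC : MeasurePreserving (fstC : (ι → (X × L) × X) → (ι → X))
    (bern ι ((μ.prod lam).prod μ)) (bern ι μ) :=
  mp_coord _ μ (f := fun _ (w : (X × L) × X) => w.1.1)
    fun _ => measurePreserving_fst.comp measurePreserving_fst

lemma mp_swp [MeasurableSingletonClass L] (S : Finset L) :
    MeasurePreserving (swp S : (ι → (X × L) × X) → _)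
      (bern ι ((μ.prod lam).prod μ)) (bern ι ((μ.prod lam).prod μ)) := by
  have h1 : MeasurePreserving (fun w : (X × L) × X => ((w.2, w.1.2), w.1.1))
      ((μ.prod lam).prod μ) ((μ.prod lam).prod μ) :=
    (Measure.measurePreserving_swap.prod (MeasurePreserving.id μ)).comp ((mp_exchange lam μ).comp
      (Measure.measurePreserving_swap.prod (MeasurePreserving.id μ)))
  have hE : MeasurableSet {w : (X × L) × X | w.1.2 ∈ S} :=
    (measurable_snd.comp measurable_fst) S.measurableSet
  exact mp_coord _ _ (f := fun _ w => if w ∈ {w : (X × L) × X | w.1.2 ∈ S} then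
    ((w.2, w.1.2), w.1.1) else w) fun _ => mp_ite h1 hE rfl

lemma dsq_swp_le [DecidableEq ι] [MeasurableSingletonClass L] (S : Finset L) {F : (ι → X) → ℂ}
    (hF : BM F) :
    dsq (bern ι ((μ.prod lam).prod μ)) (fun ω => F (fstC ω)) (fun ω => F (fstC (swp S ω))) ≤
      4 * dsq (bern ι ((μ.prod lam).prod μ)) (fun ω => F (fstC (swp S ω)))
        (resFun μ ∅ fun ω => F (fstC (swp S ω))) := by
  have hU : BM (fun ω : ι → (X × L) × X => F (fstC ω)) := hF.comp (mp_fstC μ lam).measurable
  have hV : BM (fun ω : ι → (X × L) × X => F (fstC (swp S ω))) :=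
    hU.comp (mp_swp μ lam S).measurable
  have hW := BM.resFun μ ∅ hV
  have h1 := dsq_triangle (bern ι ((μ.prod lam).prod μ)) hU hW hV
  have h2 := dsq_comp (mp_swp (ι := ι) μ lam S) hV.meas hW.meas
  have e : ∀ ω : ι → (X × L) × X, resFun μ ∅ (fun ω => F (fstC (swp S ω))) (swp S ω) =
      resFun μ ∅ (fun ω => F (fstC (swp S ω))) ω := by
    intro ω
    have e' : ∀ z : ι → X, fstC (swp S (mix ∅ (swp S ω, z))) = fstC (swp S (mix ∅ (ω, z))) := by
      intro z
      funext g
      by_cases h : (ω g).1.2 ∈ S <;> simp [fstC, swp, mix, h]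
    simp only [resFun, e']
  simp only [swp_swp, e] at h2
  rw [h2, dsq_comm _ (resFun μ ∅ _)] at h1
  linarith

end Swap

lemma exists_small_swap {ι X : Type} [MeasurableSpace X] (μ : Measure X) [IsProbabilityMeasure μ]
    {F : (ι → X) → ℂ} (hF : BM F) {ε : ℝ} (hε : 0 < ε) :
    ∃ δ : ℝ, 0 < δ ∧ ∀ (L : Type) [MeasurableSpace L] [DecidableEq L] [MeasurableSingletonClass L]
      (lam : Measure L) [IsProbabilityMeasure lam] (S : Finset L), lam.real S ≤ δ →
      dsq (bern ι ((μ.prod lam).prod μ)) (fun ω => F (fstC ω)) (fun ω => F (fstC (swp S ω))) ≤ ε := by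
  obtain ⟨A, η, hη, hA, hd⟩ := exists_cyl_approx μ hF (ε := ε / 12) (by positivity)
  obtain ⟨M, hM⟩ := hη.bdd
  refine ⟨ε / (8 * (4 * M ^ 2 * A.card + 1)), by positivity, fun L _ _ _ lam _ S hS => ?_⟩
  set ν := bern ι ((μ.prod lam).prod μ) with hν
  have m1 := mp_fstC (ι := ι) μ lam
  have m2 := m1.comp (mp_swp μ lam S)
  have h1 := dsq_triangle ν (hF.comp m1.measurable) (hη.comp m1.measurable) (hF.comp m2.measurable)
  have h2 := dsq_triangle ν (hη.comp m1.measurable) (hη.comp m2.measurable) (hF.comp m2.measurable)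
  rw [dsq_comp m1 hF.meas hη.meas] at h1
  rw [dsq_comp m2 hη.meas hF.meas, dsq_comm _ η F] at h2
  have hE : ∀ g, MeasurableSet {ω : ι → (X × L) × X | (ω g).1.2 ∈ S} := fun g =>
    (measurable_snd.comp (measurable_fst.comp (measurable_pi_apply g))) S.measurableSet
  have h3 : dsq ν (fun ω => η (fstC ω)) (fun ω => η ((fstC ∘ swp S) ω)) ≤
      ∫ ω, ∑ g ∈ A, {ω : ι → (X × L) × X | (ω g).1.2 ∈ S}.indicator (fun _ => 4 * M ^ 2) ω ∂ν := by
    refine integral_mono (((hη.comp m1.measurable).sub (hη.comp m2.measurable)).integrable_sq ν)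
      (integrable_finsetSum _ fun g _ => (integrable_const _).indicator (hE g)) fun ω => ?_
    have hnn : ∀ g ∈ A, (0 : ℝ) ≤
        {ω : ι → (X × L) × X | (ω g).1.2 ∈ S}.indicator (fun _ => 4 * M ^ 2) ω := fun g _ =>
      Set.indicator_nonneg (fun _ _ => by positivity) _
    by_cases h : ∃ g ∈ A, (ω g).1.2 ∈ S
    · obtain ⟨g, hg, hgS⟩ := h
      refine le_trans ?_ (Finset.single_le_sum hnn hg)
      rw [Set.indicator_of_mem (by exact hgS)]
      have h4 : ‖η (fstC ω) - η ((fstC ∘ swp S) ω)‖ ≤ 2 * M :=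
        (norm_sub_le _ _).trans (by linarith [hM (fstC ω), hM ((fstC ∘ swp S) ω)])
      calc ‖η (fstC ω) - η ((fstC ∘ swp S) ω)‖ ^ 2 ≤ (2 * M) ^ 2 :=
            pow_le_pow_left₀ (norm_nonneg _) h4 2
        _ = 4 * M ^ 2 := by ring
    · have h4 : η (fstC ω) = η ((fstC ∘ swp S) ω) := hA fun g hg => by
        have : (ω g).1.2 ∉ S := fun hs => h ⟨g, hg, hs⟩
        simp [fstC, swp, this]
      simp only [h4, sub_self, norm_zero]
      simpa using Finset.sum_nonneg hnn
  rw [integral_finsetSum _ fun g _ => (integrable_const _).indicator (hE g)] at h3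
  have h5 : ∀ g, ∫ ω, {ω : ι → (X × L) × X | (ω g).1.2 ∈ S}.indicator (fun _ => 4 * M ^ 2) ω ∂ν =
      lam.real S * (4 * M ^ 2) := by
    intro g
    rw [integral_indicator_const _ (hE g), smul_eq_mul]
    congr 1
    have m3 : MeasurePreserving (fun ω : ι → (X × L) × X => (ω g).1.2) ν lam :=
      measurePreserving_snd.comp (measurePreserving_fst.comp
        (measurePreserving_eval_infinitePi (fun _ : ι => (μ.prod lam).prod μ) g))
    exact m3.measureReal_preimage S.measurableSet.nullMeasurableSet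
  simp only [h5, Finset.sum_const, nsmul_eq_mul] at h3
  have h6 : (A.card : ℝ) * (lam.real S * (4 * M ^ 2)) ≤ ε / 8 := by
    have hK : 0 ≤ 4 * M ^ 2 * (A.card : ℝ) := by positivity
    rw [le_div_iff₀ (by positivity)] at hS
    have : 0 ≤ lam.real S := measureReal_nonneg
    nlinarith
  simp only [Function.comp_apply] at h1 h2 h3
  linarith

section Main

variable {G X : Type} [Group G] [MeasurableSpace X] (μ : Measure X) [IsProbabilityMeasure μ]

lemma uniform_close [DecidableEq G] (φ : FreeGroup (Fin 2) →* G) (hφ : Function.Injective φ)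
    {c : G → (G → X) → UnitAddCircle} (hc : IsCocycle shift (bern G μ) c)
    {L : Type} [MeasurableSpace L] [DecidableEq L] [MeasurableSingletonClass L]
    (lam : Measure L) [IsProbabilityMeasure lam] (S : Finset L) {δ : ℝ}
    (hδ : ∀ i, dsq (bern G ((μ.prod lam).prod μ)) (fun ω => ex (c (φ (FreeGroup.of i)) (fstC ω)))
      (fun ω => ex (c (φ (FreeGroup.of i)) (fstC (swp S ω)))) ≤ δ)
    {k : G} (hk : ∀ g, k * g = g * k) :
    dsq (bern G ((μ.prod lam).prod μ)) (fun ω => ex (c k (fstC ω)))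
      (fun ω => ex (c k (fstC (swp S ω)))) ≤ 768 * δ := by
  set ν := bern G ((μ.prod lam).prod μ) with hν
  have m1 := mp_fstC (ι := G) μ lam
  have m2 := m1.comp (mp_swp μ lam S)
  have h1 := dsq_swp_le μ lam S (BM.ex (hc.1 k))
  let a : Fin 2 → (G → (X × L) × X) → UnitAddCircle := fun i ω =>
    c (φ (FreeGroup.of i)) (fstC ω) - c (φ (FreeGroup.of i)) (shift k⁻¹ (fstC ω))
  have ha : ∀ i, Measurable (a i) := fun i =>
    ((hc.1 _).comp m1.measurable).sub
      ((hc.1 _).comp ((mp_shift μ k⁻¹).measurable.comp m1.measurable))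
  have hV : BM (fun ω : G → (X × L) × X => ex (c k (fstC (swp S ω)))) :=
    BM.ex ((hc.1 k).comp m2.measurable)
  have h2 := gap_bern φ hφ (μ.prod lam) μ a ha (fun i ω ω' h => by
    have : fstC ω = fstC ω' := funext fun g => congrArg Prod.fst (h g)
    simp only [a, this]) hV
  have h3 : ∀ i, dsq ν (fun ω => ex (c k (fstC (swp S ω))))
      (fun ω => ex (a i ω) * ex (c k (fstC (swp S (shift (φ (FreeGroup.of i))⁻¹ ω))))) ≤ 4 * δ := by
    intro i
    set h := φ (FreeGroup.of i) with hh
    have hZ : BM (fun ω : G → (X × L) × X =>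
        ex (c k (fstC (swp S ω)) + c h (fstC ω) - c h (fstC (swp S ω)))) :=
      BM.ex ((((hc.1 k).comp m2.measurable).add ((hc.1 h).comp m1.measurable)).sub
        ((hc.1 h).comp m2.measurable))
    have h4 := dsq_triangle ν hV hZ ((BM.ex (ha i)).mul
      (hV.comp (mp_shift ((μ.prod lam).prod μ) h⁻¹).measurable))
    have h5 : dsq ν (fun ω => ex (c k (fstC (swp S ω))))
        (fun ω => ex (c k (fstC (swp S ω)) + c h (fstC ω) - c h (fstC (swp S ω)))) ≤ δ := by
      refine le_of_eq_of_le ?_ (hδ i)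
      rw [dsq_comm _ (fun ω => ex (c h (fstC ω)))]
      unfold dsq
      congr 1
      funext ω
      rw [norm_ex_sub_ex, norm_ex_sub_ex (c h (fstC (swp S ω)))]
      congr 4
      abel
    have h6 : dsq ν (fun ω => ex (c k (fstC (swp S ω)) + c h (fstC ω) - c h (fstC (swp S ω))))
        (fun ω => ex (a i ω) * ex (c k (fstC (swp S (shift h⁻¹ ω))))) ≤ δ := by
      refine le_of_eq_of_le ?_ (hδ i)
      refine Eq.trans ?_ (dsq_comp (mp_shift ((μ.prod lam).prod μ) k⁻¹)
        (ξ := fun ω => ex (c h (fstC ω))) (η := fun ω => ex (c h (fstC (swp S ω))))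
        (BM.ex ((hc.1 h).comp m1.measurable)).meas (BM.ex ((hc.1 h).comp m2.measurable)).meas)
      unfold dsq
      refine integral_congr_ae ?_
      filter_upwards [m2.quasiMeasurePreserving.ae (hc.2 h k),
        m2.quasiMeasurePreserving.ae (hc.2 k h)] with ω e1 e2
      rw [hk h, e1] at e2
      simp only [Function.comp_apply] at e1 e2 ⊢
      have e3 : fstC (swp S (shift h⁻¹ ω)) = shift h⁻¹ (fstC (swp S ω)) := rfl
      have e4 : fstC (swp S (shift k⁻¹ ω)) = shift k⁻¹ (fstC (swp S ω)) := rfl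
      have e5 : fstC (shift k⁻¹ ω) = shift k⁻¹ (fstC ω) := rfl
      rw [← ex_add, norm_ex_sub_ex, norm_ex_sub_ex (c h (fstC (shift k⁻¹ ω))), e3, e4, e5,
        eq_sub_of_add_eq' e2]
      congr 4
      simp only [a, ← hh]
      abel
    linarith
  have := h3 0
  have := h3 1
  linarith

theorem superrigid_bern (φ : FreeGroup (Fin 2) →* G) (hφ : Function.Injective φ) {t : G}
    (ht : ∀ g, t * g = g * t) (ht' : ∀ n : ℕ, t ^ n = 1 → n = 0) :
    Superrigid (shift : G → (G → X) → (G → X)) (bern G μ) := by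
  classical
  intro c hc
  obtain ⟨δ₀, hδ₀, H₀⟩ := exists_small_swap μ (BM.ex (hc.1 (φ (FreeGroup.of 0))))
    (ε := 1 / 4000) (by norm_num)
  obtain ⟨δ₁, hδ₁, H₁⟩ := exists_small_swap μ (BM.ex (hc.1 (φ (FreeGroup.of 1))))
    (ε := 1 / 4000) (by norm_num)
  obtain ⟨n, hn⟩ := exists_nat_one_div_lt (lt_min hδ₀ hδ₁)
  let lam : Measure (Fin (n + 1)) := (PMF.uniformOfFintype (Fin (n + 1))).toMeasure
  have hlam : ∀ j : Fin (n + 1), lam.real (({j} : Finset (Fin (n + 1))) : Set (Fin (n + 1))) =
      1 / ((n : ℝ) + 1) := by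
    intro j
    rw [Finset.coe_singleton, measureReal_def,
      PMF.toMeasure_apply_singleton _ _ (measurableSet_singleton j), PMF.uniformOfFintype_apply]
    simp [ENNReal.toReal_add]
  set ν := bern G ((μ.prod lam).prod μ) with hν
  have m1 := mp_fstC (ι := G) μ lam
  have hc1 : ∀ᵐ x ∂(bern G μ), c 1 x = 0 := by
    filter_upwards [hc.2 1 1] with x hx
    have e : shift (1 : G)⁻¹ x = x := by funext g; simp [shift]
    rw [mul_one, e] at hx
    exact left_eq_add.1 hx
  have hstep : ∀ j : Fin (n + 1), ∃ B : (G → (X × Fin (n + 1)) × X) → UnitAddCircle,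
      Measurable B ∧ ∀ᵐ ω ∂ν, c t (fstC ω) - c t (fstC (swp {j} ω)) = B ω - B (shift t⁻¹ ω) := by
    intro j
    have m2 := m1.comp (mp_swp μ lam {j})
    refine coboundary_of_close (ergodic_shift _ ht')
      (a := fun ω => c t (fstC ω) - c t (fstC (swp {j} ω)))
      (((hc.1 t).comp m1.measurable).sub ((hc.1 t).comp m2.measurable))
      (fun m ω => c (t ^ m) (fstC ω) - c (t ^ m) (fstC (swp {j} ω)))
      (fun m => ((hc.1 _).comp m1.measurable).sub ((hc.1 _).comp m2.measurable)) ?_ ?_ ?_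
    · filter_upwards [m1.quasiMeasurePreserving.ae hc1, m2.quasiMeasurePreserving.ae hc1]
        with ω e1 e2
      simp only [Function.comp_apply] at e2
      rw [pow_zero, e1, e2, sub_zero]
    · intro m
      filter_upwards [m1.quasiMeasurePreserving.ae (hc.2 t (t ^ m)),
        m2.quasiMeasurePreserving.ae (hc.2 t (t ^ m))] with ω e1 e2
      simp only [Function.comp_apply] at e2
      have e4 : fstC (swp {j} (shift t⁻¹ ω)) = shift t⁻¹ (fstC (swp {j} ω)) := rfl
      have e5 : fstC (shift t⁻¹ ω) = shift t⁻¹ (fstC ω) := rfl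
      rw [pow_succ', e1, e2, e4, e5]
      abel
    · intro m
      have h1 := uniform_close μ φ hφ hc lam {j} (δ := 1 / 4000) (fun i => by
        fin_cases i
        · exact H₀ _ lam {j} (by rw [hlam]; exact (hn.trans_le (min_le_left _ _)).le)
        · exact H₁ _ lam {j} (by rw [hlam]; exact (hn.trans_le (min_le_right _ _)).le))
        (k := t ^ m) (fun g => (Commute.pow_left (ht g) m).eq)
      refine le_trans (le_of_eq ?_) (h1.trans (by norm_num))
      unfold dsq
      simp only [norm_ex_sub_ex]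
  have hchain : ∀ m : ℕ, m ≤ n + 1 → ∃ B : (G → (X × Fin (n + 1)) × X) → UnitAddCircle,
      Measurable B ∧ ∀ᵐ ω ∂ν, c t (fstC ω) -
        c t (fstC (swp (Finset.univ.filter fun l : Fin (n + 1) => (l : ℕ) < m) ω)) =
          B ω - B (shift t⁻¹ ω) := by
    intro m
    induction m with
    | zero =>
      intro _
      refine ⟨fun _ => 0, measurable_const, ae_of_all _ fun ω => ?_⟩
      have : swp (Finset.univ.filter fun l : Fin (n + 1) => (l : ℕ) < 0) ω = ω := by
        funext g; simp [swp]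
      rw [this, sub_self, sub_self]
    | succ m ih =>
      intro hm
      obtain ⟨B, hB, h1⟩ := ih (by omega)
      obtain ⟨B', hB', h2⟩ := hstep ⟨m, hm⟩
      have m3 := mp_swp (ι := G) μ lam (Finset.univ.filter fun l : Fin (n + 1) => (l : ℕ) < m)
      refine ⟨fun ω => B ω + B' (swp (Finset.univ.filter fun l : Fin (n + 1) => (l : ℕ) < m) ω),
        hB.add (hB'.comp m3.measurable), ?_⟩
      filter_upwards [h1, m3.quasiMeasurePreserving.ae h2] with ω e1 e2
      have e3 : fstC (swp {(⟨m, hm⟩ : Fin (n + 1))}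
          (swp (Finset.univ.filter fun l : Fin (n + 1) => (l : ℕ) < m) ω)) =
          fstC (swp (Finset.univ.filter fun l : Fin (n + 1) => (l : ℕ) < m + 1) ω) := by
        funext g
        rcases lt_trichotomy (((ω g).1.2 : Fin (n + 1)) : ℕ) m with h | h | h
        · have h' : (ω g).1.2 ≠ ⟨m, hm⟩ := fun e => by rw [e] at h; exact lt_irrefl _ h
          simp [fstC, swp, h, h', h.le]
        · have h' : (ω g).1.2 = ⟨m, hm⟩ := Fin.ext h
          simp [fstC, swp, h']
        · have h' : (ω g).1.2 ≠ ⟨m, hm⟩ := fun e => by rw [e] at h; exact lt_irrefl _ h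
          have h2 : ¬ (((ω g).1.2 : Fin (n + 1)) : ℕ) < m := by omega
          have h3 : ¬ (((ω g).1.2 : Fin (n + 1)) : ℕ) ≤ m := by omega
          simp [fstC, swp, h', h2, h3]
      have e4 : swp (Finset.univ.filter fun l : Fin (n + 1) => (l : ℕ) < m) (shift t⁻¹ ω) =
          shift t⁻¹ (swp (Finset.univ.filter fun l : Fin (n + 1) => (l : ℕ) < m) ω) := rfl
      rw [e3] at e2
      rw [e4, ← sub_add_sub_cancel _ (c t (fstC (swp (Finset.univ.filter
        fun l : Fin (n + 1) => (l : ℕ) < m) ω))), e1, e2]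
      abel
  obtain ⟨B, hB, hBc⟩ := hchain (n + 1) le_rfl
  have mz : MeasurePreserving (fun (p : (G → X) × (G → Fin (n + 1) × X)) (g : G) =>
      ((p.1 g, (p.2 g).1), (p.2 g).2)) ((bern G μ).prod (bern G (lam.prod μ))) ν :=
    mp_coord₂ μ (lam.prod μ) _ (f := fun _ q => ((q.1, q.2.1), q.2.2))
      fun _ => (measurePreserving_prodAssoc μ lam μ).symm _
  have herg : Ergodic (Prod.map
      (Prod.map (shift t⁻¹ : (G → X) → _) (shift t⁻¹ : (G → Fin (n + 1) × X) → _))
      (Prod.map (shift t⁻¹ : (G → X) → _) (shift t⁻¹ : (G → Fin (n + 1) × X) → _)))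
      (((bern G μ).prod (bern G (lam.prod μ))).prod ((bern G μ).prod (bern G (lam.prod μ)))) := by
    have u1 := mp_unzip (ι := G) μ (lam.prod μ)
    have u2 := (u1.prod u1).comp (mp_unzip (ι := G) (μ.prod (lam.prod μ)) (μ.prod (lam.prod μ)))
    have s1 := ((mp_shift μ t⁻¹).prod (mp_shift (lam.prod μ) t⁻¹)).measurable
    exact u2.ergodic_of_ergodic_semiconj (ergodic_shift _ ht') (s1.prodMap s1) fun _ => rfl
  obtain ⟨κ, b, hb, hκ⟩ := const_of_product (mp_shift μ t⁻¹) (mp_shift (lam.prod μ) t⁻¹) herg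
    (c := c t) (d := fun y => c t fun g => (y g).2) (hB.comp mz.measurable) (by
      filter_upwards [mz.quasiMeasurePreserving.ae hBc] with p hp
      have e : fstC (swp (Finset.univ.filter fun l : Fin (n + 1) => (l : ℕ) < n + 1)
          fun g => ((p.1 g, (p.2 g).1), (p.2 g).2)) = fun g => (p.2 g).2 := by
        funext g
        simp [fstC, swp, Nat.lt_succ_iff.1 (p.2 g).1.is_lt]
      rw [e] at hp
      exact hp)
  have hss : ∀ (g h : G) (x : G → X), shift h⁻¹ (shift g⁻¹ x) = shift (g * h)⁻¹ x := by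
    intro g h x
    funext k
    simp [shift, mul_assoc]
  have hconst : ∀ g, ∃ a : UnitAddCircle, ∀ᵐ x ∂(bern G μ),
      c g x - (b (shift g⁻¹ x) - b x) = a := by
    intro g
    refine (ergodic_shift μ ht').ae_eq_const_of_ae_eq_comp_ae
      (g := fun x => c g x - (b (shift g⁻¹ x) - b x))
      ((hc.1 g).sub ((hb.comp (mp_shift μ g⁻¹).measurable).sub hb)).aestronglyMeasurable ?_
    filter_upwards [hc.2 g t, hc.2 t g, hκ, (mp_shift μ g⁻¹).quasiMeasurePreserving.ae hκ]
      with x e1 e2 e3 e4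
    simp only [Function.comp_apply]
    rw [ht g, e1, e3, e4, hss] at e2
    rw [hss, ht g, eq_sub_of_add_eq' e2.symm]
    abel
  choose χ hχ using hconst
  refine ⟨χ, b, fun g₁ g₂ => ?_, hb, fun g => ?_⟩
  · obtain ⟨x, e1, e2, e3, e4⟩ := ((hχ (g₁ * g₂)).and ((hχ g₁).and
      (((mp_shift μ g₁⁻¹).quasiMeasurePreserving.ae (hχ g₂)).and (hc.2 g₁ g₂)))).exists
    rw [← e1, ← e2, ← e3, e4, hss]
    abel
  · filter_upwards [hχ g] with x hx
    rw [← hx]
    abel

end Main

end Pool.Agent.Lib.MP_e62806_an
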