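import Pool.Agent.Lib.MP_e62806_an.Dual
import Pool.Agent.Lib.MP_e62806_an.Popa

/-!
The module `ℤG / ℤG·2(t - 1)` for `G = F × ℤ` with `t` the generator of the second factor.
-/

open MeasureTheory Set MonoidAlgebra

noncomputable section

namespace Pool.Agent.Lib.MP_e62806_an

lemma eq_empty_of_invariant {H : Type} [Group H] {x : H} (hx : ∀ n : ℕ, x ^ n = 1 → n = 0)
    {S : Set H} (hS : S.Finite) (h : ∀ y ∈ S, x * y ∈ S) : S = ∅ := by
  by_contra hne
  obtain ⟨y, hy⟩ := nonempty_iff_ne_empty.2 hne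
  have h1 : ∀ n : ℕ, x ^ n * y ∈ S := by
    intro n
    induction n with
    | zero => simpa using hy
    | succ n ih => rw [pow_succ', mul_assoc]; exact h _ ih
  obtain ⟨i, j, hij, e⟩ := hS.exists_lt_map_eq_of_forall_mem h1
  obtain ⟨k, rfl⟩ := Nat.exists_eq_add_of_lt hij
  rw [mul_left_inj, add_assoc, pow_add, left_eq_mul] at e
  exact Nat.succ_ne_zero k (hx _ e)

lemma eq_zero_of_fixed {H : Type} [Group H] {x : H} (hx : ∀ n : ℕ, x ^ n = 1 → n = 0)
    {u : MonoidAlgebra ℤ H} (h : single x (1 : ℤ) * u = u) : u = 0 := by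
  have h1 := eq_empty_of_invariant hx u.coeff.support.finite_toSet fun y hy => by
    rw [Finset.mem_coe, Finsupp.mem_support_iff] at hy ⊢
    rw [← h, coeff_single_mul_mul, one_mul]
    exact hy
  rw [← coeff_inj]
  exact Finsupp.support_eq_empty.1 (Finset.coe_eq_empty.1 h1)

lemma two_mul_cancel {H : Type} [Group H] {u v : MonoidAlgebra ℤ H} (h : 2 * u = 2 * v) :
    u = v := by
  ext y
  have := congrArg (fun w : MonoidAlgebra ℤ H => w.coeff y) h
  simp only [two_mul, coeff_add, Finsupp.add_apply] at this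
  omega

variable {F : Type} [Group F]

/-- The central generator. -/
abbrev tt (F : Type) [Group F] : F × Multiplicative ℤ := (1, Multiplicative.ofAdd 1)

/-- The element `2 (t - 1)`. -/
abbrev ff (F : Type) [Group F] : MonoidAlgebra ℤ (F × Multiplicative ℤ) :=
  2 * (single (tt F) 1 - 1)

lemma tt_comm (g : F × Multiplicative ℤ) : tt F * g = g * tt F :=
  Prod.ext (by simp) (mul_comm _ _)

lemma tt_order (n : ℕ) (h : tt F ^ n = 1) : n = 0 := by
  have := congrArg (fun g : F × Multiplicative ℤ => g.2.toAdd) h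
  simpa using this

lemma exists_central (n : ℤ) : ∃ v : MonoidAlgebra ℤ (F × Multiplicative ℤ),
    single (1, Multiplicative.ofAdd n) (1 : ℤ) - 1 = v * (single (tt F) 1 - 1) := by
  induction n using Int.induction_on with
  | zero => exact ⟨0, by rw [zero_mul, sub_eq_zero]; rfl⟩
  | succ n ih =>
    obtain ⟨v, hv⟩ := ih
    refine ⟨single (1, Multiplicative.ofAdd (n : ℤ)) 1 + v, ?_⟩
    rw [add_mul, ← hv, mul_sub, single_mul_single, mul_one, mul_one, sub_add_sub_cancel]
    simp [ofAdd_add]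
  | pred n ih =>
    obtain ⟨v, hv⟩ := ih
    refine ⟨v - single (1, Multiplicative.ofAdd (-(n : ℤ) - 1)) 1, ?_⟩
    rw [sub_mul, ← hv, mul_sub, single_mul_single, mul_one, mul_one, Prod.mk_mul_mk, mul_one,
      ← ofAdd_add, sub_add_cancel]
    abel

/-- The projection `ℤ[F × ℤ] → ℤ[F]`. -/
def proj (F : Type) [Group F] : MonoidAlgebra ℤ (F × Multiplicative ℤ) →+* MonoidAlgebra ℤ F :=
  mapDomainRingHom ℤ (MonoidHom.fst F (Multiplicative ℤ))

lemma proj_single (g : F × Multiplicative ℤ) (r : ℤ) : proj F (single g r) = single g.1 r := by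
  simp [proj]

lemma proj_tt : proj F (single (tt F) 1 - 1) = 0 := by
  rw [map_sub, proj_single, map_one, sub_eq_zero]
  rfl

lemma exists_of_proj (u : MonoidAlgebra ℤ (F × Multiplicative ℤ)) :
    ∃ v, u - mapDomainRingHom ℤ (MonoidHom.inl F (Multiplicative ℤ)) (proj F u) =
      v * (single (tt F) 1 - 1) := by
  induction u using MonoidAlgebra.induction_linear with
  | zero => exact ⟨0, by simp⟩
  | add a b ha hb =>
    obtain ⟨v, hv⟩ := ha
    obtain ⟨w, hw⟩ := hb
    refine ⟨v + w, ?_⟩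
    rw [add_mul, ← hv, ← hw, map_add, map_add]
    abel
  | single g r =>
    obtain ⟨v, hv⟩ := exists_central (F := F) g.2.toAdd
    refine ⟨single (g.1, 1) r * v, ?_⟩
    rw [mul_assoc, ← hv, mul_sub, single_mul_single, proj_single]
    simp

lemma mk_eq_zero_iff (u : MonoidAlgebra ℤ (F × Multiplicative ℤ)) :
    (Submodule.Quotient.mk u : QuotMod (ff F)) = 0 ↔ ∃ v, u = 2 * (v * (single (tt F) 1 - 1)) := by
  rw [Submodule.Quotient.mk_eq_zero, Submodule.mem_span_singleton]
  refine exists_congr fun v => ?_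
  rw [smul_eq_mul, eq_comm, ff, two_mul, two_mul, mul_add]

lemma modAct_mk {G : Type} [Group G] (f : MonoidAlgebra ℤ G) (g : G) (u : MonoidAlgebra ℤ G) :
    modAct f g (Submodule.Quotient.mk u) = Submodule.Quotient.mk (single g 1 * u) := rfl

lemma fixed_zero {x : F} (hx : ∀ n : ℕ, x ^ n = 1 → n = 0) {m : QuotMod (ff F)}
    (h : modAct (ff F) (x, 1) m = m) : m = 0 := by
  obtain ⟨u, rfl⟩ := Submodule.Quotient.mk_surjective _ m
  rw [modAct_mk, ← sub_eq_zero, ← Submodule.Quotient.mk_sub, mk_eq_zero_iff] at h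
  obtain ⟨v, hv⟩ := h
  have hx' : ∀ n : ℕ, ((x, 1) : F × Multiplicative ℤ) ^ n = 1 → n = 0 :=
    fun n hn => hx n (congrArg Prod.fst hn)
  have h1 := eq_empty_of_invariant hx' (S := {y | ¬ 2 ∣ u.coeff y})
    (u.coeff.support.finite_toSet.subset fun y hy => by
      rw [Finset.mem_coe, Finsupp.mem_support_iff]
      intro h0
      exact hy (h0 ▸ dvd_zero 2)) fun y hy => by
    have := congrArg (fun w : MonoidAlgebra ℤ (F × Multiplicative ℤ) => w.coeff ((x, 1) * y)) hv
    simp only [two_mul, coeff_add, coeff_sub, Finsupp.add_apply, Finsupp.sub_apply,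
      coeff_single_mul_mul, one_mul] at this
    change ¬ 2 ∣ u.coeff y at hy
    change ¬ 2 ∣ u.coeff ((x, 1) * y)
    omega
  obtain ⟨u', rfl⟩ : ∃ u', u = 2 * u' := by
    refine ⟨ofCoeff (u.coeff.mapRange (· / 2) (by simp)), ?_⟩
    ext y
    have : 2 ∣ u.coeff y := by
      by_contra h2
      exact (h1 ▸ h2 : y ∈ (∅ : Set _))
    simp only [two_mul, coeff_add, Finsupp.add_apply, Finsupp.mapRange_apply]
    omega
  have h2 : single ((x, 1) : F × Multiplicative ℤ) (1 : ℤ) * u' - u' =
      v * (single (tt F) 1 - 1) := by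
    refine two_mul_cancel ?_
    rw [← hv, two_mul, two_mul, mul_add]
    abel
  have h3 := congrArg (proj F) h2
  rw [map_mul _ v, proj_tt, mul_zero, map_sub, map_mul, proj_single, sub_eq_zero] at h3
  obtain ⟨w, hw⟩ := exists_of_proj u'
  rw [eq_zero_of_fixed hx h3, map_zero, sub_zero] at hw
  exact (mk_eq_zero_iff _).2 ⟨w, by rw [hw]⟩

lemma orbit_infinite {x : F} (hx : ∀ n : ℕ, x ^ n = 1 → n = 0) (m : QuotMod (ff F)) (hm : m ≠ 0) :
    (range fun g => modAct (ff F) g m).Infinite := by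
  intro hfin
  obtain ⟨i, j, hij, e⟩ := hfin.exists_lt_map_eq_of_forall_mem
    (f := fun n : ℕ => modAct (ff F) (x ^ n, 1) m) fun n => mem_range_self _
  obtain ⟨k, rfl⟩ := Nat.exists_eq_add_of_lt hij
  have h1 : modAct (ff F) (x ^ (k + 1), 1) (modAct (ff F) (x ^ i, 1) m) =
      modAct (ff F) (x ^ i, 1) m := by
    rw [← modAct_mul, Prod.mk_mul_mk, ← pow_add, mul_one, add_comm (k + 1), ← add_assoc]
    exact e.symm
  have h2 := fixed_zero (fun n hn => by
    rw [← pow_mul] at hn
    exact (mul_eq_zero.1 (hx _ hn)).resolve_left (Nat.succ_ne_zero k)) h1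
  have h3 := congrArg (modAct (ff F) (x ^ i, 1)⁻¹) h2
  rw [← modAct_mul, inv_mul_cancel, modAct_one] at h3
  exact hm (h3.trans (smul_zero _))

lemma range_infinite {g : F × Multiplicative ℤ} (hg : g ≠ 1) :
    (range fun m => modAct (ff F) g⁻¹ m - m).Infinite := by
  intro hfin
  have h1 := hfin.biUnion (t := fun τ : QuotMod (ff F) =>
    ((Quotient.out τ).coeff.support : Set (F × Multiplicative ℤ))) fun τ _ => Finset.finite_toSet _
  refine infinite_univ (h1.subset fun y _ => ?_)
  refine mem_biUnion (mem_range_self (Submodule.Quotient.mk (single y 1))) ?_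
  rw [Finset.mem_coe, Finsupp.mem_support_iff]
  intro h0
  have h2 := Submodule.Quotient.mk_out (modAct (ff F) g⁻¹ (Submodule.Quotient.mk (single y 1)) -
    (Submodule.Quotient.mk (single y 1) : QuotMod (ff F)))
  generalize Quotient.out (modAct (ff F) g⁻¹ (Submodule.Quotient.mk (single y 1)) -
    (Submodule.Quotient.mk (single y 1) : QuotMod (ff F))) = w at h0 h2
  rw [modAct_mk, ← Submodule.Quotient.mk_sub, ← sub_eq_zero, ← Submodule.Quotient.mk_sub,
    mk_eq_zero_iff] at h2
  obtain ⟨v, hv⟩ := h2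
  have h3 := congrArg (fun w : MonoidAlgebra ℤ (F × Multiplicative ℤ) => w.coeff y) hv
  have h4 : g⁻¹ * y ≠ y := fun e => hg (inv_eq_one.1 (mul_eq_right.1 e))
  simp only [two_mul, coeff_add, coeff_sub, Finsupp.add_apply, Finsupp.sub_apply, h0,
    single_mul_single, coeff_single, Finsupp.single_eq_same, Finsupp.single_eq_of_ne' h4] at h3
  omega

lemma mul_ff_eq_zero {u : MonoidAlgebra ℤ (F × Multiplicative ℤ)} (h : ff F * u = 0) : u = 0 := by
  rw [mul_assoc, ← mul_zero 2] at h
  have h1 := two_mul_cancel h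
  rw [sub_mul, one_mul, sub_eq_zero] at h1
  exact eq_zero_of_fixed tt_order h1

lemma ff_comm (u : MonoidAlgebra ℤ (F × Multiplicative ℤ)) : u * ff F = ff F * u := by
  have h : Commute (single (tt F) (1 : ℤ)) u :=
    single_commute (fun g => tt_comm g) (fun r => Commute.one_left r) u
  exact ((Commute.ofNat_left 2 u).mul_left (h.sub_left (Commute.one_left u))).eq.symm

/-- The affine permutation `m ↦ g m + w`. -/
def aff {G : Type} [Group G] (f : MonoidAlgebra ℤ G) (g : G) (w : QuotMod f) :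
    Equiv.Perm (QuotMod f) where
  toFun m := modAct f g m + w
  invFun m := modAct f g⁻¹ (m - w)
  left_inv m := by simp only []; rw [add_sub_cancel_right, ← modAct_mul, inv_mul_cancel, modAct_one]
  right_inv m := by simp only []; rw [← modAct_mul, mul_inv_cancel, modAct_one, sub_add_cancel]

theorem not_h1Vanishes : ¬ H1Vanishes (ff (FreeGroup (Fin 2))) := by
  intro H
  let f := ff (FreeGroup (Fin 2))
  let w : Fin 2 → QuotMod f := fun i => if i = 0 then 0 else Submodule.Quotient.mk 2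
  have h0 : ∀ g, modAct f g 0 = 0 := fun g => smul_zero _
  have hw : ∀ i n, modAct f (1, n) (w i) = w i := by
    intro i n
    by_cases hi : i = 0
    · simp only [w, if_pos hi, h0]
    · simp only [w, if_neg hi]
      rw [modAct_mk, ← sub_eq_zero, ← Submodule.Quotient.mk_sub, mk_eq_zero_iff]
      obtain ⟨v, hv⟩ := exists_central (F := FreeGroup (Fin 2)) n.toAdd
      refine ⟨v, ?_⟩
      rw [← hv, mul_two, mul_sub, two_mul, mul_one, ofAdd_toAdd]
  have hcomm : ∀ x n m, modAct f (1, n) (modAct f (x, 1) m) = modAct f (x, 1) (modAct f (1, n) m) := by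
    intro x n m
    rw [← modAct_mul, ← modAct_mul]
    simp
  let ρ : FreeGroup (Fin 2) →* Equiv.Perm (QuotMod f) :=
    FreeGroup.lift fun i => aff f (FreeGroup.of i, 1) (w i)
  have hof : ∀ i m, ρ (FreeGroup.of i) m = modAct f (FreeGroup.of i, 1) m + w i := by
    intro i m
    simp only [ρ, FreeGroup.lift_apply_of]
    rfl
  have hρ : ∀ x, (∀ m, ρ x m = modAct f (x, 1) m + ρ x 0) ∧
      ∀ n, modAct f (1, n) (ρ x 0) = ρ x 0 := by
    intro x
    induction x using FreeGroup.induction_on with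
    | C1 =>
      rw [map_one]
      exact ⟨fun m => ((add_zero _).trans (modAct_one f m)).symm, fun n => h0 _⟩
    | of i => exact ⟨fun m => by rw [hof, hof, h0, zero_add], fun n => by rw [hof, h0, zero_add, hw]⟩
    | inv_of i _ =>
      have e : ∀ m, ρ (FreeGroup.of i)⁻¹ m = modAct f ((FreeGroup.of i)⁻¹, 1) (m - w i) := by
        intro m
        simp only [ρ, map_inv, FreeGroup.lift_apply_of]
        rfl
      refine ⟨fun m => ?_, fun n => ?_⟩
      · rw [e, e, ← modAct_add, add_sub, add_zero]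
      · rw [e, hcomm, modAct_sub, h0, hw]
    | mul x y hx hy =>
      have e : ∀ m, ρ (x * y) m = ρ x (ρ y m) := fun m => by rw [map_mul]; rfl
      refine ⟨fun m => ?_, fun n => ?_⟩
      · rw [e, e, hx.1, hx.1 (ρ y 0), hy.1 m, modAct_add, ← modAct_mul, Prod.mk_mul_mk, mul_one,
          add_assoc]
      · rw [e, hx.1, modAct_add, hx.2, hcomm, hy.2]
  obtain ⟨m, hm⟩ := H (fun g => ρ g.1 0) fun g₁ g₂ => by
    have e : g₁ = (g₁.1, 1) * (1, g₁.2) := by simp
    rw [Prod.fst_mul, map_mul, Equiv.Perm.mul_apply, (hρ g₁.1).1, add_comm]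
    conv_rhs => rw [e, modAct_mul, (hρ g₂.1).2]
    simp [f]
  have h1 := hm (FreeGroup.of 0, 1)
  have h2 := hm (FreeGroup.of 1, 1)
  simp only [hof, h0, zero_add, w, if_true] at h1 h2
  have h3 : m = 0 := fixed_zero (x := FreeGroup.of 0) (fun n hn => by
    by_contra hne
    exact FreeGroup.of_ne_one _ ((pow_eq_one_iff_left hne).1 hn)) (sub_eq_zero.1 h1.symm)
  rw [h3, h0, sub_zero, if_neg one_ne_zero, mk_eq_zero_iff] at h2
  obtain ⟨v, hv⟩ := h2
  have h4 := congrArg (fun u => (proj _ u).coeff 1) hv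
  simp only [map_mul, proj_tt, mul_zero, map_ofNat] at h4
  simp at h4

end Pool.Agent.Lib.MP_e62806_an
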