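import Pool.Agent.Lib.MP_e62806_an.Cobound

/-!
Fourier coefficients on a compact abelian group in duality with a discrete abelian group.
-/

open MeasureTheory Filter Topology Set
open scoped ENNReal

noncomputable section

namespace Pool.Agent.Lib.MP_e62806_an

/-- A separating bi-additive pairing, continuous in the second variable. -/
structure Pairing (I Y : Type) [AddCommGroup I] [AddCommGroup Y] [TopologicalSpace Y] where
  p : I → Y → UnitAddCircle
  add_left : ∀ i j y, p (i + j) y = p i y + p j y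
  add_right : ∀ i y z, p i (y + z) = p i y + p i z
  cont : ∀ i, Continuous (p i)
  sepI : ∀ i, i ≠ 0 → ∃ y, p i y ≠ 0
  sepY : ∀ y z, y ≠ z → ∃ i, p i y ≠ p i z

namespace Pairing

variable {I Y : Type} [AddCommGroup I] [AddCommGroup Y] [TopologicalSpace Y] (P : Pairing I Y)

lemma zero_left (y : Y) : P.p 0 y = 0 := by
  have := P.add_left 0 0 y
  rw [add_zero] at this
  exact left_eq_add.1 this

lemma neg_left (i : I) (y : Y) : P.p (-i) y = -P.p i y := by
  have := P.add_left i (-i) y
  rw [add_neg_cancel, P.zero_left] at this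
  exact (neg_eq_of_add_eq_zero_right this.symm).symm

/-- The character attached to `i`. -/
def chi (i : I) : C(Y, ℂ) := ⟨fun y => ex (P.p i y), continuous_ex.comp (P.cont i)⟩

@[simp] lemma chi_apply (i : I) (y : Y) : P.chi i y = ex (P.p i y) := rfl

/-- The star subalgebra spanned by the characters. -/
def alg : StarSubalgebra ℂ C(Y, ℂ) where
  toSubalgebra := Algebra.adjoin ℂ (range P.chi)
  star_mem' := by
    change Algebra.adjoin ℂ (range P.chi) ≤ star (Algebra.adjoin ℂ (range P.chi))
    refine Algebra.adjoin_le ?_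
    rintro - ⟨n, rfl⟩
    refine Algebra.subset_adjoin ⟨-n, ContinuousMap.ext fun y => ?_⟩
    rw [chi_apply, P.neg_left, ex_neg]
    rfl

lemma alg_coe : Subalgebra.toSubmodule P.alg.toSubalgebra = Submodule.span ℂ (range P.chi) := by
  apply Algebra.adjoin_eq_span_of_subset
  refine Subset.trans ?_ Submodule.subset_span
  intro x hx
  refine Submonoid.closure_induction (fun _ => id) ⟨0, ?_⟩ ?_ hx
  · ext1 z
    rw [chi_apply, P.zero_left, ex_zero]
    rfl
  · rintro - - - - ⟨m, rfl⟩ ⟨n, rfl⟩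
    refine ⟨m + n, ?_⟩
    ext1 z
    rw [chi_apply, P.add_left, ex_add]
    rfl

lemma span_closure [CompactSpace Y] :
    (Submodule.span ℂ (range P.chi)).topologicalClosure = ⊤ := by
  rw [← P.alg_coe]
  refine congr_arg (Subalgebra.toSubmodule <| StarSubalgebra.toSubalgebra ·)
    (ContinuousMap.starSubalgebra_topologicalClosure_eq_top_of_separatesPoints P.alg ?_)
  intro x y hxy
  obtain ⟨i, hi⟩ := P.sepY x y hxy
  exact ⟨_, ⟨P.chi i, Algebra.subset_adjoin ⟨i, rfl⟩, rfl⟩, fun h => hi (ex_injective h)⟩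

variable [CompactSpace Y] [T2Space Y] [SecondCountableTopology Y] [IsTopologicalAddGroup Y]
  [MeasurableSpace Y] [BorelSpace Y] (ν : Measure Y) [IsProbabilityMeasure ν]

/-- The characters in `L²`. -/
def chiLp (i : I) : Lp ℂ 2 ν := ContinuousMap.toLp (E := ℂ) 2 ν ℂ (P.chi i)

omit [IsTopologicalAddGroup Y] in
lemma spanLp_closure : (Submodule.span ℂ (range (P.chiLp ν))).topologicalClosure = ⊤ := by
  have := (ContinuousMap.toLp_denseRange ℂ ν ℂ (p := 2) (by simp)).topologicalClosure_map_submodule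
    P.span_closure
  rw [Submodule.map_span, ← range_comp] at this
  exact this

/-- Fourier coefficient. -/
def coef (F : Y → ℂ) (i : I) : ℂ := ∫ y, ex (-P.p i y) * F y ∂ν

omit [IsTopologicalAddGroup Y] [T2Space Y] [SecondCountableTopology Y] in
lemma inner_chiLp {F : Y → ℂ} (hF : BM F) (i : I) :
    inner ℂ (P.chiLp ν i) ((hF.memLp ν 2).toLp F) = P.coef ν F i := by
  rw [L2.inner_def, coef]
  refine integral_congr_ae ?_
  filter_upwards [MemLp.coeFn_toLp (hF.memLp ν 2),
    ContinuousMap.coeFn_toLp (p := 2) (𝕜 := ℂ) ν (P.chi i)] with y h1 h2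
  rw [h1, chiLp, h2, ex_neg, RCLike.inner_apply, mul_comm]
  rfl

omit [IsTopologicalAddGroup Y] in
theorem ae_zero_of_coef {F : Y → ℂ} (hF : BM F) (h : ∀ i, P.coef ν F i = 0) :
    ∀ᵐ y ∂ν, F y = 0 := by
  have h1 : (hF.memLp ν 2).toLp F ∈ (Submodule.span ℂ (range (P.chiLp ν)))ᗮ := by
    rw [Submodule.mem_orthogonal]
    intro u hu
    induction hu using Submodule.span_induction with
    | mem x hx =>
      obtain ⟨i, rfl⟩ := hx
      rw [P.inner_chiLp ν hF, h]
    | zero => exact inner_zero_left _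
    | add x y _ _ hx hy => rw [inner_add_left, hx, hy, add_zero]
    | smul a x _ hx => rw [inner_smul_left, hx, mul_zero]
  rw [Submodule.topologicalClosure_eq_top_iff.1 (P.spanLp_closure ν), Submodule.mem_bot] at h1
  filter_upwards [MemLp.coeFn_toLp (hF.memLp ν 2), Lp.coeFn_zero ℂ 2 ν] with y e1 e2
  rw [← e1, h1, e2]
  rfl

variable [ν.IsAddLeftInvariant]

omit [CompactSpace Y] [T2Space Y] [IsProbabilityMeasure ν] [SecondCountableTopology Y] in
lemma integral_chi {i : I} (hi : i ≠ 0) : ∫ y, ex (P.p i y) ∂ν = 0 := by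
  obtain ⟨z, hz⟩ := P.sepI i hi
  have h1 := integral_add_left_eq_self (μ := ν) (fun y => ex (P.p i y)) z
  simp only [P.add_right, ex_add] at h1
  rw [integral_const_mul] at h1
  have h2 : ex (P.p i z) - 1 ≠ 0 := fun h => hz (ex_injective (by rw [ex_zero]; exact sub_eq_zero.1 h))
  refine (mul_eq_zero.1 ?_).resolve_left h2
  rw [sub_mul, h1, one_mul, sub_self]

omit [T2Space Y] in
lemma orthonormal : Orthonormal ℂ (P.chiLp ν) := by
  classical
  rw [orthonormal_iff_ite]
  intro i j
  rw [chiLp, chiLp, ContinuousMap.inner_toLp ν (P.chi i) (P.chi j)]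
  simp only [chi_apply, ← ex_neg, ← ex_add, ← P.neg_left, ← P.add_left]
  split_ifs with h
  · simp [h, P.zero_left]
  · exact P.integral_chi ν (by rw [← sub_eq_add_neg]; exact sub_ne_zero.mpr (Ne.symm h))

omit [T2Space Y] in
theorem finite_coef {F : Y → ℂ} (hF : BM F) {ε : ℝ} (hε : 0 < ε) :
    {i | ε ≤ ‖P.coef ν F i‖}.Finite := by
  have h1 := ((P.orthonormal ν).inner_products_summable ((hF.memLp ν 2).toLp F)).tendsto_cofinite_zero
  simp only [P.inner_chiLp ν hF] at h1
  have h2 := h1.eventually (gt_mem_nhds (show (0 : ℝ) < ε ^ 2 by positivity))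
  rw [eventually_cofinite] at h2
  refine h2.subset fun i hi => ?_
  exact not_lt.2 (pow_le_pow_left₀ hε.le hi 2)

omit [T2Space Y] in
lemma coef_eq_zero {F : Y → ℂ} (hF : BM F) {i : I} {S : Set I} (hS : S.Infinite)
    (h : ∀ j ∈ S, ‖P.coef ν F j‖ = ‖P.coef ν F i‖) : P.coef ν F i = 0 := by
  by_contra hne
  exact hS ((P.finite_coef ν hF (norm_pos_iff.2 hne)).subset fun j hj => (h j hj).ge)

end Pairing

end Pool.Agent.Lib.MP_e62806_an
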