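import Mathlib

/-!
An abstract spectral gap estimate: Efron - Stein decomposition of a commuting family of
projections together with a paradoxical decomposition of the index set.
-/

open Finset

noncomputable section

namespace Pool.Agent.Lib.MP_e62806_an

variable {ι : Type} [DecidableEq ι]

lemma powerset_sum_unique {W : Type} [AddCommGroup W] {F F' : Finset ι → W}
    (h : ∀ A : Finset ι, ∑ B ∈ A.powerset, F B = ∑ B ∈ A.powerset, F' B) (B : Finset ι) :
    F B = F' B := by
  induction B using Finset.strongInduction with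
  | H A ih =>
    have h1 := h A
    rw [← Finset.add_sum_erase _ _ (Finset.mem_powerset_self A),
      ← Finset.add_sum_erase _ _ (Finset.mem_powerset_self A)] at h1
    have h2 : ∑ B ∈ A.powerset.erase A, F B = ∑ B ∈ A.powerset.erase A, F' B := by
      refine Finset.sum_congr rfl fun B hB => ih B ?_
      rw [Finset.mem_erase, Finset.mem_powerset] at hB
      exact Finset.ssubset_iff_subset_ne.2 ⟨hB.2, hB.1⟩
    rw [h2] at h1
    exact add_right_cancel h1

lemma exists_powerset_sum {W : Type} [AddCommGroup W] (P : Finset ι → W) :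
    ∃ E : Finset ι → W, ∀ A : Finset ι, ∑ B ∈ A.powerset, E B = P A := by
  let E : Finset ι → W := Finset.strongInduction (p := fun _ => W) fun A rec =>
    P A - ∑ B ∈ (A.powerset.erase A).attach, rec B.1 (by
      have hB := B.2
      rw [Finset.mem_erase, Finset.mem_powerset] at hB
      exact Finset.ssubset_iff_subset_ne.2 ⟨hB.2, hB.1⟩)
  refine ⟨E, fun A => ?_⟩
  have h : E A = P A - ∑ B ∈ (A.powerset.erase A).attach, E B.1 := by
    simp only [E]
    rw [Finset.strongInduction_eq]
  rw [← Finset.add_sum_erase _ _ (Finset.mem_powerset_self A), h,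
    Finset.sum_attach _ (fun B => E B)]
  abel

section

variable {V : Type} [AddCommGroup V] [Module ℝ V] (β : V →ₗ[ℝ] V →ₗ[ℝ] ℝ)
  (P E : Finset ι → V →ₗ[ℝ] V)

/-- The hypotheses on the form and the projections. -/
structure ESData : Prop where
  symm : ∀ x y, β x y = β y x
  psd : ∀ x, 0 ≤ β x x
  mul : ∀ C D x, P C (P D x) = P (C ∩ D) x
  adj : ∀ C x y, β (P C x) y = β x (P C y)
  sum : ∀ A x, ∑ B ∈ A.powerset, E B x = P A x

variable {β P E}

lemma ESData.P_E (h : ESData β P E) (D B : Finset ι) (x : V) :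
    P D (E B x) = if B ⊆ D then E B x else 0 := by
  refine powerset_sum_unique (F := fun B => P D (E B x))
    (F' := fun B => if B ⊆ D then E B x else 0) (fun A => ?_) B
  rw [← map_sum, h.sum, h.mul, ← h.sum, ← Finset.sum_filter]
  refine Finset.sum_congr ?_ fun _ _ => rfl
  ext C
  simp only [Finset.mem_powerset, Finset.mem_filter, Finset.subset_inter_iff]
  tauto

lemma ESData.E_adj (h : ESData β P E) (B : Finset ι) (x y : V) : β (E B x) y = β x (E B y) := by
  refine powerset_sum_unique (F := fun B => β (E B x) y) (F' := fun B => β x (E B y))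
    (fun A => ?_) B
  rw [← map_sum, ← LinearMap.sum_apply, ← map_sum, h.sum, h.sum, h.adj]

lemma ESData.E_E (h : ESData β P E) (B B' : Finset ι) (x : V) :
    E B (E B' x) = if B = B' then E B' x else 0 := by
  refine powerset_sum_unique (F := fun B => E B (E B' x))
    (F' := fun B => if B = B' then E B' x else 0) (fun A => ?_) B
  rw [h.sum, h.P_E, Finset.sum_ite_eq']
  simp only [Finset.mem_powerset]

lemma ESData.E_empty (h : ESData β P E) (x : V) : E ∅ x = P ∅ x := by
  simpa using h.sum ∅ x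

lemma ESData.E_equiv (h : ESData β P E) (σ : Finset ι ≃ Finset ι)
    (hσ : ∀ A B, σ B ⊆ σ A ↔ B ⊆ A) (π : V →ₗ[ℝ] V) (hπ : ∀ A x, π (P A x) = P (σ A) (π x))
    (B : Finset ι) (x : V) : π (E B x) = E (σ B) (π x) := by
  refine powerset_sum_unique (F := fun B => π (E B x)) (F' := fun B => E (σ B) (π x))
    (fun A => ?_) B
  rw [← map_sum, h.sum, hπ, ← h.sum]
  symm
  refine Finset.sum_equiv σ (fun B => ?_) fun _ _ => rfl
  simp only [Finset.mem_powerset, hσ]

lemma ESData.inner_sum (h : ESData β P E) (S : Finset (Finset ι)) (x : V) :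
    β x (∑ B ∈ S, E B x) = ∑ B ∈ S, β (E B x) (E B x) := by
  rw [map_sum]
  refine Finset.sum_congr rfl fun B _ => ?_
  rw [h.E_adj, h.E_E, if_pos rfl]

lemma ESData.sum_inner_sum (h : ESData β P E) (S : Finset (Finset ι)) (x : V) :
    β (∑ B ∈ S, E B x) (∑ B ∈ S, E B x) = ∑ B ∈ S, β (E B x) (E B x) := by
  rw [map_sum]
  refine Finset.sum_congr rfl fun B hB => ?_
  rw [← h.E_adj, map_sum]
  simp only [h.E_E]
  rw [Finset.sum_ite_eq, if_pos hB, h.E_adj, h.E_adj, h.E_E, if_pos rfl]

lemma ESData.bessel (h : ESData β P E) (S : Finset (Finset ι)) (x : V) :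
    ∑ B ∈ S, β (E B x) (E B x) ≤ β x x := by
  have h1 := h.psd (x - ∑ B ∈ S, E B x)
  simp only [map_sub, LinearMap.sub_apply] at h1
  rw [h.symm (∑ B ∈ S, E B x) x, h.inner_sum, h.sum_inner_sum] at h1
  linarith

lemma ESData.quad (h : ESData β P E) (y z : V) :
    β (y + z) (y + z) ≤ 3 / 2 * β y y + 3 * β z z := by
  have h1 := h.psd (y - (2 : ℝ) • z)
  simp only [map_sub, map_add, map_smul, LinearMap.sub_apply, LinearMap.add_apply,
    LinearMap.smul_apply, smul_eq_mul] at h1 ⊢
  rw [h.symm z y] at h1 ⊢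
  linarith

lemma ESData.step (h : ESData β P E) {L : Type} [DecidableEq L] (lab : Finset ι → L) (l₁ l₂ : L)
    (σ : Finset ι ≃ Finset ι) (hσ : ∀ A B, σ B ⊆ σ A ↔ B ⊆ A) (π : V →ₗ[ℝ] V)
    (hπ : ∀ A x, π (P A x) = P (σ A) (π x)) (hπβ : ∀ x, β (π x) (π x) = β x x)
    (hlab : ∀ B, B ≠ ∅ → lab B = l₁ ∨ lab (σ.symm B) = l₂)
    (A : Finset ι) (x : V) (hx : P A x = x) :
    ∑ B ∈ A.powerset.erase ∅, β (E B x) (E B x) ≤
      ∑ B ∈ (A.powerset.erase ∅).filter (fun B => lab B = l₁), β (E B x) (E B x) +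
      3 / 2 * ∑ B ∈ (A.powerset.erase ∅).filter (fun B => lab B = l₂), β (E B x) (E B x) +
      3 * β (x - π x) (x - π x) := by
  set S := A.powerset.erase ∅ with hS
  rw [← Finset.sum_filter_add_sum_filter_not S (fun B => lab B = l₁), add_assoc]
  refine add_le_add le_rfl ?_
  set T := S.filter (fun B => ¬ lab B = l₁) with hT
  have h1 : ∀ B, β (E B x) (E B x) ≤ 3 / 2 * β (E (σ.symm B) x) (E (σ.symm B) x) +
      3 * β (E B (x - π x)) (E B (x - π x)) := by
    intro B
    have h2 := h.quad (E B (π x)) (E B (x - π x))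
    rw [← map_add, add_sub_cancel] at h2
    have h3 : E B (π x) = π (E (σ.symm B) x) := by
      rw [h.E_equiv σ hσ π hπ, Equiv.apply_symm_apply]
    rwa [h3, hπβ] at h2
  refine (Finset.sum_le_sum fun B _ => h1 B).trans ?_
  rw [Finset.sum_add_distrib, ← Finset.mul_sum, ← Finset.mul_sum]
  refine add_le_add (mul_le_mul_of_nonneg_left ?_ (by norm_num))
    (mul_le_mul_of_nonneg_left (h.bessel T _) (by norm_num))
  have h4 : ∑ B ∈ T, β (E (σ.symm B) x) (E (σ.symm B) x) =
      ∑ B ∈ T.map σ.symm.toEmbedding, β (E B x) (E B x) := by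
    rw [Finset.sum_map]; rfl
  rw [h4]
  rw [← Finset.sum_filter_ne_zero]
  refine Finset.sum_le_sum_of_subset_of_nonneg (fun B hB => ?_) fun B _ _ => h.psd _
  rw [Finset.mem_filter, Finset.mem_map] at hB
  obtain ⟨⟨C, hC, rfl⟩, hne⟩ := hB
  simp only [hT, hS, Finset.mem_filter, Finset.mem_erase, Finset.mem_powerset] at hC ⊢
  refine ⟨⟨fun h0 => hC.1.1 ?_, ?_⟩, (hlab C hC.1.1).resolve_left hC.2⟩
  · have h5 : σ.symm C ⊆ σ.symm ∅ := by
      have h0' : σ.symm C = ∅ := h0
      rw [h0']; exact Finset.empty_subset _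
    rw [← hσ, Equiv.apply_symm_apply, Equiv.apply_symm_apply] at h5
    exact Finset.subset_empty.1 h5
  · by_contra hsub
    apply hne
    have h6 : E (σ.symm.toEmbedding C) x = 0 := by
      rw [← hx, ← h.sum, map_sum]
      refine Finset.sum_eq_zero fun B hB => ?_
      rw [h.E_E, if_neg]
      rintro rfl
      exact hsub (Finset.mem_powerset.1 hB)
    rw [h6]; simp

theorem ESData.gap (h : ESData β P E) (lab : Finset ι → Option (Fin 2 × Bool))
    (σ : Fin 2 → Finset ι ≃ Finset ι) (hσ : ∀ i A B, σ i B ⊆ σ i A ↔ B ⊆ A)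
    (π : Fin 2 → V →ₗ[ℝ] V) (hπ : ∀ i A x, π i (P A x) = P (σ i A) (π i x))
    (hπβ : ∀ i x, β (π i x) (π i x) = β x x)
    (hlab : ∀ i B, B ≠ ∅ → lab B = some (i, true) ∨ lab ((σ i).symm B) = some (i, false))
    (A : Finset ι) (x : V) (hx : P A x = x) :
    β (x - P ∅ x) (x - P ∅ x) ≤
      6 * (β (x - π 0 x) (x - π 0 x) + β (x - π 1 x) (x - π 1 x)) := by
  have h0 := h.step lab _ _ (σ 0) (hσ 0) (π 0) (hπ 0) (hπβ 0) (hlab 0) A x hx
  have h1 := h.step lab _ _ (σ 1) (hσ 1) (π 1) (hπ 1) (hπβ 1) (hlab 1) A x hx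
  set S := A.powerset.erase ∅ with hS
  have h2 : x - P ∅ x = ∑ B ∈ S, E B x := by
    have := h.sum A x
    rw [← Finset.add_sum_erase _ _ (Finset.empty_mem_powerset A), h.E_empty, hx] at this
    rw [sub_eq_iff_eq_add']
    exact this.symm
  rw [h2, h.sum_inner_sum]
  have h3 : ∑ B ∈ S.filter (fun B => lab B = some (0, true)), β (E B x) (E B x) +
      ∑ B ∈ S.filter (fun B => lab B = some (0, false)), β (E B x) (E B x) +
      ∑ B ∈ S.filter (fun B => lab B = some (1, true)), β (E B x) (E B x) +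
      ∑ B ∈ S.filter (fun B => lab B = some (1, false)), β (E B x) (E B x) ≤
      ∑ B ∈ S, β (E B x) (E B x) := by
    simp only [Finset.sum_filter, ← Finset.sum_add_distrib]
    refine Finset.sum_le_sum fun B _ => ?_
    have := h.psd (E B x)
    split_ifs <;> simp_all
  have p1 : 0 ≤ ∑ B ∈ S.filter (fun B => lab B = some (0, true)), β (E B x) (E B x) :=
    Finset.sum_nonneg fun _ _ => h.psd _
  have p2 : 0 ≤ ∑ B ∈ S.filter (fun B => lab B = some (1, true)), β (E B x) (E B x) :=
    Finset.sum_nonneg fun _ _ => h.psd _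
  linarith

end

open Pointwise in
theorem exists_label {G : Type} [Group G] [DecidableEq G] (φ : FreeGroup (Fin 2) →* G)
    (hφ : Function.Injective φ) :
    ∃ lab : Finset G → Option (Fin 2 × Bool), ∀ (i : Fin 2) (B : Finset G), B ≠ ∅ →
      lab B = some (i, true) ∨ lab ((φ (FreeGroup.of i))⁻¹ • B) = some (i, false) := by
  let _ : MulAction (FreeGroup (Fin 2)) (Finset G) := MulAction.compHom _ φ
  have hsm : ∀ (w : FreeGroup (Fin 2)) (B : Finset G), w • B = φ w • B := fun _ _ => rfl
  have hfree : ∀ (w : FreeGroup (Fin 2)) (B : Finset G), B ≠ ∅ → w • B = B → w = 1 := by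
    intro w B hB hw
    obtain ⟨x, hx⟩ := Finset.nonempty_iff_ne_empty.2 hB
    have h1 : ∀ n : ℕ, φ (w ^ n) * x ∈ B := by
      intro n
      induction n with
      | zero => simpa using hx
      | succ n ih =>
        rw [pow_succ', map_mul, mul_assoc, ← hw, hsm]
        exact Finset.smul_mem_smul_finset ih
    by_contra hne
    have hinj : Function.Injective (fun n : ℕ => φ (w ^ n) * x) := by
      intro m n hmn
      have h2 : w ^ m = w ^ n := hφ (mul_right_cancel hmn)
      exact (injective_pow_iff_not_isOfFinOrder.2 (not_isOfFinOrder_of_isMulTorsionFree hne)) h2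
    exact Set.infinite_of_injective_forall_mem hinj (s := (B : Set G)) h1 B.finite_toSet
  let rep : Finset G → Finset G := fun B =>
    (Quotient.mk (MulAction.orbitRel (FreeGroup (Fin 2)) (Finset G)) B).out
  have hrep : ∀ B, ∃ w : FreeGroup (Fin 2), w • rep B = B := by
    intro B
    have : (MulAction.orbitRel (FreeGroup (Fin 2)) (Finset G)) B (rep B) :=
      (MulAction.orbitRel _ _).symm (Quotient.exact (Quotient.out_eq _))
    exact this
  choose r hr using hrep
  have hrr : ∀ (w : FreeGroup (Fin 2)) (B : Finset G), B ≠ ∅ → r (w • B) = w * r B := by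
    intro w B hB
    have h1 : rep (w • B) = rep B := by
      simp only [rep]
      congr 1
      exact Quotient.sound (MulAction.mem_orbit B w)
    have h2 := hr (w • B)
    rw [h1] at h2
    have h3 : (r (w • B) * (w * r B)⁻¹) • (w • B) = w • B := by
      have e : w • B = (w * r B) • rep B := by rw [mul_smul, hr B]
      calc (r (w • B) * (w * r B)⁻¹) • (w • B)
          = (r (w • B) * (w * r B)⁻¹) • ((w * r B) • rep B) := congrArg _ e
        _ = r (w • B) • rep B := by rw [smul_smul, inv_mul_cancel_right]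
        _ = w • B := h2
    have h4 : w • B ≠ ∅ := by
      rw [hsm]; simpa using hB
    exact mul_inv_eq_one.1 (hfree _ _ h4 h3)
  refine ⟨fun B => (r B).toWord[0]?, fun i B hB => ?_⟩
  by_cases h : r B ∈ FreeGroup.startsWith (i, true)
  · exact Or.inl h
  · right
    have h1 := FreeGroup.startsWith_mk_mul (w := (i, false)) (r B) h
    have h2 : (φ (FreeGroup.of i))⁻¹ • B = (FreeGroup.mk [(i, false)]) • B := by
      rw [hsm, ← map_inv]
      rfl
    rw [h2]
    simp only [hrr _ B hB]
    exact h1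

end Pool.Agent.Lib.MP_e62806_an
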