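import Pool.Agent.Lib.MP_e62806_an.Conv

/-!
If the Bernoulli shift on `{0,1}^G` is cocycle superrigid and `f` is invertible in `ℓ¹(G)`, then
`H¹(G, ℤG/ℤGf) = 0`.
-/

open MeasureTheory Filter Topology
open scoped ENNReal

noncomputable section

namespace Pool.Agent.Lib.MP_e62806_an

/-- The uniform measure on `Bool`. -/
def coin : Measure Bool := (2 : ℝ≥0∞)⁻¹ • (Measure.dirac true + Measure.dirac false)

instance : IsProbabilityMeasure coin := by
  constructor
  simp only [coin, Measure.smul_apply, Measure.add_apply, measure_univ, smul_eq_mul]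
  rw [one_add_one_eq_two]
  exact ENNReal.inv_mul_cancel (by simp) (by simp)

lemma mp_not : MeasurePreserving (fun b : Bool => !b) coin coin := by
  have hm : Measurable (fun b : Bool => !b) := measurable_from_top
  refine ⟨hm, ?_⟩
  rw [coin, Measure.map_smul, Measure.map_add _ _ hm, Measure.map_dirac' hm, Measure.map_dirac' hm,
    add_comm]
  rfl

section

variable {G : Type} [DecidableEq G]

/-- Flipping one coordinate. -/
def flipAt (h : G) (x : G → Bool) : G → Bool := fun i => if i = h then !x i else x i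

lemma mp_flipAt (h : G) : MeasurePreserving (flipAt h) (bern G coin) (bern G coin) :=
  mp_coord coin coin (f := fun i b => if i = h then !b else b) fun i => by
    by_cases hi : i = h
    · simp only [hi, if_true]; exact mp_not
    · simp only [hi, if_false]; exact MeasurePreserving.id _

lemma tendsto_dsq_flip {F : (G → Bool) → ℂ} (hF : BM F) :
    Tendsto (fun h => dsq (bern G coin) (fun x => F (flipAt h x)) F) cofinite (𝓝 0) := by
  rw [Metric.tendsto_nhds]
  intro ε hε
  obtain ⟨A, η, hη, hA, hd⟩ := exists_cyl_approx coin hF (ε := ε / 8) (by positivity)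
  filter_upwards [A.eventually_cofinite_notMem] with h hh
  rw [Real.dist_eq, sub_zero, abs_of_nonneg (dsq_nonneg _ _ _)]
  have h1 := dsq_triangle (bern G coin) (hF.comp (mp_flipAt h).measurable) hη hF
  have h2 : η = fun x => η (flipAt h x) := by
    funext x
    refine hA fun i hi => ?_
    have : i ≠ h := fun e => hh (e ▸ Finset.mem_coe.1 hi)
    simp [flipAt, this]
  have h3 : dsq (bern G coin) (fun x => F (flipAt h x)) η = dsq (bern G coin) F η := by
    conv_lhs => rw [h2]
    exact dsq_comp (mp_flipAt h) hF.meas hη.meas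
  rw [h3, dsq_comm _ η F] at h1
  linarith

end

section

variable {G : Type}

/-- The value of a coordinate as a real number. -/
def val (b : Bool) : ℝ := if b then 1 else 0

/-- The sign of the change of a coordinate under flipping. -/
def sgn (b : Bool) : ℤ := if b then -1 else 1

/-- The pairing of a summable function with a configuration. -/
def pairingL1 (ξ : G → ℝ) (x : G → Bool) : ℝ := ∑' h, ξ h * val (x h)

lemma norm_mul_val_le (a : ℝ) (b : Bool) : ‖a * val b‖ ≤ ‖a‖ := by
  cases b <;> simp [val]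

lemma summable_pairing {ξ : G → ℝ} (hξ : Summable ξ) (x : G → Bool) :
    Summable fun h => ξ h * val (x h) :=
  Summable.of_norm_bounded hξ.norm fun _ => norm_mul_val_le _ _

lemma continuous_pairing {ξ : G → ℝ} (hξ : Summable ξ) : Continuous (pairingL1 ξ) := by
  refine continuous_tsum (fun h => ?_) hξ.norm fun h x => norm_mul_val_le _ _
  have hv : Continuous val := continuous_of_discreteTopology
  exact continuous_const.mul (hv.comp (continuous_apply h))

lemma pairing_add {ξ ζ : G → ℝ} (hξ : Summable ξ) (hζ : Summable ζ) (x : G → Bool) :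
    pairingL1 (fun h => ξ h + ζ h) x = pairingL1 ξ x + pairingL1 ζ x := by
  unfold pairingL1
  rw [← (summable_pairing hξ x).tsum_add (summable_pairing hζ x)]
  simp only [add_mul]

lemma summable_coeff (z : MonoidAlgebra ℤ G) : Summable fun h => ((z.coeff h : ℤ) : ℝ) :=
  summable_of_ne_finset_zero (s := z.coeff.support) fun h hh => by
    rw [Finsupp.notMem_support_iff.1 hh]; simp

lemma coe_intCast_circle (n : ℤ) : (((n : ℝ)) : UnitAddCircle) = 0 :=
  (AddCircle.coe_eq_zero_iff 1).2 ⟨n, by simp⟩

lemma pairing_coeff (z : MonoidAlgebra ℤ G) (x : G → Bool) :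
    ((pairingL1 (fun h => ((z.coeff h : ℤ) : ℝ)) x : ℝ) : UnitAddCircle) = 0 := by
  unfold pairingL1
  rw [tsum_eq_sum (s := z.coeff.support) (fun h hh => by
    simp [Finsupp.notMem_support_iff.1 hh])]
  have : ∑ h ∈ z.coeff.support, ((z.coeff h : ℤ) : ℝ) * val (x h) =
      ((∑ h ∈ z.coeff.support, (if x h then z.coeff h else 0) : ℤ) : ℝ) := by
    push_cast
    refine Finset.sum_congr rfl fun h _ => ?_
    cases x h <;> simp [val]
  rw [this, coe_intCast_circle]

lemma pairing_translate [Group G] (ξ : G → ℝ) (g : G) (x : G → Bool) :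
    pairingL1 (fun h => ξ (g⁻¹ * h)) x = pairingL1 ξ (shift g⁻¹ x) := by
  unfold pairingL1
  rw [← (Equiv.mulLeft g).tsum_eq]
  simp [shift]

lemma pairing_flip [DecidableEq G] {ξ : G → ℝ} (hξ : Summable ξ) (h : G) (x : G → Bool) :
    pairingL1 ξ (flipAt h x) = pairingL1 ξ x + sgn (x h) * ξ h := by
  unfold pairingL1
  rw [← sub_eq_iff_eq_add', ← (summable_pairing hξ _).tsum_sub (summable_pairing hξ x),
    tsum_eq_single h]
  · cases hx : x h <;> simp [flipAt, hx, val, sgn]
  · intro i hi
    simp [flipAt, hi]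

end

theorem h1Vanishes_of_invertible {G : Type} [Group G] [Countable G] [Infinite G]
    (hG : Superrigid (shift : G → (G → Bool) → (G → Bool)) (bern G coin))
    {f : MonoidAlgebra ℤ G} (hf : InvertibleL1 f) : H1Vanishes f := by
  classical
  obtain ⟨u, hu, hfu, huf⟩ := real_inverse hf
  intro c hc
  choose r hr using fun g => Submodule.Quotient.mk_surjective _ (c g)
  have hmod : ∀ (g : G) (s : MonoidAlgebra ℤ G), modAct f g (Submodule.Quotient.mk s) =
      Submodule.Quotient.mk (MonoidAlgebra.single g 1 * s) := fun g s => rfl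
  set ξ : G → G → ℝ := fun g => lconv (r g) u with hξ
  have hξs : ∀ g, Summable (ξ g) := fun g => summable_lconv _ hu
  have hξc : ∀ g₁ g₂, ∃ z : MonoidAlgebra ℤ G, ∀ h,
      ξ (g₁ * g₂) h = (ξ g₁ h + ξ g₂ (g₁⁻¹ * h)) + ((z.coeff h : ℤ) : ℝ) := by
    intro g₁ g₂
    have h1 := hc g₁ g₂
    rw [← hr, ← hr, ← hr, hmod, ← Submodule.Quotient.mk_add, Submodule.Quotient.eq,
      Submodule.mem_span_singleton] at h1
    obtain ⟨z, hz⟩ := h1
    refine ⟨z, fun h => ?_⟩
    have h2 := congrArg (fun s => lconv s u h) hz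
    simp only [smul_eq_mul] at h2
    rw [lconv_mul, hfu, lconv_one, lconv_sub, lconv_add, lconv_single_mul] at h2
    simp only [hξ]
    rw [h2]
    push_cast
    ring
  set ω : G → (G → Bool) → UnitAddCircle := fun g x => ((pairingL1 (ξ g) x : ℝ) : UnitAddCircle)
    with hω
  have hcoe : Continuous (fun t : ℝ => (t : UnitAddCircle)) := AddCircle.continuous_mk' 1
  have hωc : IsCocycle shift (bern G coin) ω := by
    refine ⟨fun g => (hcoe.comp (continuous_pairing (hξs g))).measurable, fun g₁ g₂ => ?_⟩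
    refine ae_of_all _ fun x => ?_
    obtain ⟨z, hz⟩ := hξc g₁ g₂
    have s2 : Summable fun h => ξ g₂ (g₁⁻¹ * h) := (Equiv.mulLeft g₁⁻¹).summable_iff.2 (hξs g₂)
    simp only [hω]
    rw [funext hz, pairing_add ((hξs g₁).add s2) (summable_coeff z), pairing_add (hξs g₁) s2,
      pairing_translate, AddCircle.coe_add, AddCircle.coe_add, pairing_coeff, add_zero]
  obtain ⟨χ, b, -, hb, hcob⟩ := hG ω hωc
  set β : G → (G → Bool) → UnitAddCircle := fun h x => sgn (x h) • (b (flipAt h x) - b x) with hβ
  have hβm : ∀ h, Measurable (β h) := by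
    intro h
    have h1 : Measurable fun x : G → Bool => b (flipAt h x) - b x :=
      (hb.comp (mp_flipAt h).measurable).sub hb
    have h2 : β h = fun x => if x h = true then -(b (flipAt h x) - b x)
        else (b (flipAt h x) - b x) := by
      funext x
      simp only [hβ]
      cases x h <;> simp [sgn]
    rw [h2]
    have h3 : MeasurableSet ((fun x : G → Bool => x h) ⁻¹' {true}) :=
      measurable_pi_apply h (measurableSet_singleton true)
    exact Measurable.ite h3 h1.neg h1
  have hkey : ∀ g h, ∀ᵐ x ∂(bern G coin),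
      ((ξ g h : ℝ) : UnitAddCircle) = β (g⁻¹ * h) (shift g⁻¹ x) - β h x := by
    intro g h
    filter_upwards [hcob g, (mp_flipAt h).quasiMeasurePreserving.ae (hcob g)] with x h1 h2
    have e1 : shift g⁻¹ (flipAt h x) = flipAt (g⁻¹ * h) (shift g⁻¹ x) := by
      funext i
      simp only [shift, flipAt, inv_inv, eq_inv_mul_iff_mul_eq]
    have e2 : shift g⁻¹ x (g⁻¹ * h) = x h := by simp [shift]
    simp only [hω] at h1 h2
    rw [pairing_flip (hξs g), AddCircle.coe_add, h1, e1] at h2
    simp only [hβ, e2]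
    have e3 : (((sgn (x h) : ℤ) * ξ g h : ℝ) : UnitAddCircle) =
        (b (flipAt (g⁻¹ * h) (shift g⁻¹ x)) - b (shift g⁻¹ x)) - (b (flipAt h x) - b x) := by
      rw [eq_sub_iff_add_eq.2 ((add_comm _ _).trans h2)]
      abel
    rw [← smul_sub, ← e3]
    cases x h <;> simp [sgn]
  have hE : Tendsto (fun h => dsq (bern G coin) (fun x => ex (β h x)) (fun _ => 1)) cofinite
      (𝓝 0) := by
    refine (tendsto_dsq_flip (BM.ex hb)).congr fun h => ?_
    unfold dsq
    congr 1
    funext x
    rw [norm_ex_sub_ex]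
    simp only [hβ]
    cases x h
    · simp [sgn]
    · simp only [sgn, if_true, neg_smul, one_smul, norm_ex_neg_sub_one]
  have hconst : ∀ h, ∃ a : UnitAddCircle, ∀ᵐ x ∂(bern G coin), β h x = a := by
    intro h
    refine ae_const_of_dsq _ (hβm h) fun ε hε => ?_
    obtain ⟨k, hk⟩ := (hE.eventually (gt_mem_nhds hε)).exists
    refine ⟨ex (-((ξ (h * k⁻¹) h : ℝ) : UnitAddCircle)), le_of_eq_of_le ?_ hk.le⟩
    rw [← dsq_comp (mp_shift coin (h * k⁻¹)⁻¹) (BM.ex (hβm k)).meas measurable_const]
    unfold dsq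
    refine integral_congr_ae ?_
    filter_upwards [hkey (h * k⁻¹) h] with x hx
    have e : (h * k⁻¹)⁻¹ * h = k := by group
    rw [e] at hx
    rw [norm_ex_sub_ex, hx]
    simp
  choose a ha using hconst
  have ha0 : Tendsto a cofinite (𝓝 0) := by
    apply tendsto_of_tendsto_ex
    rw [tendsto_iff_norm_sub_tendsto_zero]
    have h1 : ∀ h, dsq (bern G coin) (fun x => ex (β h x)) (fun _ => 1) = ‖ex (a h) - 1‖ ^ 2 := by
      intro h
      unfold dsq
      rw [integral_congr_ae (g := fun _ => ‖ex (a h) - 1‖ ^ 2)]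
      · simp
      · filter_upwards [ha h] with x hx
        rw [hx]
    have h2 := (hE.congr h1).sqrt
    simpa [Real.sqrt_sq (norm_nonneg _)] using h2
  have hξa : ∀ g h, ((ξ g h : ℝ) : UnitAddCircle) = a (g⁻¹ * h) - a h := by
    intro g h
    obtain ⟨x, h1, h2, h3⟩ := ((hkey g h).and ((ha h).and
      ((mp_shift coin g⁻¹).quasiMeasurePreserving.ae (ha (g⁻¹ * h))))).exists
    rw [h1, h2, h3]
  set B : G → ℝ := fun h => (AddCircle.equivIco (1 : ℝ) (-1 / 2) (a h) : ℝ) with hB
  have hBa : ∀ h, ((B h : ℝ) : UnitAddCircle) = a h := fun h => AddCircle.coe_equivIco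
  have hB0 : Tendsto B cofinite (𝓝 0) := by
    have hne : (0 : UnitAddCircle) ≠ ((-1 / 2 : ℝ) : UnitAddCircle) := by
      intro e
      obtain ⟨n, hn⟩ := (AddCircle.coe_eq_zero_iff 1).1 e.symm
      have h1 : ((2 * n : ℤ) : ℝ) = ((-1 : ℤ) : ℝ) := by
        simp only [zsmul_eq_mul, mul_one] at hn
        push_cast; rw [hn]; norm_num
      have h2 : 2 * n = -1 := by exact_mod_cast h1
      omega
    have h1 := (continuousAt_subtype_val.comp
      (AddCircle.continuousAt_equivIco (1 : ℝ) (-1 / 2) hne)).tendsto.comp ha0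
    have h2 : ((AddCircle.equivIco (1 : ℝ) (-1 / 2) (0 : UnitAddCircle) : ℝ)) = 0 :=
      AddCircle.equivIco_coe_of_mem (y := (0 : ℝ)) ⟨by norm_num, by norm_num⟩
    simp only [Function.comp_apply] at h1
    rw [h2] at h1
    exact h1
  have hz : ∀ g, ∃ z : MonoidAlgebra ℤ G, ∀ h,
      ((z.coeff h : ℤ) : ℝ) = ξ g h - (B (g⁻¹ * h) - B h) := by
    intro g
    refine exists_of_int_tendsto ?_ fun h => ?_
    · have := (hξs g).tendsto_cofinite_zero.sub
        ((hB0.comp (mul_right_injective g⁻¹).tendsto_cofinite).sub hB0)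
      simpa using this
    · rw [AddCircle.coe_sub, AddCircle.coe_sub, hBa, hBa, hξa, sub_self]
  choose z hz using hz
  have hmain : ∀ g h, (((z g * f).coeff h : ℤ) : ℝ) =
      ((r g).coeff h : ℤ) - (rconv B f (g⁻¹ * h) - rconv B f h) := by
    intro g h
    rw [← rconv_coeff, funext (hz g), rconv_sub, rconv_sub, rconv_translate]
    simp only [hξ]
    rw [rconv_lconv, huf, lconv_one]
  have hB' := tendsto_rconv hB0 f
  have hint : ∀ h, ((rconv B f h : ℝ) : UnitAddCircle) = 0 := by
    have h1 : ∀ k h, ((rconv B f k : ℝ) : UnitAddCircle) = ((rconv B f h : ℝ) : UnitAddCircle) := by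
      intro k h
      have h2 := congrArg (fun t : ℝ => (t : UnitAddCircle)) (hmain (h * k⁻¹) h)
      have e : (h * k⁻¹)⁻¹ * h = k := by group
      simp only [AddCircle.coe_sub, coe_intCast_circle, e] at h2
      rw [zero_sub, eq_comm, neg_eq_zero, sub_eq_zero] at h2
      exact h2
    intro h
    have h2 : Tendsto (fun k => ((rconv B f k : ℝ) : UnitAddCircle)) cofinite (𝓝 0) :=
      (hcoe.tendsto 0).comp hB'
    simp only [h1 _ h] at h2
    exact tendsto_const_nhds_iff.1 h2
  obtain ⟨m, hm⟩ := exists_of_int_tendsto hB' hint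
  refine ⟨Submodule.Quotient.mk m, fun g => ?_⟩
  rw [← hr, hmod, ← Submodule.Quotient.mk_sub, Submodule.Quotient.eq, Submodule.mem_span_singleton]
  refine ⟨z g, ?_⟩
  ext h
  have h1 := hmain g h
  rw [← hm, ← hm] at h1
  simp only [smul_eq_mul, MonoidAlgebra.coeff_sub, Finsupp.sub_apply,
    MonoidAlgebra.coeff_single_mul_apply, one_mul]
  exact_mod_cast h1

end Pool.Agent.Lib.MP_e62806_an
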