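import Pool.Agent.Lib.MP_e62806_an.L1

/-!
If the Bernoulli shift on `({0,1} × {0,1})^G` is cocycle superrigid and `f` has a square-summable
two-sided convolution inverse, then `H¹(G, ℤG/ℤGf) = 0`.
-/

open MeasureTheory Filter Topology
open scoped ENNReal

noncomputable section

namespace Pool.Agent.Lib.MP_e62806_an

/-- The uniform measure on `Bool × Bool`. -/
def coin2 : Measure (Bool × Bool) := coin.prod coin

instance : IsProbabilityMeasure coin2 := by unfold coin2; infer_instance

/-- The centred integer variable on a pair of coins. -/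
def val2 (p : Bool × Bool) : ℝ := val p.1 - val p.2

section

variable {G : Type} [DecidableEq G]

/-- Flipping the first coin of one coordinate. -/
def flip2 (h : G) (x : G → Bool × Bool) : G → Bool × Bool :=
  fun i => if i = h then (!(x i).1, (x i).2) else x i

/-- Exchanging the two coins of one coordinate. -/
def swap2 (h : G) (x : G → Bool × Bool) : G → Bool × Bool :=
  fun i => if i = h then (x i).swap else x i

lemma mp_flip2 (h : G) : MeasurePreserving (flip2 h) (bern G coin2) (bern G coin2) :=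
  mp_coord coin2 coin2 (f := fun i p => if i = h then (!p.1, p.2) else p) fun i => by
    by_cases hi : i = h
    · simp only [hi, if_true]; exact mp_not.prod (MeasurePreserving.id coin)
    · simp only [hi, if_false]; exact MeasurePreserving.id _

lemma mp_swap2 (h : G) : MeasurePreserving (swap2 h) (bern G coin2) (bern G coin2) :=
  mp_coord coin2 coin2 (f := fun i p => if i = h then p.swap else p) fun i => by
    by_cases hi : i = h
    · simp only [hi, if_true]; exact Measure.measurePreserving_swap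
    · simp only [hi, if_false]; exact MeasurePreserving.id _

lemma tendsto_dsq_flip2 {F : (G → Bool × Bool) → ℂ} (hF : BM F) :
    Tendsto (fun h => dsq (bern G coin2) (fun x => F (flip2 h x)) F) cofinite (𝓝 0) := by
  rw [Metric.tendsto_nhds]
  intro ε hε
  obtain ⟨A, η, hη, hA, hd⟩ := exists_cyl_approx coin2 hF (ε := ε / 8) (by positivity)
  filter_upwards [A.eventually_cofinite_notMem] with h hh
  rw [Real.dist_eq, sub_zero, abs_of_nonneg (dsq_nonneg _ _ _)]
  have h1 := dsq_triangle (bern G coin2) (hF.comp (mp_flip2 h).measurable) hη hF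
  have h2 : η = fun x => η (flip2 h x) := by
    funext x
    refine hA fun i hi => ?_
    have : i ≠ h := fun e => hh (e ▸ Finset.mem_coe.1 hi)
    simp [flip2, this]
  have h3 : dsq (bern G coin2) (fun x => F (flip2 h x)) η = dsq (bern G coin2) F η := by
    conv_lhs => rw [h2]
    exact dsq_comp (mp_flip2 h) hF.meas hη.meas
  rw [h3, dsq_comm _ η F] at h1
  linarith

end

section

variable {G : Type}

lemma measurable_val2 (h : G) : Measurable fun x : G → Bool × Bool => val2 (x h) :=
  (measurable_of_countable val2).comp (measurable_pi_apply h)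

lemma abs_val2_le (p : Bool × Bool) : ‖val2 p‖ ≤ 1 := by
  obtain ⟨a, b⟩ := p
  cases a <;> cases b <;> simp [val2, val]

lemma memLp_val2 (h : G) : MemLp (fun x : G → Bool × Bool => val2 (x h)) 2 (bern G coin2) :=
  MemLp.of_bound (measurable_val2 h).aestronglyMeasurable 1 (ae_of_all _ fun _ => abs_val2_le _)

/-- The coordinate variables as elements of `L²`. -/
def vL (h : G) : Lp ℝ 2 (bern G coin2) := (memLp_val2 h).toLp _

lemma coe_vL (h : G) : vL h =ᵐ[bern G coin2] fun x => val2 (x h) := MemLp.coeFn_toLp _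

lemma norm_vL_le (h : G) : ‖vL h‖ ≤ 1 := by
  have := Lp.norm_le_of_ae_bound (f := vL h) (C := 1) zero_le_one (by
    filter_upwards [coe_vL h] with x hx
    rw [hx]; exact abs_val2_le _)
  have h1 : measureUnivNNReal (bern G coin2) = 1 := by simp [measureUnivNNReal]
  simpa [h1] using this

/-- Composition with a measure preserving map. -/
def cmp (T : (G → Bool × Bool) → (G → Bool × Bool))
    (hT : MeasurePreserving T (bern G coin2) (bern G coin2)) :
    Lp ℝ 2 (bern G coin2) →ₗᵢ[ℝ] Lp ℝ 2 (bern G coin2) :=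
  Lp.compMeasurePreservingₗᵢ ℝ T hT

lemma coe_cmp (T : (G → Bool × Bool) → (G → Bool × Bool))
    (hT : MeasurePreserving T (bern G coin2) (bern G coin2)) (F : Lp ℝ 2 (bern G coin2)) :
    cmp T hT F =ᵐ[bern G coin2] fun x => F (T x) :=
  Lp.coeFn_compMeasurePreserving F hT

lemma coe_cmp_vL (T : (G → Bool × Bool) → (G → Bool × Bool))
    (hT : MeasurePreserving T (bern G coin2) (bern G coin2)) (k : G) :
    cmp T hT (vL k) =ᵐ[bern G coin2] fun x => val2 (T x k) := by
  filter_upwards [coe_cmp T hT (vL k), hT.quasiMeasurePreserving.ae (coe_vL k)] with x h1 h2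
  rw [h1, h2]

lemma inner_vL {h k : G} (hk : h ≠ k) : inner ℝ (vL h) (vL k) = 0 := by
  classical
  have h1 : cmp _ (mp_swap2 h) (vL h) = -vL h := by
    apply Lp.ext
    filter_upwards [coe_cmp_vL _ (mp_swap2 h) h, Lp.coeFn_neg (vL h), coe_vL h] with x a b c
    rw [a, b, Pi.neg_apply, c]
    simp [swap2, val2]
  have h2 : cmp _ (mp_swap2 h) (vL k) = vL k := by
    apply Lp.ext
    filter_upwards [coe_cmp_vL _ (mp_swap2 h) k, coe_vL k] with x a c
    rw [a, c]
    simp [swap2, hk.symm]
  have h3 := (cmp _ (mp_swap2 h)).inner_map_map (vL h) (vL k)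
  rw [h1, h2, inner_neg_left] at h3
  linarith

lemma summable_vL {ξ : G → ℝ} (hξ : Summable fun h => ξ h ^ 2) :
    Summable fun h => ξ h • vL h := by
  have ho : OrthogonalFamily ℝ (fun h : G => ↥(Submodule.span ℝ {vL h}))
      (fun h => (Submodule.span ℝ {vL h}).subtypeₗᵢ) := by
    refine OrthogonalFamily.of_pairwise fun h k hk => ?_
    simp only [Function.onFun, Submodule.isOrtho_span, Set.mem_singleton_iff]
    rintro _ rfl _ rfl
    exact inner_vL hk
  refine (ho.summable_iff_norm_sq_summable fun h =>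
    ⟨ξ h • vL h, Submodule.smul_mem _ _ (Submodule.mem_span_singleton_self _)⟩).2 ?_
  refine Summable.of_nonneg_of_le (fun h => by positivity) (fun h => ?_) hξ
  change ‖ξ h • vL h‖ ^ 2 ≤ _
  rw [norm_smul, mul_pow, Real.norm_eq_abs, sq_abs]
  have h1 := norm_vL_le h
  have h2 : ‖vL h‖ ^ 2 ≤ 1 := by nlinarith [norm_nonneg (vL h)]
  nlinarith [sq_nonneg (ξ h)]

/-- The `L²` pairing of a square-summable function with a random configuration. -/
def pairingL2 (ξ : G → ℝ) : Lp ℝ 2 (bern G coin2) := ∑' h, ξ h • vL h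

lemma pairingL2_add {ξ ζ : G → ℝ} (hξ : Summable fun h => ξ h ^ 2)
    (hζ : Summable fun h => ζ h ^ 2) :
    pairingL2 (fun h => ξ h + ζ h) = pairingL2 ξ + pairingL2 ζ := by
  unfold pairingL2
  rw [← (summable_vL hξ).tsum_add (summable_vL hζ)]
  simp only [add_smul]

lemma summable_sq_add {ξ ζ : G → ℝ} (hξ : Summable fun h => ξ h ^ 2)
    (hζ : Summable fun h => ζ h ^ 2) : Summable fun h => (ξ h + ζ h) ^ 2 :=
  Summable.of_nonneg_of_le (fun h => by positivity)
    (fun h => by nlinarith [sq_nonneg (ξ h - ζ h)]) ((hξ.mul_left 2).add (hζ.mul_left 2))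

lemma summable_sq_coeff (z : MonoidAlgebra ℤ G) :
    Summable fun h => ((z.coeff h : ℤ) : ℝ) ^ 2 :=
  summable_of_ne_finset_zero (s := z.coeff.support) fun h hh => by
    rw [Finsupp.notMem_support_iff.1 hh]; simp

lemma pairingL2_coeff (z : MonoidAlgebra ℤ G) : ∀ᵐ x ∂(bern G coin2),
    ((pairingL2 (fun h => ((z.coeff h : ℤ) : ℝ)) x : ℝ) : UnitAddCircle) = 0 := by
  classical
  unfold pairingL2
  rw [tsum_eq_sum (s := z.coeff.support) (fun h hh => by
    simp [Finsupp.notMem_support_iff.1 hh])]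
  induction z.coeff.support using Finset.induction_on with
  | empty =>
    filter_upwards [Lp.coeFn_zero ℝ 2 (bern G coin2)] with x hx
    rw [Finset.sum_empty, hx]
    simp
  | insert a s ha ih =>
    rw [Finset.sum_insert ha]
    filter_upwards [ih, Lp.coeFn_add (((z.coeff a : ℤ) : ℝ) • vL a)
      (∑ h ∈ s, ((z.coeff h : ℤ) : ℝ) • vL h), Lp.coeFn_smul ((z.coeff a : ℤ) : ℝ) (vL a),
      coe_vL a] with x h1 h2 h3 h4
    rw [h2, Pi.add_apply, AddCircle.coe_add, h1, add_zero, h3, Pi.smul_apply, h4, smul_eq_mul]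
    have : ((z.coeff a : ℤ) : ℝ) * val2 (x a) =
        ((z.coeff a * ((if (x a).1 then 1 else 0) - (if (x a).2 then 1 else 0)) : ℤ) : ℝ) := by
      cases h5 : (x a).1 <;> cases h6 : (x a).2 <;> simp [val2, val, h5, h6]
    rw [this, coe_intCast_circle]

lemma cmp_pairingL2 (T : (G → Bool × Bool) → (G → Bool × Bool))
    (hT : MeasurePreserving T (bern G coin2) (bern G coin2)) {ξ : G → ℝ}
    (hξ : Summable fun h => ξ h ^ 2) :
    cmp T hT (pairingL2 ξ) = ∑' h, ξ h • cmp T hT (vL h) := by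
  have := (cmp T hT).toContinuousLinearMap.map_tsum (summable_vL hξ)
  simpa [pairingL2] using this

lemma pairingL2_translate [Group G] {ξ : G → ℝ} (hξ : Summable fun h => ξ h ^ 2) (g : G) :
    ∀ᵐ x ∂(bern G coin2),
      pairingL2 (fun h => ξ (g⁻¹ * h)) x = pairingL2 ξ (shift g⁻¹ x) := by
  have h1 : ∀ k, cmp _ (mp_shift coin2 g⁻¹) (vL k) = vL (g * k) := by
    intro k
    apply Lp.ext
    filter_upwards [coe_cmp_vL _ (mp_shift coin2 g⁻¹) k, coe_vL (g * k)] with x a c
    rw [a, c]
    simp [shift]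
  have h2 : pairingL2 (fun h => ξ (g⁻¹ * h)) = cmp _ (mp_shift coin2 g⁻¹) (pairingL2 ξ) := by
    rw [cmp_pairingL2 _ _ hξ]
    unfold pairingL2
    rw [← (Equiv.mulLeft g).tsum_eq]
    simp [h1]
  rw [h2]
  exact coe_cmp _ _ _

lemma pairingL2_flip [DecidableEq G] {ξ : G → ℝ} (hξ : Summable fun h => ξ h ^ 2) (h : G) :
    ∀ᵐ x ∂(bern G coin2),
      pairingL2 ξ (flip2 h x) = pairingL2 ξ x + sgn (x h).1 * ξ h := by
  have h1 : ∀ k, k ≠ h → cmp _ (mp_flip2 h) (vL k) = vL k := by
    intro k hk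
    apply Lp.ext
    filter_upwards [coe_cmp_vL _ (mp_flip2 h) k, coe_vL k] with x a c
    rw [a, c]
    simp [flip2, hk]
  have hs : Summable fun k => ξ k • cmp _ (mp_flip2 h) (vL k) := by
    have := (cmp _ (mp_flip2 h)).toContinuousLinearMap.summable (summable_vL hξ)
    simpa using this
  have h2 : cmp _ (mp_flip2 h) (pairingL2 ξ) =
      pairingL2 ξ + ξ h • (cmp _ (mp_flip2 h) (vL h) - vL h) := by
    rw [cmp_pairingL2 _ _ hξ, ← sub_eq_iff_eq_add']
    unfold pairingL2
    rw [← hs.tsum_sub (summable_vL hξ), tsum_eq_single h]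
    · rw [smul_sub]
    · intro k hk
      rw [h1 k hk, sub_self]
  filter_upwards [coe_cmp _ (mp_flip2 h) (pairingL2 ξ),
    Lp.coeFn_add (pairingL2 ξ) (ξ h • (cmp _ (mp_flip2 h) (vL h) - vL h)),
    Lp.coeFn_smul (ξ h) (cmp _ (mp_flip2 h) (vL h) - vL h),
    Lp.coeFn_sub (cmp _ (mp_flip2 h) (vL h)) (vL h), coe_cmp_vL _ (mp_flip2 h) h, coe_vL h]
    with x a b c d e f
  rw [← a, h2, b, Pi.add_apply, c, Pi.smul_apply, d, Pi.sub_apply, e, f, smul_eq_mul]
  cases h5 : (x h).1 <;> cases h6 : (x h).2 <;> simp [flip2, val2, val, sgn, h5, h6]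

lemma summable_sq_lconv [Group G] (r : MonoidAlgebra ℤ G) {u : G → ℝ}
    (hu : Summable fun h => u h ^ 2) : Summable fun h => lconv r u h ^ 2 := by
  induction r using MonoidAlgebra.induction_linear with
  | zero => simp [summable_zero]
  | add a b ha hb =>
    simp only [lconv_add]
    exact summable_sq_add ha hb
  | single j m =>
    simp only [lconv_single, mul_pow]
    exact ((Equiv.mulLeft j⁻¹).summable_iff.2 hu).mul_left _

lemma tendsto_of_summable_sq {u : G → ℝ} (hu : Summable fun h => u h ^ 2) :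
    Tendsto u cofinite (𝓝 0) := by
  have h1 := hu.tendsto_cofinite_zero.sqrt
  rw [tendsto_zero_iff_norm_tendsto_zero]
  simpa [Real.sqrt_sq_eq_abs] using h1

end

theorem h1Vanishes_of_l2 {G : Type} [Group G] [Countable G] [Infinite G]
    (hG : Superrigid (shift : G → (G → Bool × Bool) → (G → Bool × Bool)) (bern G coin2))
    {f : MonoidAlgebra ℤ G} {u : G → ℝ} (hu : Summable fun h => u h ^ 2)
    (hfu : lconv f u = fun k => (((1 : MonoidAlgebra ℤ G).coeff k : ℤ) : ℝ))
    (huf : rconv u f = fun k => (((1 : MonoidAlgebra ℤ G).coeff k : ℤ) : ℝ)) :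
    H1Vanishes f := by
  classical
  intro c hc
  choose r hr using fun g => Submodule.Quotient.mk_surjective _ (c g)
  have hmod : ∀ (g : G) (s : MonoidAlgebra ℤ G), modAct f g (Submodule.Quotient.mk s) =
      Submodule.Quotient.mk (MonoidAlgebra.single g 1 * s) := fun g s => rfl
  set ξ : G → G → ℝ := fun g => lconv (r g) u with hξ
  have hξs : ∀ g, Summable fun h => ξ g h ^ 2 := fun g => summable_sq_lconv _ hu
  have hξc : ∀ g₁ g₂, ∃ z : MonoidAlgebra ℤ G, ∀ h,
      ξ (g₁ * g₂) h = (ξ g₁ h + ξ g₂ (g₁⁻¹ * h)) + ((z.coeff h : ℤ) : ℝ) := by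
    intro g₁ g₂
    have h1 := hc g₁ g₂
    rw [← hr, ← hr, ← hr, hmod, ← Submodule.Quotient.mk_add, Submodule.Quotient.eq,
      Submodule.mem_span_singleton] at h1
    obtain ⟨z, hz⟩ := h1
    refine ⟨z, fun h => ?_⟩
    have h2 := congrArg (fun s => lconv s u h) hz
    simp only [smul_eq_mul] at h2
    rw [lconv_mul, hfu, lconv_one, lconv_sub, lconv_add, lconv_single_mul] at h2
    simp only [hξ]
    rw [h2]
    push_cast
    ring
  set ω : G → (G → Bool × Bool) → UnitAddCircle := fun g x => ((pairingL2 (ξ g) x : ℝ) : UnitAddCircle)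
    with hω
  have hcoe : Continuous (fun t : ℝ => (t : UnitAddCircle)) := AddCircle.continuous_mk' 1
  have hωc : IsCocycle shift (bern G coin2) ω := by
    refine ⟨fun g => hcoe.measurable.comp (Lp.stronglyMeasurable _).measurable, fun g₁ g₂ => ?_⟩
    obtain ⟨z, hz⟩ := hξc g₁ g₂
    have s2 : Summable fun h => ξ g₂ (g₁⁻¹ * h) ^ 2 :=
      (Equiv.mulLeft g₁⁻¹).summable_iff.2 (hξs g₂)
    have e0 : pairingL2 (ξ (g₁ * g₂)) = (pairingL2 (ξ g₁) + pairingL2 fun h => ξ g₂ (g₁⁻¹ * h)) +
        pairingL2 fun h => ((z.coeff h : ℤ) : ℝ) := by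
      rw [funext hz, pairingL2_add (summable_sq_add (hξs g₁) s2) (summable_sq_coeff z),
        pairingL2_add (hξs g₁) s2]
    filter_upwards [Lp.coeFn_add (pairingL2 (ξ g₁) + pairingL2 fun h => ξ g₂ (g₁⁻¹ * h))
      (pairingL2 fun h => ((z.coeff h : ℤ) : ℝ)),
      Lp.coeFn_add (pairingL2 (ξ g₁)) (pairingL2 fun h => ξ g₂ (g₁⁻¹ * h)),
      pairingL2_translate (hξs g₂) g₁, pairingL2_coeff z] with x a1 a2 a3 a4
    simp only [hω]
    rw [e0, a1, Pi.add_apply, a2, Pi.add_apply, a3, AddCircle.coe_add, AddCircle.coe_add, a4,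
      add_zero]
  obtain ⟨χ, b, -, hb, hcob⟩ := hG ω hωc
  set β : G → (G → Bool × Bool) → UnitAddCircle := fun h x => sgn (x h).1 • (b (flip2 h x) - b x) with hβ
  have hβm : ∀ h, Measurable (β h) := by
    intro h
    have h1 : Measurable fun x : G → Bool × Bool => b (flip2 h x) - b x :=
      (hb.comp (mp_flip2 h).measurable).sub hb
    have h2 : β h = fun x => if (x h).1 = true then -(b (flip2 h x) - b x)
        else (b (flip2 h x) - b x) := by
      funext x
      simp only [hβ]
      cases (x h).1 <;> simp [sgn]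
    rw [h2]
    have h3 : MeasurableSet ((fun x : G → Bool × Bool => (x h).1) ⁻¹' {true}) :=
      (measurable_fst.comp (measurable_pi_apply h)) (measurableSet_singleton true)
    exact Measurable.ite h3 h1.neg h1
  have hkey : ∀ g h, ∀ᵐ x ∂(bern G coin2),
      ((ξ g h : ℝ) : UnitAddCircle) = β (g⁻¹ * h) (shift g⁻¹ x) - β h x := by
    intro g h
    filter_upwards [hcob g, (mp_flip2 h).quasiMeasurePreserving.ae (hcob g),
      pairingL2_flip (hξs g) h] with x h1 h2 h0
    have e1 : shift g⁻¹ (flip2 h x) = flip2 (g⁻¹ * h) (shift g⁻¹ x) := by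
      funext i
      simp only [shift, flip2, inv_inv, eq_inv_mul_iff_mul_eq]
    have e2 : shift g⁻¹ x (g⁻¹ * h) = x h := by simp [shift]
    simp only [hω] at h1 h2
    rw [h0, AddCircle.coe_add, h1, e1] at h2
    simp only [hβ, e2]
    have e3 : (((sgn (x h).1 : ℤ) * ξ g h : ℝ) : UnitAddCircle) =
        (b (flip2 (g⁻¹ * h) (shift g⁻¹ x)) - b (shift g⁻¹ x)) - (b (flip2 h x) - b x) := by
      rw [eq_sub_iff_add_eq.2 ((add_comm _ _).trans h2)]
      abel
    rw [← smul_sub, ← e3]
    cases (x h).1 <;> simp [sgn]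
  have hE : Tendsto (fun h => dsq (bern G coin2) (fun x => ex (β h x)) (fun _ => 1)) cofinite
      (𝓝 0) := by
    refine (tendsto_dsq_flip2 (BM.ex hb)).congr fun h => ?_
    unfold dsq
    congr 1
    funext x
    rw [norm_ex_sub_ex]
    simp only [hβ]
    cases (x h).1
    · simp [sgn]
    · simp only [sgn, if_true, neg_smul, one_smul, norm_ex_neg_sub_one]
  have hconst : ∀ h, ∃ a : UnitAddCircle, ∀ᵐ x ∂(bern G coin2), β h x = a := by
    intro h
    refine ae_const_of_dsq _ (hβm h) fun ε hε => ?_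
    obtain ⟨k, hk⟩ := (hE.eventually (gt_mem_nhds hε)).exists
    refine ⟨ex (-((ξ (h * k⁻¹) h : ℝ) : UnitAddCircle)), le_of_eq_of_le ?_ hk.le⟩
    rw [← dsq_comp (mp_shift coin2 (h * k⁻¹)⁻¹) (BM.ex (hβm k)).meas measurable_const]
    unfold dsq
    refine integral_congr_ae ?_
    filter_upwards [hkey (h * k⁻¹) h] with x hx
    have e : (h * k⁻¹)⁻¹ * h = k := by group
    rw [e] at hx
    rw [norm_ex_sub_ex, hx]
    simp
  choose a ha using hconst
  have ha0 : Tendsto a cofinite (𝓝 0) := by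
    apply tendsto_of_tendsto_ex
    rw [tendsto_iff_norm_sub_tendsto_zero]
    have h1 : ∀ h, dsq (bern G coin2) (fun x => ex (β h x)) (fun _ => 1) = ‖ex (a h) - 1‖ ^ 2 := by
      intro h
      unfold dsq
      rw [integral_congr_ae (g := fun _ => ‖ex (a h) - 1‖ ^ 2)]
      · simp
      · filter_upwards [ha h] with x hx
        rw [hx]
    have h2 := (hE.congr h1).sqrt
    simpa [Real.sqrt_sq (norm_nonneg _)] using h2
  have hξa : ∀ g h, ((ξ g h : ℝ) : UnitAddCircle) = a (g⁻¹ * h) - a h := by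
    intro g h
    obtain ⟨x, h1, h2, h3⟩ := ((hkey g h).and ((ha h).and
      ((mp_shift coin2 g⁻¹).quasiMeasurePreserving.ae (ha (g⁻¹ * h))))).exists
    rw [h1, h2, h3]
  set B : G → ℝ := fun h => (AddCircle.equivIco (1 : ℝ) (-1 / 2) (a h) : ℝ) with hB
  have hBa : ∀ h, ((B h : ℝ) : UnitAddCircle) = a h := fun h => AddCircle.coe_equivIco
  have hB0 : Tendsto B cofinite (𝓝 0) := by
    have hne : (0 : UnitAddCircle) ≠ ((-1 / 2 : ℝ) : UnitAddCircle) := by
      intro e
      obtain ⟨n, hn⟩ := (AddCircle.coe_eq_zero_iff 1).1 e.symm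
      have h1 : ((2 * n : ℤ) : ℝ) = ((-1 : ℤ) : ℝ) := by
        simp only [zsmul_eq_mul, mul_one] at hn
        push_cast; rw [hn]; norm_num
      have h2 : 2 * n = -1 := by exact_mod_cast h1
      omega
    have h1 := (continuousAt_subtype_val.comp
      (AddCircle.continuousAt_equivIco (1 : ℝ) (-1 / 2) hne)).tendsto.comp ha0
    have h2 : ((AddCircle.equivIco (1 : ℝ) (-1 / 2) (0 : UnitAddCircle) : ℝ)) = 0 :=
      AddCircle.equivIco_coe_of_mem (y := (0 : ℝ)) ⟨by norm_num, by norm_num⟩
    simp only [Function.comp_apply] at h1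
    rw [h2] at h1
    exact h1
  have hz : ∀ g, ∃ z : MonoidAlgebra ℤ G, ∀ h,
      ((z.coeff h : ℤ) : ℝ) = ξ g h - (B (g⁻¹ * h) - B h) := by
    intro g
    refine exists_of_int_tendsto ?_ fun h => ?_
    · have := (tendsto_of_summable_sq (hξs g)).sub
        ((hB0.comp (mul_right_injective g⁻¹).tendsto_cofinite).sub hB0)
      simpa using this
    · rw [AddCircle.coe_sub, AddCircle.coe_sub, hBa, hBa, hξa, sub_self]
  choose z hz using hz
  have hmain : ∀ g h, (((z g * f).coeff h : ℤ) : ℝ) =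
      ((r g).coeff h : ℤ) - (rconv B f (g⁻¹ * h) - rconv B f h) := by
    intro g h
    rw [← rconv_coeff, funext (hz g), rconv_sub, rconv_sub, rconv_translate]
    simp only [hξ]
    rw [rconv_lconv, huf, lconv_one]
  have hB' := tendsto_rconv hB0 f
  have hint : ∀ h, ((rconv B f h : ℝ) : UnitAddCircle) = 0 := by
    have h1 : ∀ k h, ((rconv B f k : ℝ) : UnitAddCircle) = ((rconv B f h : ℝ) : UnitAddCircle) := by
      intro k h
      have h2 := congrArg (fun t : ℝ => (t : UnitAddCircle)) (hmain (h * k⁻¹) h)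
      have e : (h * k⁻¹)⁻¹ * h = k := by group
      simp only [AddCircle.coe_sub, coe_intCast_circle, e] at h2
      rw [zero_sub, eq_comm, neg_eq_zero, sub_eq_zero] at h2
      exact h2
    intro h
    have h2 : Tendsto (fun k => ((rconv B f k : ℝ) : UnitAddCircle)) cofinite (𝓝 0) :=
      (hcoe.tendsto 0).comp hB'
    simp only [h1 _ h] at h2
    exact tendsto_const_nhds_iff.1 h2
  obtain ⟨m, hm⟩ := exists_of_int_tendsto hB' hint
  refine ⟨Submodule.Quotient.mk m, fun g => ?_⟩
  rw [← hr, hmod, ← Submodule.Quotient.mk_sub, Submodule.Quotient.eq, Submodule.mem_span_singleton]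
  refine ⟨z g, ?_⟩
  ext h
  have h1 := hmain g h
  rw [← hm, ← hm] at h1
  simp only [smul_eq_mul, MonoidAlgebra.coeff_sub, Finsupp.sub_apply,
    MonoidAlgebra.coeff_single_mul_apply, one_mul]
  exact_mod_cast h1

end Pool.Agent.Lib.MP_e62806_an
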