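import Pool.Agent.Lib.MP_e62806_an.Conv
import Pool.Agent.Lib.MP_e62806_an.Gap

/-!
Resampling operators on a Bernoulli space and the spectral gap estimate for twisted Koopman
operators of two free generators.
-/

open MeasureTheory Filter Topology
open scoped ENNReal Pointwise

noncomputable section

namespace Pool.Agent.Lib.MP_e62806_an

/-- The real vector space of bounded measurable functions. -/
def BMS (Ω : Type) [MeasurableSpace Ω] : Submodule ℝ (Ω → ℂ) where
  carrier := {ξ | BM ξ}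
  add_mem' := fun hξ hη => BM.add hξ hη
  zero_mem' := BM.const 0
  smul_mem' := fun c _ hξ => (BM.const (c : ℂ)).mul hξ

section Form

variable {Ω : Type} [MeasurableSpace Ω] (μ : Measure Ω) [IsProbabilityMeasure μ]

/-- The real inner product of bounded measurable functions. -/
def form : BMS Ω →ₗ[ℝ] BMS Ω →ₗ[ℝ] ℝ :=
  LinearMap.mk₂ ℝ (fun ξ η => (∫ ω, (starRingEnd ℂ) (ξ.1 ω) * η.1 ω ∂μ).re)
    (fun ξ ξ' η => by
      rw [← Complex.add_re, ← integral_add ((BM.mul (BM.conj ξ.2) η.2).integrable μ)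
        ((BM.mul (BM.conj ξ'.2) η.2).integrable μ)]
      simp [add_mul])
    (fun c ξ η => by
      rw [smul_eq_mul, ← Complex.re_ofReal_mul, ← integral_const_mul]
      simp [mul_assoc])
    (fun ξ η η' => by
      rw [← Complex.add_re, ← integral_add ((BM.mul (BM.conj ξ.2) η.2).integrable μ)
        ((BM.mul (BM.conj ξ.2) η'.2).integrable μ)]
      simp [mul_add])
    (fun c ξ η => by
      rw [smul_eq_mul, ← Complex.re_ofReal_mul, ← integral_const_mul]
      simp [mul_left_comm])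

lemma form_apply (ξ η : BMS Ω) :
    form μ ξ η = (∫ ω, (starRingEnd ℂ) (ξ.1 ω) * η.1 ω ∂μ).re := rfl

lemma form_self (ξ : BMS Ω) : form μ ξ ξ = ∫ ω, ‖ξ.1 ω‖ ^ 2 ∂μ := by
  rw [form_apply]
  simp only [Complex.conj_mul']
  have : ∀ ω, ((‖ξ.1 ω‖ : ℂ)) ^ 2 = ((‖ξ.1 ω‖ ^ 2 : ℝ) : ℂ) := fun ω => by push_cast; rfl
  simp only [this]
  rw [integral_complex_ofReal, Complex.ofReal_re]

lemma form_sub_self (ξ η : BMS Ω) : form μ (ξ - η) (ξ - η) = dsq μ ξ.1 η.1 := by
  rw [form_self]; rfl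

lemma form_symm (ξ η : BMS Ω) : form μ ξ η = form μ η ξ := by
  rw [form_apply, form_apply, ← Complex.conj_re, ← integral_conj]
  simp [mul_comm]

/-- A twisted Koopman operator. -/
def twist {a : Ω → UnitAddCircle} (ha : Measurable a) {T : Ω → Ω} (hT : Measurable T) :
    BMS Ω →ₗ[ℝ] BMS Ω where
  toFun ξ := ⟨fun ω => ex (a ω) * ξ.1 (T ω), (BM.ex ha).mul (BM.comp ξ.2 hT)⟩
  map_add' ξ η := by ext ω; simp [mul_add]
  map_smul' c ξ := by ext ω; simp [mul_left_comm]

lemma form_twist {a : Ω → UnitAddCircle} (ha : Measurable a) {T : Ω → Ω}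
    (hT : MeasurePreserving T μ μ) (ξ : BMS Ω) :
    form μ (twist ha hT.measurable ξ) (twist ha hT.measurable ξ) = form μ ξ ξ := by
  rw [form_self, form_self]
  have hm : Measurable (fun ω => ‖ξ.1 ω‖ ^ 2) := (BM.meas ξ.2).norm.pow_const 2
  conv_rhs => rw [← hT.map_eq, integral_map hT.measurable.aemeasurable hm.aestronglyMeasurable]
  simp [twist]

end Form

section Mix

variable {ι Y Z : Type} [DecidableEq ι] [MeasurableSpace Y] [MeasurableSpace Z]

/-- Resample the second components outside `C`. -/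
def mix (C : Finset ι) (p : (ι → Y × Z) × (ι → Z)) : ι → Y × Z :=
  fun g => if g ∈ C then p.1 g else ((p.1 g).1, p.2 g)

/-- The discarded components. -/
def comix (C : Finset ι) (p : (ι → Y × Z) × (ι → Z)) : ι → Z :=
  fun g => if g ∈ C then p.2 g else (p.1 g).2

lemma measurable_mix (C : Finset ι) :
    Measurable (mix C : (ι → Y × Z) × (ι → Z) → (ι → Y × Z)) := by
  refine measurable_pi_lambda _ fun g => ?_
  unfold mix
  split_ifs <;> fun_prop

variable (ρ : Measure Y) (τ : Measure Z) [IsProbabilityMeasure ρ] [IsProbabilityMeasure τ]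

omit [DecidableEq ι] in
lemma mp_exchange : MeasurePreserving (fun q : (Y × Z) × Z => ((q.1.1, q.2), q.1.2))
    ((ρ.prod τ).prod τ) ((ρ.prod τ).prod τ) :=
  ((measurePreserving_prodAssoc ρ τ τ).symm _).comp
    (((MeasurePreserving.id ρ).prod Measure.measurePreserving_swap).comp
      (measurePreserving_prodAssoc ρ τ τ))

lemma mp_mix_comix (C : Finset ι) :
    MeasurePreserving (fun p : (ι → Y × Z) × (ι → Z) => (mix C p, comix C p))
      ((bern ι (ρ.prod τ)).prod (bern ι τ)) ((bern ι (ρ.prod τ)).prod (bern ι τ)) := by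
  have h1 := mp_coord₂ (ι := ι) (ρ.prod τ) τ ((ρ.prod τ).prod τ)
    (f := fun g q => if g ∈ C then q else ((q.1.1, q.2), q.1.2)) (fun g => by
      by_cases h : g ∈ C
      · simp only [h, if_true]; exact MeasurePreserving.id _
      · simp only [h, if_false]; exact mp_exchange ρ τ)
  have h2 := (mp_unzip (ι := ι) (ρ.prod τ) τ).comp h1
  have e : (fun p : (ι → Y × Z) × (ι → Z) => (mix C p, comix C p)) =
      (fun (x : ι → (Y × Z) × Z) => ((fun i => (x i).1), (fun i => (x i).2))) ∘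
        (fun (p : (ι → Y × Z) × (ι → Z)) (i : ι) =>
          if i ∈ C then (p.1 i, p.2 i) else (((p.1 i).1, p.2 i), (p.1 i).2)) := by
    funext p
    refine Prod.ext ?_ ?_ <;> funext g <;> simp only [mix, comix, Function.comp_apply] <;>
      split_ifs <;> rfl
  rw [e]
  exact h2

/-- The resampling operator on functions. -/
def resFun (C : Finset ι) (ξ : (ι → Y × Z) → ℂ) (ω : ι → Y × Z) : ℂ :=
  ∫ z, ξ (mix C (ω, z)) ∂(bern ι τ)

lemma BM.resFun (C : Finset ι) {ξ : (ι → Y × Z) → ℂ} (hξ : BM ξ) : BM (resFun τ C ξ) := by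
  obtain ⟨M, hM⟩ := hξ.bdd
  refine ⟨((hξ.meas.comp (measurable_mix C)).stronglyMeasurable.integral_prod_right').measurable,
    M, fun ω => ?_⟩
  have := norm_integral_le_of_norm_le_const (μ := bern ι τ) (f := fun z => ξ (mix C (ω, z)))
    (ae_of_all _ fun z => hM _)
  rw [probReal_univ, mul_one] at this
  exact this

lemma BM.slice (C : Finset ι) {ξ : (ι → Y × Z) → ℂ} (hξ : BM ξ) (ω : ι → Y × Z) :
    BM (fun z : ι → Z => ξ (mix C (ω, z))) :=
  hξ.comp ((measurable_mix C).comp measurable_prodMk_left)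

/-- The resampling operator. -/
def res (C : Finset ι) : BMS (ι → Y × Z) →ₗ[ℝ] BMS (ι → Y × Z) where
  toFun ξ := ⟨resFun τ C ξ.1, BM.resFun τ C ξ.2⟩
  map_add' ξ η := by
    ext ω
    exact integral_add ((BM.slice C ξ.2 ω).integrable _) ((BM.slice C η.2 ω).integrable _)
  map_smul' c ξ := by
    ext ω
    exact integral_smul c _

lemma res_mul (C D : Finset ι) (ξ : BMS (ι → Y × Z)) : res τ C (res τ D ξ) = res τ (C ∩ D) ξ := by
  ext ω
  change ∫ z, ∫ z', ξ.1 (mix D (mix C (ω, z), z')) ∂(bern ι τ) ∂(bern ι τ) =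
    ∫ z, ξ.1 (mix (C ∩ D) (ω, z)) ∂(bern ι τ)
  have e : ∀ z z', mix D (mix C (ω, z), z') = mix (C ∩ D) (ω, sel D (z, z')) := by
    intro z z'
    funext g
    simp only [mix, sel, Finset.mem_inter]
    by_cases h1 : g ∈ C <;> by_cases h2 : g ∈ D <;> simp [h1, h2]
  simp only [e]
  have hs := BM.slice (C ∩ D) ξ.2 ω
  rw [← integral_comp_mp (mp_sel τ D) hs.meas,
    integral_prod _ ((hs.comp (mp_sel τ D).measurable).integrable _)]

lemma res_adj (C : Finset ι) (ξ η : BMS (ι → Y × Z)) :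
    form (bern ι (ρ.prod τ)) (res τ C ξ) η = form (bern ι (ρ.prod τ)) ξ (res τ C η) := by
  rw [form_apply, form_apply]
  congr 1
  have hF : BM (fun p : (ι → Y × Z) × (ι → Z) => (starRingEnd ℂ) (ξ.1 p.1) * η.1 (mix C p)) :=
    (BM.comp (BM.conj ξ.2) measurable_fst).mul (BM.comp η.2 (measurable_mix C))
  have hF' : BM (fun p : (ι → Y × Z) × (ι → Z) => (starRingEnd ℂ) (ξ.1 (mix C p)) * η.1 p.1) :=
    (BM.comp (BM.conj ξ.2) (measurable_mix C)).mul (BM.comp η.2 measurable_fst)
  have h1 := integral_comp_mp (mp_mix_comix ρ τ C) hF.meas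
  have e : ∀ p : (ι → Y × Z) × (ι → Z), mix C (mix C p, comix C p) = p.1 := by
    intro p
    funext g
    simp only [mix, comix]
    split_ifs <;> rfl
  simp only [e] at h1
  rw [integral_prod _ (hF.integrable _), integral_prod _ (hF'.integrable _)] at h1
  simp only [integral_const_mul, integral_mul_const, integral_conj] at h1
  exact h1

lemma res_of_dependsOn {A : Finset ι} {η : BMS (ι → Y × Z)} (hA : DependsOn η.1 (A : Set ι)) :
    res τ A η = η := by
  ext ω
  change ∫ z, η.1 (mix A (ω, z)) ∂(bern ι τ) = η.1 ω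
  have : ∀ z, η.1 (mix A (ω, z)) = η.1 ω := fun z =>
    hA fun i hi => by simp [mix, Finset.mem_coe.1 hi]
  simp [this]

end Mix

theorem gap_bern {G Y Z : Type} [Group G] [DecidableEq G] [MeasurableSpace Y] [MeasurableSpace Z]
    (φ : FreeGroup (Fin 2) →* G) (hφ : Function.Injective φ)
    (ρ : Measure Y) (τ : Measure Z) [IsProbabilityMeasure ρ] [IsProbabilityMeasure τ]
    (a : Fin 2 → (G → Y × Z) → UnitAddCircle) (ha : ∀ i, Measurable (a i))
    (haY : ∀ i ω ω', (∀ g, (ω g).1 = (ω' g).1) → a i ω = a i ω')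
    {ξ : (G → Y × Z) → ℂ} (hξ : BM ξ) :
    dsq (bern G (ρ.prod τ)) ξ (resFun τ ∅ ξ) ≤
      24 * (dsq (bern G (ρ.prod τ)) ξ
              (fun ω => ex (a 0 ω) * ξ (shift (φ (FreeGroup.of 0))⁻¹ ω)) +
            dsq (bern G (ρ.prod τ)) ξ
              (fun ω => ex (a 1 ω) * ξ (shift (φ (FreeGroup.of 1))⁻¹ ω))) := by
  set μ := bern G (ρ.prod τ) with hμ
  obtain ⟨E, hE⟩ := exists_powerset_sum (fun C : Finset G => res (Y := Y) τ C)
  have hES : ESData (form μ) (fun C : Finset G => res (Y := Y) τ C) E :=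
    ⟨form_symm μ, fun x => by rw [form_self]; exact integral_nonneg fun ω => by positivity,
      res_mul τ, res_adj ρ τ, fun A x => by rw [← LinearMap.sum_apply, hE]⟩
  obtain ⟨lab, hlab⟩ := exists_label φ hφ
  let π : Fin 2 → BMS (G → Y × Z) →ₗ[ℝ] BMS (G → Y × Z) := fun i =>
    twist (ha i) (mp_shift (ρ.prod τ) (φ (FreeGroup.of i))⁻¹).measurable
  have hπβ : ∀ i x, form μ (π i x) (π i x) = form μ x x := fun i x =>
    form_twist μ (ha i) (mp_shift (ρ.prod τ) _) x
  have hπ : ∀ i (A : Finset G) x, π i (res τ A x) =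
      res τ (MulAction.toPerm (φ (FreeGroup.of i)) A) (π i x) := by
    intro i A x
    ext ω
    set h := φ (FreeGroup.of i) with hh
    change ex (a i ω) * ∫ z, x.1 (mix A (shift h⁻¹ ω, z)) ∂(bern G τ) =
      ∫ z, ex (a i (mix (h • A) (ω, z))) * x.1 (shift h⁻¹ (mix (h • A) (ω, z))) ∂(bern G τ)
    have e1 : ∀ z, a i (mix (h • A) (ω, z)) = a i ω := fun z =>
      haY i _ _ fun g => by simp only [mix]; split_ifs <;> rfl
    have e2 : ∀ z, shift h⁻¹ (mix (h • A) (ω, z)) = mix A (shift h⁻¹ ω, shift h⁻¹ z) := by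
      intro z
      funext g
      have : h * g ∈ h • A ↔ g ∈ A := Finset.smul_mem_smul_finset_iff h
      simp only [shift, mix, inv_inv, this]
    simp only [e1, e2]
    rw [integral_const_mul, integral_comp_mp (mp_shift τ h⁻¹) (BM.slice A x.2 _).meas]
  have hgap := hES.gap lab (fun i => MulAction.toPerm (φ (FreeGroup.of i)))
    (fun i A B => Finset.smul_finset_subset_smul_finset_iff) π hπ hπβ hlab
  let x : BMS (G → Y × Z) := ⟨ξ, hξ⟩
  have q2 : ∀ u v : BMS (G → Y × Z),
      form μ (u + v) (u + v) ≤ 2 * form μ u u + 2 * form μ v v := by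
    intro u v
    have h1 := hES.psd (u - v)
    simp only [map_sub, map_add, LinearMap.sub_apply, LinearMap.add_apply] at h1 ⊢
    linarith
  have qneg : ∀ u : BMS (G → Y × Z), form μ (-u) (-u) = form μ u u := fun u => by simp
  have qP : ∀ u : BMS (G → Y × Z), form μ (u - res τ ∅ u) (u - res τ ∅ u) ≤ form μ u u := by
    intro u
    have h1 : form μ (res τ ∅ u) (res τ ∅ u) = form μ u (res τ ∅ u) := by
      rw [res_adj, res_mul, Finset.inter_self]
    have h2 := hES.psd (res τ ∅ u)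
    simp only [map_sub, LinearMap.sub_apply]
    rw [form_symm μ (res τ ∅ u) u]
    linarith
  change dsq μ x.1 (res τ ∅ x).1 ≤ 24 * (dsq μ x.1 (π 0 x).1 + dsq μ x.1 (π 1 x).1)
  rw [← form_sub_self, ← form_sub_self, ← form_sub_self]
  refine le_of_forall_pos_le_add fun ε hε => ?_
  obtain ⟨A, η, hη, hA, hd⟩ := exists_cyl_approx (ρ.prod τ) hξ (ε := ε / 200) (by positivity)
  let y : BMS (G → Y × Z) := ⟨η, hη⟩
  have hd' : form μ (x - y) (x - y) ≤ ε / 200 := by rw [form_sub_self]; exact hd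
  have g1 := hgap A y (res_of_dependsOn τ hA)
  have g2 := q2 (y - res τ ∅ y) ((x - y) - res τ ∅ (x - y))
  have e2 : y - res τ ∅ y + ((x - y) - res τ ∅ (x - y)) = x - res τ ∅ x := by
    rw [map_sub]; abel
  rw [e2] at g2
  have g3 := qP (x - y)
  have g4 : ∀ i, form μ (y - π i y) (y - π i y) ≤
      2 * form μ (x - π i x) (x - π i x) + 8 * (ε / 200) := by
    intro i
    have h1 := q2 (x - π i x) (-(x - y) + π i (x - y))
    have e3 : x - π i x + (-(x - y) + π i (x - y)) = y - π i y := by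
      rw [map_sub]; abel
    rw [e3] at h1
    have h2 := q2 (-(x - y)) (π i (x - y))
    rw [qneg, hπβ] at h2
    linarith
  have := g4 0
  have := g4 1
  linarith

end Pool.Agent.Lib.MP_e62806_an
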