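import Pool.Agent.Lib.MP_e62806_an.Conv

/-!
Invariant functions of Bernoulli shifts over infinite groups, uniqueness of invariant probability
measures, and descent of cocycle superrigidity along an equivariant retraction onto a group of
translations.
-/

open MeasureTheory Filter Topology
open scoped ENNReal

noncomputable section

namespace Pool.Agent.Lib.MP_e62806_an

lemma exists_mul_disjoint {G : Type} [Group G] [Infinite G] (A : Finset G) :
    ∃ g : G, ∀ a ∈ A, g * a ∉ A := by
  classical
  obtain ⟨g, hg⟩ := Infinite.exists_notMem_finset ((A ×ˢ A).image fun p : G × G => p.2 * p.1⁻¹)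
  refine ⟨g, fun a ha hb => hg ?_⟩
  rw [Finset.mem_image]
  exact ⟨(a, g * a), Finset.mem_product.2 ⟨ha, hb⟩, by simp⟩

/-- An invariant circle valued function of a Bernoulli shift is constant. -/
theorem bern_const {G W : Type} [Group G] [Infinite G] [MeasurableSpace W] (ρ : Measure W)
    [IsProbabilityMeasure ρ] {F : (G → W) → UnitAddCircle} (hF : Measurable F)
    (hinv : ∀ g : G, ∀ᵐ x ∂(bern G ρ), F (shift g x) = F x) :
    ∃ κ : UnitAddCircle, ∀ᵐ x ∂(bern G ρ), F x = κ := by
  classical
  refine ae_const_of_dsq _ hF fun ε hε => ?_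
  have hE := BM.ex hF
  obtain ⟨A, η, hη, hA, hd⟩ := exists_cyl_approx ρ hE (ε := ε / 10) (by positivity)
  obtain ⟨g, hg⟩ := exists_mul_disjoint A
  have hT := mp_shift ρ g⁻¹
  have hηT : BM fun x => η (shift g⁻¹ x) := hη.comp hT.measurable
  have h1 : dsq (bern G ρ) (fun x => ex (F x)) (fun x => η (shift g⁻¹ x)) ≤ ε / 10 := by
    refine le_of_eq_of_le ?_ hd
    rw [← dsq_comp hT hE.meas hη.meas]
    unfold dsq
    refine integral_congr_ae ?_
    filter_upwards [hinv g⁻¹] with x hx
    rw [hx]
  have h2 : dsq (bern G ρ) η (fun x => η (shift g⁻¹ x)) ≤ 4 * (ε / 10) := by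
    have := dsq_triangle (bern G ρ) hη hE hηT
    rw [dsq_comm _ η fun x => ex (F x)] at this
    linarith
  have h3 : dsq (bern G ρ) η (fun x => η (shift g⁻¹ x)) =
      ∫ p, ‖η p.1 - η (shift g⁻¹ p.2)‖ ^ 2 ∂((bern G ρ).prod (bern G ρ)) := by
    rw [← dsq_comp (mp_sel ρ A) hη.meas hηT.meas]
    unfold dsq
    congr 1
    funext p
    have a1 : η (sel A p) = η p.1 := hA fun i hi => by simp [sel, Finset.mem_coe.1 hi]
    have a2 : η (shift g⁻¹ (sel A p)) = η (shift g⁻¹ p.2) := hA fun i hi => by
      simp [sel, shift, hg i (Finset.mem_coe.1 hi)]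
    simp only [a1, a2]
  have hB : BM fun p : (G → W) × (G → W) => η p.1 - η (shift g⁻¹ p.2) :=
    (hη.comp measurable_fst).sub (hηT.comp measurable_snd)
  have hI := hB.integrable_sq ((bern G ρ).prod (bern G ρ))
  rw [integral_prod_symm _ hI] at h3
  obtain ⟨y, hy⟩ := exists_le_integral hI.integral_prod_right
  refine ⟨η (shift g⁻¹ y), ?_⟩
  have h4 := dsq_triangle (bern G ρ) hE hη (BM.const (η (shift g⁻¹ y)))
  have h5 : dsq (bern G ρ) η (fun _ => η (shift g⁻¹ y)) ≤ 4 * (ε / 10) := by
    refine le_trans ?_ h2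
    rw [h3]
    exact hy
  linarith

/-- A probability measure invariant under almost every translation is the invariant one. -/
theorem eq_of_ae_invariant {X : Type} [AddCommGroup X] [MeasurableSpace X] [MeasurableAdd₂ X]
    (m l : Measure X) [IsProbabilityMeasure m] [IsProbabilityMeasure l]
    (hl : ∀ w, MeasurePreserving (fun z => w + z) l l)
    (hm : ∀ᵐ z ∂l, MeasurePreserving (fun w => w + z) m m) : m = l := by
  ext A hA
  have hS : MeasurableSet {p : X × X | p.1 + p.2 ∈ A} := measurable_add hA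
  have h1 : (m.prod l) {p : X × X | p.1 + p.2 ∈ A} = l A := by
    rw [Measure.prod_apply hS]
    have : ∀ w, l (Prod.mk w ⁻¹' {p : X × X | p.1 + p.2 ∈ A}) = l A := fun w =>
      (hl w).measure_preimage hA.nullMeasurableSet
    simp only [this]
    simp
  have h2 : (m.prod l) {p : X × X | p.1 + p.2 ∈ A} = m A := by
    rw [Measure.prod_apply_symm hS, lintegral_congr_ae (g := fun _ => m A)]
    · simp
    · filter_upwards [hm] with z hz
      exact hz.measure_preimage hA.nullMeasurableSet
  rw [← h1, h2]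

section Descent

variable {G W X : Type} [Group G] [Countable G] [Infinite G] [MeasurableSpace W]
  [AddCommGroup X] [MeasurableSpace X] [MeasurableAdd₂ X] [MeasurableNeg X]
  (ρ : Measure W) [IsProbabilityMeasure ρ] (ν : Measure X) [IsProbabilityMeasure ν]
  (act : G → X → X) (tr : X → (G → W) → (G → W)) (p : (G → W) → X)

/-- An equivariant retraction of the Bernoulli shift onto a group of translations. -/
structure Retr : Prop where
  hν : ∀ w, MeasurePreserving (fun z => w + z) ν ν
  act_meas : ∀ g, Measurable (act g)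
  act_sub : ∀ g x y, act g (x - y) = act g x - act g y
  tr_meas : Measurable fun q : X × (G → W) => tr q.1 q.2
  tr_mp : ∀ x, MeasurePreserving (tr x) (bern G ρ) (bern G ρ)
  tr_shift : ∀ g x y, shift g (tr x y) = tr (act g x) (shift g y)
  p_meas : Measurable p
  p_tr : ∀ᵐ y ∂(bern G ρ), ∀ x, p (tr x y) = p y + x
  p_shift : ∀ᵐ y ∂(bern G ρ), ∀ g, p (shift g y) = act g (p y)

variable {ρ ν act tr p}

omit [Countable G] [Infinite G] [MeasurableNeg X] in
lemma Retr.mp_p (h : Retr ρ ν act tr p) : MeasurePreserving p (bern G ρ) ν := by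
  haveI : IsProbabilityMeasure ((bern G ρ).map p) :=
    Measure.isProbabilityMeasure_map h.p_meas.aemeasurable
  refine ⟨h.p_meas, eq_of_ae_invariant _ _ h.hν (ae_of_all _ fun x => ⟨measurable_add_const x, ?_⟩)⟩
  rw [Measure.map_map (measurable_add_const x) h.p_meas]
  conv_rhs => rw [← (h.tr_mp x).map_eq, Measure.map_map h.p_meas (h.tr_mp x).measurable]
  refine Measure.map_congr ?_
  filter_upwards [h.p_tr] with y hy
  simp only [Function.comp_apply, hy x]

omit [Countable G] [Infinite G] in
lemma Retr.mp_Phi (h : Retr ρ ν act tr p) :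
    MeasurePreserving (fun q : (G → W) × (G → W) => tr (p q.2 - p q.1) q.1)
      ((bern G ρ).prod (bern G ρ)) (bern G ρ) := by
  have m1 : Measurable fun q : (G → W) × (G → W) => p q.2 - p q.1 :=
    (h.p_meas.comp measurable_snd).sub (h.p_meas.comp measurable_fst)
  have h1 : MeasurePreserving (fun q : (G → W) × (G → W) => (q.1, p q.2 - p q.1))
      ((bern G ρ).prod (bern G ρ)) ((bern G ρ).prod ν) := by
    refine (MeasurePreserving.id (bern G ρ)).skew_product (g := fun y y' => p y' - p y) m1
      (ae_of_all _ fun y => ?_)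
    have := ((h.hν (-p y)).comp h.mp_p).map_eq
    rw [← this]
    congr 1
    funext y'
    simp only [Function.comp_apply]
    abel
  have h2 : MeasurePreserving (fun q : X × (G → W) => (q.1, tr q.1 q.2))
      (ν.prod (bern G ρ)) (ν.prod (bern G ρ)) :=
    (MeasurePreserving.id ν).skew_product (g := fun x y => tr x y) h.tr_meas
      (ae_of_all _ fun x => (h.tr_mp x).map_eq)
  exact (measurePreserving_snd.comp h2).comp (Measure.measurePreserving_swap.comp h1)

theorem Retr.superrigid (h : Retr ρ ν act tr p)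
    (hS : Superrigid (shift : G → (G → W) → (G → W)) (bern G ρ)) : Superrigid act ν := by
  intro c hc
  have hp := h.mp_p
  have hC : IsCocycle (shift : G → (G → W) → (G → W)) (bern G ρ) fun g y => c g (p y) := by
    refine ⟨fun g => (hc.1 g).comp h.p_meas, fun g₁ g₂ => ?_⟩
    filter_upwards [hp.quasiMeasurePreserving.ae (hc.2 g₁ g₂), h.p_shift] with y h1 h2
    rw [h1, h2]
  obtain ⟨χ, B, hχ, hB, hcob⟩ := hS _ hC
  set Φ : (G → W) × (G → W) → (G → W) := fun q => tr (p q.2 - p q.1) q.1 with hΦ
  have hΦm : MeasurePreserving Φ ((bern G ρ).prod (bern G ρ)) (bern G ρ) := h.mp_Phi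
  set F : (G → W) × (G → W) → UnitAddCircle := fun q => B q.2 - B (Φ q) with hF
  have hFm : Measurable F := (hB.comp measurable_snd).sub (hB.comp hΦm.measurable)
  have q1 := (measurePreserving_fst (μ := bern G ρ) (ν := bern G ρ)).quasiMeasurePreserving
  have q2 := (measurePreserving_snd (μ := bern G ρ) (ν := bern G ρ)).quasiMeasurePreserving
  have hFi : ∀ g : G, ∀ᵐ q ∂((bern G ρ).prod (bern G ρ)),
      F (shift g q.1, shift g q.2) = F q := by
    intro g
    filter_upwards [q2.ae (hcob g⁻¹), hΦm.quasiMeasurePreserving.ae (hcob g⁻¹), q1.ae h.p_tr,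
      q1.ae h.p_shift, q2.ae h.p_shift] with q a1 a2 a3 a4 a5
    have e1 : p (Φ q) = p q.2 := by
      simp only [hΦ, a3]
      abel
    have e2 : Φ (shift g q.1, shift g q.2) = shift g (Φ q) := by
      simp only [hΦ, a4, a5, h.tr_shift, h.act_sub]
    rw [inv_inv] at a1 a2
    rw [e1, a1] at a2
    simp only [hF, e2]
    have : B (shift g q.2) = χ g⁻¹ + B (shift g (Φ q)) - B (Φ q) + B q.2 - χ g⁻¹ := by
      rw [← a2]
      abel
    rw [this]
    abel
  have hU := mp_unzip (ι := G) ρ ρ
  obtain ⟨κ, hκ⟩ := bern_const (G := G) (ρ.prod ρ) (hFm.comp hU.measurable) fun g => by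
    filter_upwards [hU.quasiMeasurePreserving.ae (hFi g)] with x hx
    exact hx
  have hκ' : ∀ᵐ q ∂((bern G ρ).prod (bern G ρ)), F q = κ := by
    filter_upwards [(mp_zip (ι := G) ρ ρ).quasiMeasurePreserving.ae hκ] with q hq
    exact hq
  obtain ⟨y₀, hy₀⟩ := (Measure.ae_ae_of_ae_prod hκ').exists
  set b : X → UnitAddCircle := fun x => κ + B (tr (x - p y₀) y₀) with hb
  have hbm : Measurable b :=
    (hB.comp (h.tr_meas.comp ((measurable_sub_const _).prodMk measurable_const))).const_add κ
  have hBb : ∀ᵐ y ∂(bern G ρ), B y = b (p y) := by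
    filter_upwards [hy₀] with y hy
    simp only [hF, hΦ] at hy
    simp only [hb, ← hy]
    abel
  refine ⟨χ, b, hχ, hbm, fun g => ?_⟩
  have hms : MeasurableSet {x | c g x = χ g + b (act g⁻¹ x) - b x} :=
    measurableSet_eq_fun (hc.1 g) (((hbm.comp (h.act_meas _)).const_add _).sub hbm)
  rw [← hp.map_eq, ae_map_iff hp.measurable.aemeasurable hms]
  filter_upwards [hcob g, hBb, (mp_shift ρ g⁻¹).quasiMeasurePreserving.ae hBb, h.p_shift]
    with y a1 a2 a3 a4
  rw [a1, a3, a2, a4]

theorem Retr.weaklyMixing (h : Retr ρ ν act tr p) : WeaklyMixing act ν := by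
  classical
  intro A hA hinv
  have hp := h.mp_p
  have hU := (hp.prod hp).comp (mp_unzip (ι := G) ρ ρ)
  set t : UnitAddCircle := ((1 / 2 : ℝ) : UnitAddCircle) with ht
  have ht0 : t ≠ 0 := by
    intro e
    obtain ⟨n, hn⟩ := (AddCircle.coe_eq_zero_iff 1).1 e
    have h1 : ((2 * n : ℤ) : ℝ) = ((1 : ℤ) : ℝ) := by
      simp only [zsmul_eq_mul, mul_one] at hn
      push_cast; rw [hn]; norm_num
    have h2 : 2 * n = 1 := by exact_mod_cast h1
    omega
  have hI : Measurable (A.indicator fun _ => t) := measurable_const.indicator hA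
  have q1 := ((measurePreserving_fst (μ := bern G ρ) (ν := bern G ρ)).comp
    (mp_unzip (ι := G) ρ ρ)).quasiMeasurePreserving
  have q2 := ((measurePreserving_snd (μ := bern G ρ) (ν := bern G ρ)).comp
    (mp_unzip (ι := G) ρ ρ)).quasiMeasurePreserving
  obtain ⟨κ, hκ⟩ := bern_const (G := G) (ρ.prod ρ) (hI.comp hU.measurable) fun g => by
    filter_upwards [hU.quasiMeasurePreserving.ae (hinv g), q1.ae h.p_shift, q2.ae h.p_shift]
      with x a1 a2 a3
    have e : (Prod.map p p ∘ fun (x : G → W × W) => ((fun i => (x i).1), (fun i => (x i).2)))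
        (shift g x) = Prod.map (act g) (act g)
          ((Prod.map p p ∘ fun (x : G → W × W) => ((fun i => (x i).1), (fun i => (x i).2))) x) :=
      Prod.ext (a2 g) (a3 g)
    rw [Function.comp_apply, e, Function.comp_apply (f := A.indicator fun _ => t)]
    have a1' := iff_of_eq a1
    simp only [Set.indicator_apply]
    exact if_congr a1' rfl rfl
  have hms : MeasurableSet {z | A.indicator (fun _ => t) z = κ} :=
    measurableSet_eq_fun hI measurable_const
  have hκ' : ∀ᵐ z ∂(ν.prod ν), A.indicator (fun _ => t) z = κ := by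
    rw [← hU.map_eq, ae_map_iff hU.measurable.aemeasurable hms]
    exact hκ
  by_cases h0 : κ = 0
  · left
    rw [measure_eq_zero_iff_ae_notMem]
    filter_upwards [hκ'] with z hz hzA
    rw [Set.indicator_of_mem hzA, h0] at hz
    exact ht0 hz
  · right
    rw [measure_eq_zero_iff_ae_notMem]
    filter_upwards [hκ'] with z hz hzA
    rw [Set.indicator_of_notMem hzA] at hz
    exact h0 hz.symm

end Descent

end Pool.Agent.Lib.MP_e62806_an
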