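import Pool.Agent.Lib.MP_e62806_an.L2
import Pool.Agent.Lib.MP_e62806_an.Split1

/-!
The `L²` pairing of a square-summable function with the centred lifts of independent uniform
points of the circle.
-/

open MeasureTheory Filter Topology
open scoped ENNReal

noncomputable section

namespace Pool.Agent.Lib.MP_e62806_an

/-- The Haar probability measure of the circle. -/
abbrev hT : Measure UnitAddCircle := AddCircle.haarAddCircle

/-- The lift of a point of the circle to `[-1/2, 1/2)`. -/
def lft (t : UnitAddCircle) : ℝ := (AddCircle.equivIco (1 : ℝ) (-1 / 2) t : ℝ)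

lemma measurable_lft : Measurable lft :=
  measurable_subtype_coe.comp (AddCircle.measurableEquivIco (1 : ℝ) (-1 / 2)).measurable

lemma coe_lft (t : UnitAddCircle) : ((lft t : ℝ) : UnitAddCircle) = t := AddCircle.coe_equivIco

lemma lft_mem (t : UnitAddCircle) : -1 / 2 ≤ lft t ∧ lft t < -1 / 2 + 1 :=
  (AddCircle.equivIco (1 : ℝ) (-1 / 2) t).2

lemma norm_lft_le (t : UnitAddCircle) : ‖lft t‖ ≤ 1 := by
  have := lft_mem t
  rw [Real.norm_eq_abs, abs_le]
  constructor <;> linarith [this.1, this.2]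

lemma lft_neg {t : UnitAddCircle} (ht : t ≠ ((-1 / 2 : ℝ) : UnitAddCircle)) :
    lft (-t) = -lft t := by
  have h := lft_mem t
  have h1 : lft t ≠ -1 / 2 := fun e => ht (by rw [← e, coe_lft])
  have h2 : -1 / 2 < lft t := lt_of_le_of_ne h.1 h1.symm
  have h3 : -t = ((-lft t : ℝ) : UnitAddCircle) := by rw [AddCircle.coe_neg, coe_lft]
  rw [h3]
  exact AddCircle.equivIco_coe_of_mem (y := -lft t) ⟨by linarith [h.2], by linarith⟩

lemma ae_lft_neg : ∀ᵐ t ∂hT, lft (-t) = -lft t := by
  have h0 : hT ({((-1 / 2 : ℝ) : UnitAddCircle)} : Set UnitAddCircle) = 0 := by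
    have h1 := AddCircle.volume_closedBall (T := 1) (x := ((-1 / 2 : ℝ) : UnitAddCircle)) 0
    rw [Metric.closedBall_zero, AddCircle.volume_eq_smul_haarAddCircle] at h1
    simpa using h1
  have : ∀ᵐ t ∂hT, t ∉ ({((-1 / 2 : ℝ) : UnitAddCircle)} : Set UnitAddCircle) :=
    measure_eq_zero_iff_ae_notMem.1 h0
  filter_upwards [this] with t ht
  exact lft_neg ht

section

variable {G : Type}

lemma mp_eval (h : G) : MeasurePreserving (fun x : G → UnitAddCircle => x h) (bern G hT) hT :=
  measurePreserving_eval_infinitePi _ h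

/-- Negating one coordinate. -/
def negAt [DecidableEq G] (h : G) (x : G → UnitAddCircle) : G → UnitAddCircle :=
  fun i => if i = h then -x i else x i

lemma mp_negAt [DecidableEq G] (h : G) : MeasurePreserving (negAt h) (bern G hT) (bern G hT) :=
  mp_coord hT hT (f := fun i t => if i = h then -t else t) fun i => by
    by_cases hi : i = h
    · simp only [hi, if_true]; exact Measure.measurePreserving_neg hT
    · simp only [hi, if_false]; exact MeasurePreserving.id _

lemma memLp_lft (h : G) : MemLp (fun x : G → UnitAddCircle => lft (x h)) 2 (bern G hT) :=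
  MemLp.of_bound (measurable_lft.comp (measurable_pi_apply h)).aestronglyMeasurable 1
    (ae_of_all _ fun _ => norm_lft_le _)

/-- The lifted coordinates as elements of `L²`. -/
def wL (h : G) : Lp ℝ 2 (bern G hT) := (memLp_lft h).toLp _

lemma coe_wL (h : G) : wL h =ᵐ[bern G hT] fun x => lft (x h) := MemLp.coeFn_toLp _

lemma norm_wL_le (h : G) : ‖wL h‖ ≤ 1 := by
  have := Lp.norm_le_of_ae_bound (f := wL h) (C := 1) zero_le_one (by
    filter_upwards [coe_wL h] with x hx
    rw [hx]; exact norm_lft_le _)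
  have h1 : measureUnivNNReal (bern G hT) = 1 := by simp [measureUnivNNReal]
  simpa [h1] using this

/-- Composition with a measure preserving map. -/
def cmpT (T : (G → UnitAddCircle) → (G → UnitAddCircle))
    (hmp : MeasurePreserving T (bern G hT) (bern G hT)) :
    Lp ℝ 2 (bern G hT) →ₗᵢ[ℝ] Lp ℝ 2 (bern G hT) :=
  Lp.compMeasurePreservingₗᵢ ℝ T hmp

lemma coe_cmpT (T : (G → UnitAddCircle) → (G → UnitAddCircle))
    (hmp : MeasurePreserving T (bern G hT) (bern G hT)) (F : Lp ℝ 2 (bern G hT)) :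
    cmpT T hmp F =ᵐ[bern G hT] fun x => F (T x) :=
  Lp.coeFn_compMeasurePreserving F hmp

lemma coe_cmpT_wL (T : (G → UnitAddCircle) → (G → UnitAddCircle))
    (hmp : MeasurePreserving T (bern G hT) (bern G hT)) (k : G) :
    cmpT T hmp (wL k) =ᵐ[bern G hT] fun x => lft (T x k) := by
  filter_upwards [coe_cmpT T hmp (wL k), hmp.quasiMeasurePreserving.ae (coe_wL k)] with x h1 h2
  rw [h1, h2]

lemma inner_wL {h k : G} (hk : h ≠ k) : inner ℝ (wL h) (wL k) = 0 := by
  classical
  have h1 : cmpT _ (mp_negAt h) (wL h) = -wL h := by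
    apply Lp.ext
    filter_upwards [coe_cmpT_wL _ (mp_negAt h) h, Lp.coeFn_neg (wL h), coe_wL h,
      (mp_eval h).quasiMeasurePreserving.ae ae_lft_neg] with x a b c d
    rw [a, b, Pi.neg_apply, c, ← d]
    simp [negAt]
  have h2 : cmpT _ (mp_negAt h) (wL k) = wL k := by
    apply Lp.ext
    filter_upwards [coe_cmpT_wL _ (mp_negAt h) k, coe_wL k] with x a c
    rw [a, c]
    simp [negAt, hk.symm]
  have h3 := (cmpT _ (mp_negAt h)).inner_map_map (wL h) (wL k)
  rw [h1, h2, inner_neg_left] at h3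
  linarith

lemma summable_wL {ξ : G → ℝ} (hξ : Summable fun h => ξ h ^ 2) :
    Summable fun h => ξ h • wL h := by
  have ho : OrthogonalFamily ℝ (fun h : G => ↥(Submodule.span ℝ {wL h}))
      (fun h => (Submodule.span ℝ {wL h}).subtypeₗᵢ) := by
    refine OrthogonalFamily.of_pairwise fun h k hk => ?_
    simp only [Function.onFun, Submodule.isOrtho_span, Set.mem_singleton_iff]
    rintro _ rfl _ rfl
    exact inner_wL hk
  refine (ho.summable_iff_norm_sq_summable fun h =>
    ⟨ξ h • wL h, Submodule.smul_mem _ _ (Submodule.mem_span_singleton_self _)⟩).2 ?_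
  refine Summable.of_nonneg_of_le (fun h => by positivity) (fun h => ?_) hξ
  change ‖ξ h • wL h‖ ^ 2 ≤ _
  rw [norm_smul, mul_pow, Real.norm_eq_abs, sq_abs]
  have h1 := norm_wL_le h
  have h2 : ‖wL h‖ ^ 2 ≤ 1 := by nlinarith [norm_nonneg (wL h)]
  nlinarith [sq_nonneg (ξ h)]

/-- The `L²` pairing of a square-summable function with the lifted configuration. -/
def pairT (ξ : G → ℝ) : Lp ℝ 2 (bern G hT) := ∑' h, ξ h • wL h

lemma pairT_add {ξ ζ : G → ℝ} (hξ : Summable fun h => ξ h ^ 2)
    (hζ : Summable fun h => ζ h ^ 2) : pairT (fun h => ξ h + ζ h) = pairT ξ + pairT ζ := by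
  unfold pairT
  rw [← (summable_wL hξ).tsum_add (summable_wL hζ)]
  simp only [add_smul]

lemma pairT_smul (c : ℝ) {ξ : G → ℝ} (hξ : Summable fun h => ξ h ^ 2) :
    pairT (fun h => c * ξ h) = c • pairT ξ := by
  unfold pairT
  rw [← (summable_wL hξ).tsum_const_smul c]
  simp only [mul_smul]

lemma pairT_translate [Group G] {ξ : G → ℝ} (hξ : Summable fun h => ξ h ^ 2) (g : G) :
    ∀ᵐ x ∂(bern G hT), pairT (fun h => ξ (g⁻¹ * h)) x = pairT ξ (shift g⁻¹ x) := by
  have h1 : ∀ k, cmpT _ (mp_shift hT g⁻¹) (wL k) = wL (g * k) := by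
    intro k
    apply Lp.ext
    filter_upwards [coe_cmpT_wL _ (mp_shift hT g⁻¹) k, coe_wL (g * k)] with x a c
    rw [a, c]
    simp [shift]
  have h0 : cmpT _ (mp_shift hT g⁻¹) (pairT ξ) = ∑' h, ξ h • cmpT _ (mp_shift hT g⁻¹) (wL h) := by
    have := (cmpT _ (mp_shift hT g⁻¹)).toContinuousLinearMap.map_tsum (summable_wL hξ)
    simpa [pairT] using this
  have h2 : pairT (fun h => ξ (g⁻¹ * h)) = cmpT _ (mp_shift hT g⁻¹) (pairT ξ) := by
    rw [h0]
    unfold pairT
    rw [← (Equiv.mulLeft g).tsum_eq]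
    simp [h1]
  rw [h2]
  exact coe_cmpT _ _ _

lemma pairT_one [Group G] : ∀ᵐ x ∂(bern G hT),
    pairT (fun k => (((1 : MonoidAlgebra ℤ G).coeff k : ℤ) : ℝ)) x = lft (x 1) := by
  classical
  have : pairT (fun k => (((1 : MonoidAlgebra ℤ G).coeff k : ℤ) : ℝ)) = wL 1 := by
    unfold pairT
    rw [tsum_eq_single 1]
    · simp [MonoidAlgebra.one_def]
    · intro k hk
      simp [MonoidAlgebra.one_def, Finsupp.single_apply, hk.symm]
  rw [this]
  exact coe_wL 1

end

end Pool.Agent.Lib.MP_e62806_an
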