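import Pool.Agent.Lib.MP_e62806_an.Split2
import Pool.Agent.Lib.MP_e62806_an.Dual

/-!
If `f` has a square-summable convolution inverse, then `y ↦ y f*` has an equivariant measurable
section on the torus `𝕋^G`, so that `𝕋^G` retracts equivariantly onto `X_f`.
-/

open MeasureTheory Filter Topology
open scoped ENNReal

noncomputable section

namespace Pool.Agent.Lib.MP_e62806_an

variable {G : Type} [Group G]

/-- The pairing of a configuration with an element of the group ring. -/
def ev (w : G → UnitAddCircle) (a : MonoidAlgebra ℤ G) : UnitAddCircle :=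
  a.coeff.sum fun g n => n • w g

@[simp] lemma ev_zero (w : G → UnitAddCircle) : ev w 0 = 0 := by simp [ev]

lemma ev_add (w : G → UnitAddCircle) (a b : MonoidAlgebra ℤ G) :
    ev w (a + b) = ev w a + ev w b := by
  unfold ev
  rw [MonoidAlgebra.coeff_add, Finsupp.sum_add_index'] <;> simp [add_smul]

lemma ev_sub (w : G → UnitAddCircle) (a b : MonoidAlgebra ℤ G) :
    ev w (a - b) = ev w a - ev w b := by
  rw [eq_sub_iff_add_eq, ← ev_add, sub_add_cancel]

@[simp] lemma ev_single (w : G → UnitAddCircle) (k : G) (n : ℤ) :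
    ev w (MonoidAlgebra.single k n) = n • w k := by
  unfold ev
  rw [MonoidAlgebra.coeff_single, Finsupp.sum_single_index]
  simp

lemma ev_add_left (w w' : G → UnitAddCircle) (a : MonoidAlgebra ℤ G) :
    ev (w + w') a = ev w a + ev w' a := by
  simp [ev, Finsupp.sum, Finset.sum_add_distrib]

lemma ev_zero_left (a : MonoidAlgebra ℤ G) : ev (0 : G → UnitAddCircle) a = 0 := by
  simp [ev, Finsupp.sum]

lemma measurable_ev (a : MonoidAlgebra ℤ G) : Measurable fun w : G → UnitAddCircle => ev w a := by
  unfold ev Finsupp.sum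
  exact Finset.measurable_sum _ fun g _ =>
    (continuous_zsmul (a.coeff g)).measurable.comp (measurable_pi_apply g)

lemma ev_single_mul (w : G → UnitAddCircle) (k : G) (n : ℤ) (a : MonoidAlgebra ℤ G) :
    ev w (MonoidAlgebra.single k n * a) = n • ev (shift k⁻¹ w) a := by
  induction a using MonoidAlgebra.induction_linear with
  | zero => simp
  | add a b ha hb => rw [mul_add, ev_add, ev_add, ha, hb, smul_add]
  | single j m => simp [MonoidAlgebra.single_mul_single, shift, mul_smul]

/-- The map `y ↦ y f*`. -/
def Rm (f : MonoidAlgebra ℤ G) (w : G → UnitAddCircle) : G → UnitAddCircle :=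
  fun g => ev (shift g⁻¹ w) f

lemma ev_mul (w : G → UnitAddCircle) (a f : MonoidAlgebra ℤ G) :
    ev w (a * f) = ev (Rm f w) a := by
  induction a using MonoidAlgebra.induction_linear with
  | zero => simp
  | add a b ha hb => rw [add_mul, ev_add, ev_add, ha, hb]
  | single j m => rw [ev_single_mul, ev_single, Rm]

lemma shift_shift {X : Type} (g k : G) (w : G → X) : shift g (shift k w) = shift (g * k) w := by
  funext h
  simp [shift, mul_assoc]

lemma Rm_shift (f : MonoidAlgebra ℤ G) (k : G) (w : G → UnitAddCircle) :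
    Rm f (shift k w) = shift k (Rm f w) := by
  funext g
  simp only [Rm, shift_shift]
  simp [shift, Rm]

lemma Rm_add (f : MonoidAlgebra ℤ G) (w w' : G → UnitAddCircle) :
    Rm f (w + w') = Rm f w + Rm f w' := by
  funext g
  exact ev_add_left (shift g⁻¹ w) (shift g⁻¹ w') f

lemma Rm_sub (f : MonoidAlgebra ℤ G) (w w' : G → UnitAddCircle) :
    Rm f (w - w') = Rm f w - Rm f w' := by
  rw [eq_sub_iff_add_eq, ← Rm_add, sub_add_cancel]

lemma measurable_Rm (f : MonoidAlgebra ℤ G) : Measurable (Rm f) :=
  measurable_pi_lambda _ fun g => (measurable_ev f).comp (mp_shift hT g⁻¹).measurable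

section Dual

variable (f : MonoidAlgebra ℤ G)

/-- The embedding of `X_f` in `𝕋^G`. -/
def emb (x : PontDual f) : G → UnitAddCircle :=
  fun g => x.1 (Submodule.Quotient.mk (MonoidAlgebra.single g 1))

lemma ev_emb (x : PontDual f) (a : MonoidAlgebra ℤ G) :
    ev (emb f x) a = x.1 (Submodule.Quotient.mk a) := by
  let c : QuotMod f →+ UnitAddCircle := AddMonoidHom.mk' x.1 x.2
  change _ = c _
  induction a using MonoidAlgebra.induction_linear with
  | zero => simp
  | add a b ha hb => rw [ev_add, ha, hb, Submodule.Quotient.mk_add, map_add]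
  | single j m =>
    have : MonoidAlgebra.single j m = m • (MonoidAlgebra.single j 1 : MonoidAlgebra ℤ G) := by
      simp
    rw [ev_single, this, Submodule.Quotient.mk_smul, map_zsmul]
    rfl

lemma emb_injective : Function.Injective (emb f) := by
  intro x y h
  refine Subtype.ext (funext fun m => ?_)
  obtain ⟨a, rfl⟩ := Submodule.Quotient.mk_surjective _ m
  rw [← ev_emb, ← ev_emb, h]

lemma emb_add (x y : PontDual f) : emb f (x + y) = emb f x + emb f y := rfl

lemma emb_act (g : G) (x : PontDual f) : emb f (dualAct f g x) = shift g (emb f x) := by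
  funext h
  change x.1 (Submodule.Quotient.mk (MonoidAlgebra.single g⁻¹ 1 * MonoidAlgebra.single h 1)) = _
  rw [MonoidAlgebra.single_mul_single, mul_one]
  rfl

lemma measurable_emb : Measurable (emb f) :=
  measurable_pi_lambda _ fun _ => (measurable_pi_apply _).comp measurable_subtype_coe

lemma Rm_emb (x : PontDual f) : Rm f (emb f x) = 0 := by
  funext g
  have h1 := ev_single_mul (emb f x) g 1 f
  rw [one_smul, ev_emb] at h1
  have h2 : (Submodule.Quotient.mk (MonoidAlgebra.single g 1 * f) : QuotMod f) = 0 := by
    rw [Submodule.Quotient.mk_eq_zero, Submodule.mem_span_singleton]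
    exact ⟨_, rfl⟩
  rw [h2] at h1
  rw [Rm, ← h1]
  exact (pairing f).zero_left x

/-- A representative of a class. -/
def rep (m : QuotMod f) : MonoidAlgebra ℤ G :=
  Function.surjInv (Submodule.Quotient.mk_surjective _) m

lemma mk_rep (m : QuotMod f) : Submodule.Quotient.mk (rep f m) = m :=
  Function.surjInv_eq _ m

lemma ev_congr {w : G → UnitAddCircle} (hw : Rm f w = 0) {a b : MonoidAlgebra ℤ G}
    (h : (Submodule.Quotient.mk a : QuotMod f) = Submodule.Quotient.mk b) : ev w a = ev w b := by
  rw [Submodule.Quotient.eq, Submodule.mem_span_singleton] at h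
  obtain ⟨z, hz⟩ := h
  rw [← sub_eq_zero, ← ev_sub, ← hz, smul_eq_mul, ev_mul, hw, ev_zero_left]

open Classical in
/-- The point of `X_f` given by a configuration killed by `f*`. -/
def mkX (w : G → UnitAddCircle) : PontDual f :=
  if h : Rm f w = 0 then
    ⟨fun m => ev w (rep f m), fun a b => by
      rw [← ev_add]
      exact ev_congr f h (by rw [Submodule.Quotient.mk_add, mk_rep, mk_rep, mk_rep])⟩
  else 0

lemma emb_mkX {w : G → UnitAddCircle} (hw : Rm f w = 0) : emb f (mkX f w) = w := by
  funext g
  simp only [emb, mkX, dif_pos hw]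
  rw [ev_congr f hw (mk_rep f _), ev_single, one_smul]

lemma measurable_mkX [Countable G] : Measurable (mkX f) := by
  classical
  have h1 : Measurable fun w => (mkX f w).1 := by
    refine measurable_pi_lambda _ fun m => ?_
    have : (fun w => (mkX f w).1 m) = fun w => if Rm f w = 0 then ev w (rep f m) else 0 := by
      funext w
      by_cases h : Rm f w = 0
      · simp only [mkX, dif_pos h, if_pos h]
      · simp only [mkX, dif_neg h, if_neg h]; rfl
    rw [this]
    exact Measurable.ite (measurableSet_eq_fun (measurable_Rm f) measurable_const)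
      (measurable_ev _) measurable_const
  exact h1.subtype_mk

end Dual

/-- The equivariant section. -/
def sec (u : G → ℝ) (z : G → UnitAddCircle) : G → UnitAddCircle :=
  fun g => ((pairT u (shift g⁻¹ z) : ℝ) : UnitAddCircle)

lemma sec_shift (u : G → ℝ) (k : G) (z : G → UnitAddCircle) :
    sec u (shift k z) = shift k (sec u z) := by
  funext g
  simp only [sec, shift_shift]
  simp [shift, sec]

lemma measurable_sec (u : G → ℝ) : Measurable (sec u) :=
  measurable_pi_lambda _ fun g => (AddCircle.continuous_mk' 1).measurable.comp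
    ((Lp.stronglyMeasurable (pairT u)).measurable.comp (mp_shift hT g⁻¹).measurable)

lemma ev_sec {u : G → ℝ} (hu : Summable fun h => u h ^ 2) (r : MonoidAlgebra ℤ G) :
    ∀ᵐ z ∂(bern G hT), ev (sec u z) r = ((pairT (lconv r u) z : ℝ) : UnitAddCircle) := by
  induction r using MonoidAlgebra.induction_linear with
  | zero =>
    have : pairT (lconv 0 u) = 0 := by simp [pairT]
    filter_upwards [Lp.coeFn_zero ℝ 2 (bern G hT)] with z hz
    rw [this, hz]
    simp
  | add a b ha hb =>
    have : pairT (lconv (a + b) u) = pairT (lconv a u) + pairT (lconv b u) := by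
      rw [← pairT_add (summable_sq_lconv a hu) (summable_sq_lconv b hu)]
      exact congrArg pairT (funext (lconv_add a b u))
    filter_upwards [ha, hb, Lp.coeFn_add (pairT (lconv a u)) (pairT (lconv b u))] with z h1 h2 h3
    rw [this, h3, Pi.add_apply, AddCircle.coe_add, ev_add, h1, h2]
  | single j m =>
    have s2 : Summable fun h => u (j⁻¹ * h) ^ 2 := (Equiv.mulLeft j⁻¹).summable_iff.2 hu
    have : pairT (lconv (MonoidAlgebra.single j m) u) =
        (m : ℝ) • pairT fun h => u (j⁻¹ * h) := by
      rw [← pairT_smul _ s2]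
      exact congrArg pairT (funext (lconv_single j m u))
    filter_upwards [pairT_translate hu j, Lp.coeFn_smul (m : ℝ) (pairT fun h => u (j⁻¹ * h))]
      with z h1 h2
    rw [this, h2, Pi.smul_apply, h1, ev_single, smul_eq_mul, ← zsmul_eq_mul, AddCircle.coe_zsmul]
    rfl

variable [Countable G] {f : MonoidAlgebra ℤ G} {u : G → ℝ} (hu : Summable fun h => u h ^ 2)
  (hfu : lconv f u = fun k => (((1 : MonoidAlgebra ℤ G).coeff k : ℤ) : ℝ))

include hu hfu

lemma Rm_sec : ∀ᵐ z ∂(bern G hT), Rm f (sec u z) = z := by
  have h1 : ∀ᵐ z ∂(bern G hT), ev (sec u z) f = z 1 := by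
    filter_upwards [ev_sec hu f, pairT_one] with z a b
    rw [a, hfu, b, coe_lft]
  have h2 : ∀ᵐ z ∂(bern G hT), ∀ g, Rm f (sec u z) g = z g := by
    rw [ae_all_iff]
    intro g
    filter_upwards [(mp_shift hT g⁻¹).quasiMeasurePreserving.ae h1] with z hz
    rw [Rm, ← sec_shift, hz]
    simp [shift]
  filter_upwards [h2] with z hz
  exact funext hz

omit [Group G] hu hfu in
lemma mp_translate (w : G → UnitAddCircle) :
    MeasurePreserving (fun z => w + z) (bern G hT) (bern G hT) :=
  mp_coord hT hT (f := fun i t => w i + t) fun i => measurePreserving_add_left hT (w i)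

lemma mp_Rm : MeasurePreserving (Rm f) (bern G hT) (bern G hT) := by
  haveI : IsProbabilityMeasure ((bern G hT).map (Rm f)) :=
    Measure.isProbabilityMeasure_map (measurable_Rm f).aemeasurable
  refine ⟨measurable_Rm f, eq_of_ae_invariant _ _ mp_translate ?_⟩
  filter_upwards [Rm_sec hu hfu] with z hz
  refine ⟨measurable_add_const z, ?_⟩
  rw [Measure.map_map (measurable_add_const z) (measurable_Rm f)]
  conv_rhs => rw [← (mp_translate (sec u z)).map_eq,
    Measure.map_map (measurable_Rm f) (mp_translate (sec u z)).measurable]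
  congr 1
  funext y
  simp only [Function.comp_apply, Rm_add, hz, add_comm]

theorem retr (ν : Measure (PontDual f)) [ν.IsAddHaarMeasure] :
    Retr hT ν (dualAct f) (fun x y => emb f x + y) fun y => mkX f (y - sec u (Rm f y)) := by
  have hg : ∀ᵐ y ∂(bern G hT), Rm f (y - sec u (Rm f y)) = 0 := by
    filter_upwards [(mp_Rm hu hfu).quasiMeasurePreserving.ae (Rm_sec hu hfu)] with y hy
    rw [Rm_sub, hy, sub_self]
  refine ⟨measurePreserving_add_left ν, fun g => (continuous_dualAct f g).measurable,
    fun _ _ _ => rfl, ((measurable_emb f).comp measurable_fst).add measurable_snd,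
    fun x => mp_translate _, fun g x y => by rw [emb_act]; rfl,
    (measurable_mkX f).comp (measurable_id.sub ((measurable_sec u).comp (measurable_Rm f))),
    ?_, ?_⟩
  · filter_upwards [hg] with y hy x
    apply emb_injective f
    have e : emb f x + y - sec u (Rm f (emb f x + y)) = (y - sec u (Rm f y)) + emb f x := by
      rw [Rm_add, Rm_emb, zero_add]
      abel
    rw [emb_add, emb_mkX f hy, e, emb_mkX]
    rw [Rm_add, hy, Rm_emb, add_zero]
  · filter_upwards [hg] with y hy g
    apply emb_injective f
    have e : shift g y - sec u (Rm f (shift g y)) = shift g (y - sec u (Rm f y)) := by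
      rw [Rm_shift, sec_shift]
      rfl
    rw [emb_act, emb_mkX f hy, e, emb_mkX]
    rw [Rm_shift, hy]
    rfl

end Pool.Agent.Lib.MP_e62806_an
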